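import Pool.Agent.H921K.Defs

set_option autoImplicit false

namespace Pool.Agent.H921K

open Finset Pool.Agent.H921S
open scoped Classical

noncomputable section

namespace CNTWaux

/-- literals on distinct variables: an embedding and a sign vector -/
def eqv (n s : ℕ) : {w : Fin s → Lit n // DV w} ≃ (Fin s ↪ Fin n) × (Fin s → Bool) where
  toFun w := (⟨fun i => (w.1 i).1, w.2⟩, fun i => (w.1 i).2)
  invFun p := ⟨fun i => (p.1 i, p.2 i), p.1.injective⟩
  left_inv w := by
    apply Subtype.ext
    funext i
    rfl
  right_inv p := by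
    refine Prod.ext ?_ rfl
    ext i
    rfl

theorem card (n s : ℕ) : Fintype.card {w : Fin s → Lit n // DV w} = n.descFactorial s * 2 ^ s := by
  rw [Fintype.card_congr (eqv n s), Fintype.card_prod, Fintype.card_embedding_eq,
    Fintype.card_fin, Fintype.card_fin, Fintype.card_fun, Fintype.card_bool, Fintype.card_fin]

end CNTWaux

theorem t_CNTW : S_CNTW := by
  intro n s hs
  have hc := CNTWaux.card n s
  rw [hc]
  constructor
  · have h1 : (n - s) ^ s ≤ n.descFactorial s :=
      (Nat.pow_le_pow_left (by omega) s).trans (Nat.pow_sub_le_descFactorial n s)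
    have h2 : ((n : ℝ) - s) = ((n - s : ℕ) : ℝ) := by
      rw [Nat.cast_sub hs]
    rw [h2, mul_pow, mul_comm]
    push_cast [-Nat.cast_sub]
    apply mul_le_mul_of_nonneg_right _ (by positivity)
    exact_mod_cast h1
  · have h1 : n.descFactorial s ≤ n ^ s := Nat.descFactorial_le_pow n s
    rw [mul_pow, mul_comm (2 ^ s : ℝ)]
    push_cast
    apply mul_le_mul_of_nonneg_right _ (by positivity)
    exact_mod_cast h1

end

end Pool.Agent.H921K
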