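import Pool.Agent.H921K.Defs

/-!
Task DEC: decomposition of a bicycle in three paths.
-/

set_option autoImplicit false

namespace Pool.Agent.H921K

open Finset Pool.Agent.H921S
open scoped Classical

noncomputable section

variable {n : ℕ}

namespace DECaux

theorem neg_ne (u : Lit n) : neg u ≠ u := by
  intro h
  have := congrArg Prod.snd h
  simp [neg] at this

theorem neg_neg' (u : Lit n) : neg (neg u) = u := by
  unfold neg
  simp

theorem ex_zero (a l c : ℕ) (w : Fin (a + l + c + 4) → Lit n) :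
    ex a l c w 0 = neg (w ⟨a + 1, by omega⟩) := by
  unfold ex
  rw [if_pos rfl]

theorem ex_mid (a l c : ℕ) (w : Fin (a + l + c + 4) → Lit n) (i : ℕ) (hi : i < a + l + c + 4)
    (j : ℕ) (hj : j = i + 1) : ex a l c w j = w ⟨i, hi⟩ := by
  subst hj
  unfold ex
  rw [if_neg (by omega), dif_pos (by omega)]
  rfl

theorem ex_last (a l c : ℕ) (w : Fin (a + l + c + 4) → Lit n) (j : ℕ) (hj : j = a + l + c + 5) :
    ex a l c w j = neg (w ⟨a + l + 2, by omega⟩) := by
  subst hj
  unfold ex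
  rw [if_neg (by omega), dif_neg (by omega)]

theorem DV_inj {s : ℕ} {w : Fin s → Lit n} (h : DV w) (i j : ℕ) (hi : i < s) (hj : j < s)
    (hij : (w ⟨i, hi⟩).1 = (w ⟨j, hj⟩).1) : i = j :=
  congrArg Fin.val (h hij)

theorem neg_w_ne {s : ℕ} {w : Fin s → Lit n} (h : DV w) (i j : ℕ) (hi : i < s) (hj : j < s) :
    neg (w ⟨i, hi⟩) ≠ w ⟨j, hj⟩ := by
  intro he
  have h1 : (w ⟨i, hi⟩).1 = (w ⟨j, hj⟩).1 := by
    have h0 : (neg (w ⟨i, hi⟩)).1 = (w ⟨j, hj⟩).1 := by rw [he]
    exact h0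
  have h2 := DV_inj h i j hi hj h1
  subst h2
  exact neg_ne _ he

theorem wt_nonneg (g : Lit n → Lit n → Prop) (p : ℝ) (hp : 0 ≤ p) (u v : Lit n) :
    0 ≤ wt g p u v := by
  unfold wt
  split_ifs
  · exact zero_le_one
  · exact hp

/-- condition of `PN` -/
def cN (t : ℕ) (u : Lit n) (f : Fin (t + 1) → Lit n) : Prop :=
  Function.Injective f ∧ f 0 = u ∧ f (Fin.last t) = neg u ∧
    ∀ i j : Fin t, (i : ℕ) = 0 → (j : ℕ) + 1 = t → f i.succ ≠ neg (f j.castSucc)

/-- condition of `PS` -/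
def cS (t : ℕ) (u v : Lit n) (f : Fin (t + 1) → Lit n) : Prop :=
  Function.Injective f ∧ f 0 = u ∧ f (Fin.last t) = v

/-- weight -/
def W (g : Lit n → Lit n → Prop) (p : ℝ) (t : ℕ) (f : Fin (t + 1) → Lit n) : ℝ :=
  ∏ i : Fin t, wt g p (f i.castSucc) (f i.succ)

theorem W_nonneg (g : Lit n → Lit n → Prop) (p : ℝ) (hp : 0 ≤ p) (t : ℕ)
    (f : Fin (t + 1) → Lit n) : 0 ≤ W g p t f :=
  Finset.prod_nonneg fun _ _ => wt_nonneg g p hp _ _

theorem ite_inst (P : Prop) (d1 d2 : Decidable P) (x y : ℝ) :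
    @ite ℝ P d1 x y = @ite ℝ P d2 x y := by
  by_cases h : P
  · rw [if_pos h, if_pos h]
  · rw [if_neg h, if_neg h]

theorem PN_eq (g : Lit n → Lit n → Prop) (p : ℝ) (t : ℕ) (u : Lit n) :
    PN g p t u = ∑ f : Fin (t + 1) → Lit n, if cN t u f then W g p t f else 0 := by
  unfold PN
  rw [Finset.sum_filter]
  exact Finset.sum_congr rfl fun f _ => ite_inst (cN t u f) _ _ _ _

theorem PS_eq (g : Lit n → Lit n → Prop) (p : ℝ) (t : ℕ) (u v : Lit n) :
    PS g p t u v = ∑ f : Fin (t + 1) → Lit n, if cS t u v f then W g p t f else 0 := by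
  unfold PS
  rw [Finset.sum_filter]
  exact Finset.sum_congr rfl fun f _ => ite_inst (cS t u v f) _ _ _ _

/-- the index type -/
abbrev Z (n a l c : ℕ) : Type := Lit n × Lit n × (Fin (a + 2 + 1) → Lit n) ×
  (Fin (l + 1 + 1) → Lit n) × (Fin (c + 2 + 1) → Lit n)

/-- the terms of the right side -/
def TT (g : Lit n → Lit n → Prop) (p : ℝ) (a l c : ℕ) (z : Z n a l c) : ℝ :=
  (if cN (a + 2) (neg z.1) z.2.2.1 then W g p (a + 2) z.2.2.1 else 0) *
    (if cS (l + 1) z.1 z.2.1 z.2.2.2.1 then W g p (l + 1) z.2.2.2.1 else 0) *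
    (if cN (c + 2) z.2.1 z.2.2.2.2 then W g p (c + 2) z.2.2.2.2 else 0)

theorem TT_nonneg (g : Lit n → Lit n → Prop) (p : ℝ) (hp : 0 ≤ p) (a l c : ℕ) (z : Z n a l c) :
    0 ≤ TT g p a l c z := by
  unfold TT
  refine mul_nonneg (mul_nonneg ?_ ?_) ?_
  · split_ifs
    · exact W_nonneg g p hp _ _
    · exact le_rfl
  · split_ifs
    · exact W_nonneg g p hp _ _
    · exact le_rfl
  · split_ifs
    · exact W_nonneg g p hp _ _
    · exact le_rfl

theorem rhs_eq (g : Lit n → Lit n → Prop) (p : ℝ) (a l c : ℕ) :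
    ∑ x : Lit n, ∑ y : Lit n, PN g p (a + 2) (neg x) * PS g p (l + 1) x y * PN g p (c + 2) y =
      ∑ z : Z n a l c, TT g p a l c z := by
  refine Eq.trans ?_ (Fintype.sum_prod_type (fun z : Lit n × (Lit n ×
    (Fin (a + 2 + 1) → Lit n) × (Fin (l + 1 + 1) → Lit n) × (Fin (c + 2 + 1) → Lit n)) =>
      TT g p a l c z)).symm
  refine Finset.sum_congr rfl fun x _ => ?_
  refine Eq.trans ?_ (Fintype.sum_prod_type (fun z : Lit n ×
    ((Fin (a + 2 + 1) → Lit n) × (Fin (l + 1 + 1) → Lit n) × (Fin (c + 2 + 1) → Lit n)) =>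
      TT g p a l c (x, z))).symm
  refine Finset.sum_congr rfl fun y _ => ?_
  refine Eq.trans ?_ (Fintype.sum_prod_type (fun z : (Fin (a + 2 + 1) → Lit n) ×
    ((Fin (l + 1 + 1) → Lit n) × (Fin (c + 2 + 1) → Lit n)) => TT g p a l c (x, y, z))).symm
  rw [PN_eq, PS_eq, PN_eq, Finset.sum_mul_sum, Finset.sum_mul]
  refine Finset.sum_congr rfl fun f _ => ?_
  refine Eq.trans ?_ (Fintype.sum_prod_type (fun z :
    (Fin (l + 1 + 1) → Lit n) × (Fin (c + 2 + 1) → Lit n) => TT g p a l c (x, y, f, z))).symm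
  rw [Finset.sum_mul_sum]
  rfl

/-- the three paths of a bicycle -/
def phi (a l c : ℕ) (w : Fin (a + l + c + 4) → Lit n) : Z n a l c :=
  (w ⟨a + 1, by omega⟩, w ⟨a + l + 2, by omega⟩, fun i => ex a l c w i,
    fun i => ex a l c w (a + 2 + i), fun i => ex a l c w (a + 2 + (l + 1) + i))

theorem phi_inj (a l c : ℕ) (w w' : Fin (a + l + c + 4) → Lit n)
    (h : phi a l c w = phi a l c w') : w = w' := by
  unfold phi at h
  simp only [Prod.mk.injEq] at h
  obtain ⟨_, _, h1, h2, h3⟩ := h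
  funext i
  obtain ⟨i, hi⟩ := i
  have key : ex a l c w (i + 1) = ex a l c w' (i + 1) := by
    rcases Nat.lt_or_ge (i + 1) (a + 2 + 1) with h4 | h4
    · exact congrFun h1 ⟨i + 1, h4⟩
    · rcases Nat.lt_or_ge (i + 1) (a + l + 4) with h5 | h5
      · have h6 := congrFun h2 ⟨i + 1 - (a + 2), by omega⟩
        simp only at h6
        have e : a + 2 + (i + 1 - (a + 2)) = i + 1 := by omega
        rw [e] at h6
        exact h6
      · have h6 := congrFun h3 ⟨i + 1 - (a + 2 + (l + 1)), by omega⟩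
        simp only at h6
        have e : a + 2 + (l + 1) + (i + 1 - (a + 2 + (l + 1))) = i + 1 := by omega
        rw [e] at h6
        exact h6
  rw [ex_mid a l c w i hi _ rfl, ex_mid a l c w' i hi _ rfl] at key
  exact key

theorem cA (a l c : ℕ) (w : Fin (a + l + c + 4) → Lit n) (hw : DV w) :
    cN (a + 2) (neg (w ⟨a + 1, by omega⟩)) (fun i : Fin (a + 2 + 1) => ex a l c w i) := by
  have hinj : ∀ i j : ℕ, i < j → j < a + 3 → ex a l c w i ≠ ex a l c w j := by
    intro i j hij hj he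
    rcases Nat.eq_zero_or_pos i with h0 | h0
    · subst h0
      rw [ex_zero, ex_mid a l c w (j - 1) (by omega) j (by omega)] at he
      exact neg_w_ne hw _ _ _ _ he
    · rw [ex_mid a l c w (i - 1) (by omega) i (by omega),
        ex_mid a l c w (j - 1) (by omega) j (by omega)] at he
      have := DV_inj hw _ _ _ _ (congrArg Prod.fst he)
      omega
  refine ⟨?_, ex_zero a l c w, ?_, ?_⟩
  · intro i j hij
    have hij' : ex a l c w i = ex a l c w j := hij
    rcases lt_trichotomy (i : ℕ) j with h | h | h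
    · exact absurd hij' (hinj i j h j.2)
    · exact Fin.ext h
    · exact absurd hij'.symm (hinj j i h i.2)
  · show ex a l c w ((Fin.last (a + 2) : Fin (a + 2 + 1)) : ℕ) = _
    rw [neg_neg', ex_mid a l c w (a + 1) (by omega) _ (by simp)]
  · intro i j hi hj
    show ex a l c w ((i.succ : Fin (a + 2 + 1)) : ℕ) ≠ neg (ex a l c w (j.castSucc : Fin (a + 2 + 1)))
    rw [ex_mid a l c w 0 (by omega) _ (by simp [hi]),
      ex_mid a l c w a (by omega) _ (by simp; omega)]
    exact fun h => neg_w_ne hw _ _ _ _ h.symm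

theorem cM (a l c : ℕ) (w : Fin (a + l + c + 4) → Lit n) (hw : DV w) :
    cS (l + 1) (w ⟨a + 1, by omega⟩) (w ⟨a + l + 2, by omega⟩)
      (fun i : Fin (l + 1 + 1) => ex a l c w (a + 2 + i)) := by
  refine ⟨?_, ?_, ?_⟩
  · intro i j hij
    have hij' : ex a l c w (a + 2 + i) = ex a l c w (a + 2 + j) := hij
    have h1 := i.2
    have h2 := j.2
    rw [ex_mid a l c w (a + 1 + i) (by omega) _ (by omega),
      ex_mid a l c w (a + 1 + j) (by omega) _ (by omega)] at hij'
    have := DV_inj hw _ _ _ _ (congrArg Prod.fst hij')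
    exact Fin.ext (by omega)
  · exact ex_mid a l c w (a + 1) (by omega) _ (by simp)
  · exact ex_mid a l c w (a + l + 2) (by omega) _ (by simp; omega)

theorem cC (a l c : ℕ) (w : Fin (a + l + c + 4) → Lit n) (hw : DV w) :
    cN (c + 2) (w ⟨a + l + 2, by omega⟩)
      (fun i : Fin (c + 2 + 1) => ex a l c w (a + 2 + (l + 1) + i)) := by
  have hinj : ∀ i j : ℕ, i < j → j < c + 3 →
      ex a l c w (a + 2 + (l + 1) + i) ≠ ex a l c w (a + 2 + (l + 1) + j) := by
    intro i j hij hj he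
    rcases Nat.lt_or_ge j (c + 2) with h0 | h0
    · rw [ex_mid a l c w (a + l + 2 + i) (by omega) _ (by omega),
        ex_mid a l c w (a + l + 2 + j) (by omega) _ (by omega)] at he
      have := DV_inj hw _ _ _ _ (congrArg Prod.fst he)
      omega
    · rw [ex_mid a l c w (a + l + 2 + i) (by omega) _ (by omega),
        ex_last a l c w _ (by omega)] at he
      exact neg_w_ne hw _ _ _ _ he.symm
  refine ⟨?_, ?_, ?_, ?_⟩
  · intro i j hij
    have hij' : ex a l c w (a + 2 + (l + 1) + i) = ex a l c w (a + 2 + (l + 1) + j) := hij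
    rcases lt_trichotomy (i : ℕ) j with h | h | h
    · exact absurd hij' (hinj i j h j.2)
    · exact Fin.ext h
    · exact absurd hij'.symm (hinj j i h i.2)
  · exact ex_mid a l c w (a + l + 2) (by omega) _ (by simp; omega)
  · exact ex_last a l c w _ (by simp; omega)
  · intro i j hi hj
    show ex a l c w (a + 2 + (l + 1) + ((i.succ : Fin (c + 2 + 1)) : ℕ)) ≠
      neg (ex a l c w (a + 2 + (l + 1) + ((j.castSucc : Fin (c + 2 + 1)) : ℕ)))
    rw [ex_mid a l c w (a + l + 3) (by omega) _ (by simp [hi]; omega),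
      ex_mid a l c w (a + l + c + 3) (by omega) _ (by simp; omega)]
    exact fun h => neg_w_ne hw _ _ _ _ h.symm

theorem term_eq (g : Lit n → Lit n → Prop) (p : ℝ) (a l c : ℕ)
    (w : Fin (a + l + c + 4) → Lit n) (hw : DV w) :
    ∏ i ∈ range (a + l + c + 5), wt g p (ex a l c w i) (ex a l c w (i + 1)) =
      TT g p a l c (phi a l c w) := by
  have e : a + l + c + 5 = a + 2 + (l + 1) + (c + 2) := by omega
  rw [e, Finset.prod_range_add, Finset.prod_range_add]
  unfold TT phi
  rw [if_pos (cA a l c w hw), if_pos (cM a l c w hw), if_pos (cC a l c w hw)]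
  unfold W
  congr 1
  · congr 1
    · rw [← Fin.prod_univ_eq_prod_range
        (fun i => wt g p (ex a l c w i) (ex a l c w (i + 1))) (a + 2)]
      rfl
    · rw [← Fin.prod_univ_eq_prod_range
        (fun i => wt g p (ex a l c w (a + 2 + i)) (ex a l c w (a + 2 + i + 1))) (l + 1)]
      rfl
  · rw [← Fin.prod_univ_eq_prod_range
      (fun i => wt g p (ex a l c w (a + 2 + (l + 1) + i)) (ex a l c w (a + 2 + (l + 1) + i + 1)))
      (c + 2)]
    rfl

end DECaux

open DECaux in
theorem t_DEC : S_DEC := by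
  intro n a l c g p hp
  rw [rhs_eq]
  calc ∑ w : {w : Fin (a + l + c + 4) → Lit n // DV w},
      ∏ i ∈ range (a + l + c + 5), wt g p (ex a l c w.1 i) (ex a l c w.1 (i + 1)) =
      ∑ w : {w : Fin (a + l + c + 4) → Lit n // DV w}, TT g p a l c (phi a l c w.1) :=
        Finset.sum_congr rfl fun w _ => term_eq g p a l c w.1 w.2
    _ = ∑ z ∈ Finset.univ.image
          (fun w : {w : Fin (a + l + c + 4) → Lit n // DV w} => phi a l c w.1),
          TT g p a l c z := by
        rw [Finset.sum_image]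
        intro w _ w' _ h
        exact Subtype.ext (phi_inj a l c _ _ h)
    _ ≤ ∑ z : Z n a l c, TT g p a l c z :=
        Finset.sum_le_sum_of_subset_of_nonneg (Finset.subset_univ _)
          fun z _ _ => TT_nonneg g p hp a l c z

end

end Pool.Agent.H921K
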