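import Pool.Agent.H921K.Defs

/-! DEG (helper873): degrees of a bicycle. -/

set_option autoImplicit false

namespace Pool.Agent.H921K

open Finset Pool.Agent.H921S
open scoped Classical

noncomputable section

namespace DEGaux

variable {n : ℕ}

theorem neg_neg' (x : Lit n) : neg (neg x) = x := by
  unfold neg
  simp

theorem neg_inj {x y : Lit n} (h : neg x = neg y) : x = y := by
  rw [← neg_neg' x, h, neg_neg']

theorem neg_ne (x : Lit n) : x ≠ neg x := by
  intro h
  have h2 := congrArg Prod.snd h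
  unfold neg at h2
  simp at h2

theorem pair {p v A B : Lit n} (h : ({p, v} : Finset (Lit n)) = {A, B}) :
    (p = A ∧ v = B) ∨ (p = B ∧ v = A) := by
  have h' : ({p, v} : Set (Lit n)) = {A, B} := by
    have := congrArg (fun s : Finset (Lit n) => (s : Set (Lit n))) h
    simpa using this
  exact Set.pair_eq_pair_iff.1 h'

section

variable {a l c : ℕ} {w : Fin (a + l + c + 4) → Lit n}

theorem w_inj (hw : DV w) {i j : Fin (a + l + c + 4)} (h : w i = w j) : i = j :=
  hw (by show (w i).1 = (w j).1; rw [h])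

theorem w_ne (hw : DV w) (i j : Fin (a + l + c + 4)) : w i ≠ neg (w j) := by
  intro h
  have h1 : i = j := hw (by show (w i).1 = (w j).1; rw [h]; rfl)
  subst h1
  exact neg_ne _ h

theorem ex_zero : ex a l c w 0 = neg (w ⟨a + 1, by omega⟩) := by
  unfold ex
  rw [if_pos rfl]

theorem ex_mid {i : ℕ} (hi : i < a + l + c + 4) : ex a l c w (i + 1) = w ⟨i, hi⟩ := by
  unfold ex
  rw [if_neg (by omega), dif_pos (by omega)]
  rfl

theorem ex_last {i : ℕ} (hi : i = a + l + c + 4) :
    ex a l c w (i + 1) = neg (w ⟨a + l + 2, by omega⟩) := by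
  unfold ex
  rw [if_neg (by omega), dif_neg (by omega)]

theorem cases {i : ℕ} {p v : Lit n} (hi : i < a + l + c + 5)
    (h : ({p, v} : Finset (Lit n)) = bc a l c w i) :
    (p = w ⟨a + 1, by omega⟩ ∧ v = w ⟨0, by omega⟩) ∨
    (p = w ⟨0, by omega⟩ ∧ v = w ⟨a + 1, by omega⟩) ∨
    (∃ (j : ℕ) (hj : j + 1 < a + l + c + 4),
      p = neg (w ⟨j, by omega⟩) ∧ v = w ⟨j + 1, hj⟩) ∨
    (∃ (j : ℕ) (hj : j + 1 < a + l + c + 4),
      p = w ⟨j + 1, hj⟩ ∧ v = neg (w ⟨j, by omega⟩)) ∨
    (p = neg (w ⟨a + l + c + 3, by omega⟩) ∧ v = neg (w ⟨a + l + 2, by omega⟩)) ∨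
    (p = neg (w ⟨a + l + 2, by omega⟩) ∧ v = neg (w ⟨a + l + c + 3, by omega⟩)) := by
  unfold bc at h
  rcases Nat.eq_zero_or_pos i with h0 | h0
  · subst h0
    rw [ex_zero, neg_neg', ex_mid (by omega : 0 < a + l + c + 4)] at h
    rcases pair h with h1 | h1
    · exact Or.inl h1
    · exact Or.inr (Or.inl h1)
  · obtain ⟨j, rfl⟩ : ∃ j, i = j + 1 := ⟨i - 1, by omega⟩
    rcases Nat.lt_or_ge (j + 1) (a + l + c + 4) with hj | hj
    · rw [ex_mid (by omega : j < a + l + c + 4), ex_mid hj] at h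
      rcases pair h with h1 | h1
      · exact Or.inr (Or.inr (Or.inl ⟨j, hj, h1⟩))
      · exact Or.inr (Or.inr (Or.inr (Or.inl ⟨j, hj, h1⟩)))
    · obtain rfl : j = a + l + c + 3 := by omega
      rw [ex_mid (by omega : a + l + c + 3 < a + l + c + 4),
        ex_last (by omega : a + l + c + 3 + 1 = a + l + c + 4)] at h
      rcases pair h with h1 | h1
      · exact Or.inr (Or.inr (Or.inr (Or.inr (Or.inl h1))))
      · exact Or.inr (Or.inr (Or.inr (Or.inr (Or.inr h1))))

/-- both literals of a clause are literals of the bicycle -/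
theorem form {i : ℕ} {p v : Lit n} (hi : i < a + l + c + 5)
    (h : ({p, v} : Finset (Lit n)) = bc a l c w i) :
    (∃ j, p = w j ∨ p = neg (w j)) ∧ (∃ j, v = w j ∨ v = neg (w j)) := by
  rcases cases hi h with ⟨h1, h2⟩ | ⟨h1, h2⟩ | ⟨j, hj, h1, h2⟩ | ⟨j, hj, h1, h2⟩ | ⟨h1, h2⟩ |
    ⟨h1, h2⟩
  · exact ⟨⟨_, Or.inl h1⟩, ⟨_, Or.inl h2⟩⟩
  · exact ⟨⟨_, Or.inl h1⟩, ⟨_, Or.inl h2⟩⟩
  · exact ⟨⟨_, Or.inr h1⟩, ⟨_, Or.inl h2⟩⟩
  · exact ⟨⟨_, Or.inl h1⟩, ⟨_, Or.inr h2⟩⟩
  · exact ⟨⟨_, Or.inr h1⟩, ⟨_, Or.inr h2⟩⟩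
  · exact ⟨⟨_, Or.inr h1⟩, ⟨_, Or.inr h2⟩⟩

theorem key (hw : DV w) (p : Lit n) : ∃ x1 x2 : Lit n,
    (∀ i < a + l + c + 5, ∀ v, ({p, v} : Finset (Lit n)) = bc a l c w i → v = x1 ∨ v = x2) ∧
    (p ∉ SpB a l c w → ∀ i < a + l + c + 5, ∀ v,
      ({p, v} : Finset (Lit n)) = bc a l c w i → v = x1) := by
  by_cases hA : ∃ j, p = w j
  · obtain ⟨⟨j, hj⟩, rfl⟩ := hA
    refine ⟨if j = 0 then w ⟨a + 1, by omega⟩ else neg (w ⟨j - 1, by omega⟩), w ⟨0, by omega⟩, ?_⟩
    have hmain : ∀ i < a + l + c + 5, ∀ v, ({w ⟨j, hj⟩, v} : Finset (Lit n)) = bc a l c w i →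
        v = (if j = 0 then w ⟨a + 1, by omega⟩ else neg (w ⟨j - 1, by omega⟩)) ∨
        (w ⟨j, hj⟩ = w ⟨a + 1, by omega⟩ ∧ v = w ⟨0, by omega⟩) := by
      intro i hi v h
      rcases cases hi h with ⟨h1, h2⟩ | ⟨h1, h2⟩ | ⟨j', hj', h1, h2⟩ | ⟨j', hj', h1, h2⟩ |
        ⟨h1, h2⟩ | ⟨h1, h2⟩
      · exact Or.inr ⟨h1, h2⟩
      · left
        have h3 := w_inj hw h1
        have h4 : j = 0 := by simpa using h3
        rw [if_pos h4, h2]
      · exact absurd h1 (w_ne hw _ _)
      · left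
        have h3 := w_inj hw h1
        have h4 : j = j' + 1 := by simpa using h3
        subst h4
        rw [if_neg (by omega), h2]
        rfl
      · exact absurd h1 (w_ne hw _ _)
      · exact absurd h1 (w_ne hw _ _)
    refine ⟨fun i hi v h => (hmain i hi v h).imp id fun h => h.2, fun hS i hi v h => ?_⟩
    rcases hmain i hi v h with h1 | ⟨h1, h2⟩
    · exact h1
    · exfalso
      apply hS
      unfold SpB
      rw [h1]
      simp
  · by_cases hB : ∃ j, p = neg (w j)
    · obtain ⟨⟨j, hj⟩, rfl⟩ := hB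
      refine ⟨if h : j + 1 < a + l + c + 4 then w ⟨j + 1, h⟩ else neg (w ⟨a + l + 2, by omega⟩),
        neg (w ⟨a + l + c + 3, by omega⟩), ?_⟩
      have hmain : ∀ i < a + l + c + 5, ∀ v,
          ({neg (w ⟨j, hj⟩), v} : Finset (Lit n)) = bc a l c w i →
          v = (if h : j + 1 < a + l + c + 4 then w ⟨j + 1, h⟩
            else neg (w ⟨a + l + 2, by omega⟩)) ∨
          (w ⟨j, hj⟩ = w ⟨a + l + 2, by omega⟩ ∧ v = neg (w ⟨a + l + c + 3, by omega⟩)) := by
        intro i hi v h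
        rcases cases hi h with ⟨h1, h2⟩ | ⟨h1, h2⟩ | ⟨j', hj', h1, h2⟩ | ⟨j', hj', h1, h2⟩ |
          ⟨h1, h2⟩ | ⟨h1, h2⟩
        · exact absurd h1.symm (w_ne hw _ _)
        · exact absurd h1.symm (w_ne hw _ _)
        · left
          have h3 := w_inj hw (neg_inj h1)
          have h4 : j = j' := by simpa using h3
          subst h4
          rw [dif_pos hj', h2]
        · exact absurd h1.symm (w_ne hw _ _)
        · left
          have h3 := w_inj hw (neg_inj h1)
          have h4 : j = a + l + c + 3 := by simpa using h3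
          subst h4
          rw [dif_neg (by omega), h2]
        · exact Or.inr ⟨neg_inj h1, h2⟩
      refine ⟨fun i hi v h => (hmain i hi v h).imp id fun h => h.2, fun hS i hi v h => ?_⟩
      rcases hmain i hi v h with h1 | ⟨h1, h2⟩
      · exact h1
      · exfalso
        apply hS
        unfold SpB
        rw [h1]
        simp
    · refine ⟨p, p, fun i hi v h => ?_, fun _ i hi v h => ?_⟩
      · obtain ⟨⟨j, h1 | h1⟩, -⟩ := form hi h
        · exact absurd ⟨j, h1⟩ hA
        · exact absurd ⟨j, h1⟩ hB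
      · obtain ⟨⟨j, h1 | h1⟩, -⟩ := form hi h
        · exact absurd ⟨j, h1⟩ hA
        · exact absurd ⟨j, h1⟩ hB

theorem SpB_neg (u : Lit n) : u ∈ SpB a l c w → neg u ∈ SpB a l c w := by
  unfold SpB
  simp only [Finset.mem_insert, Finset.mem_singleton]
  rintro (h | h | h | h)
  · rw [h]; simp
  · rw [h, neg_neg']; simp
  · rw [h]; simp
  · rw [h, neg_neg']; simp

theorem QB_neg (u : Lit n) : u ∈ QB a l c w → neg u ∈ QB a l c w := by
  unfold QB
  simp only [Finset.mem_filter, Finset.mem_univ, true_and]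
  rintro ⟨i, hi⟩
  exact ⟨i, hi⟩

theorem gB_symm {u v : Lit n} (h : gB a l c w u v) : gB a l c w (neg v) (neg u) := by
  obtain ⟨i, hi, h1⟩ := h
  refine ⟨i, hi, ?_⟩
  rw [neg_neg', Finset.pair_comm]
  exact h1

theorem out (hw : DV w) (u : Lit n) : (univ.filter (fun v => gB a l c w u v)).card ≤ 2 ∧
    (u ∉ SpB a l c w → (univ.filter (fun v => gB a l c w u v)).card ≤ 1) := by
  obtain ⟨x1, x2, h1, h2⟩ := key hw (neg u)
  constructor
  · have h3 : univ.filter (fun v => gB a l c w u v) ⊆ {x1, x2} := by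
      intro v hv
      rw [Finset.mem_filter] at hv
      obtain ⟨-, i, hi, h4⟩ := hv
      rw [Finset.mem_insert, Finset.mem_singleton]
      exact h1 i hi v h4
    exact (Finset.card_le_card h3).trans Finset.card_le_two
  · intro hu
    have hu' : neg u ∉ SpB a l c w := by
      intro h
      apply hu
      have := SpB_neg _ h
      rwa [neg_neg'] at this
    have h3 : univ.filter (fun v => gB a l c w u v) ⊆ {x1} := by
      intro v hv
      rw [Finset.mem_filter] at hv
      obtain ⟨-, i, hi, h4⟩ := hv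
      rw [Finset.mem_singleton]
      exact h2 hu' i hi v h4
    exact (Finset.card_le_card h3).trans (Finset.card_singleton _).le

theorem inn (v : Lit n) : (univ.filter (fun u => gB a l c w u v)).card ≤
    (univ.filter (fun u => gB a l c w (neg v) u)).card := by
  apply Finset.card_le_card_of_injOn neg
  · intro u hu
    rw [Finset.mem_coe, Finset.mem_filter] at hu ⊢
    exact ⟨Finset.mem_univ _, gB_symm hu.2⟩
  · intro x _ y _ hxy
    exact neg_inj hxy

end

end DEGaux

open DEGaux in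
theorem t_DEG : S_DEG := by
  intro n a l c w hw
  refine ⟨⟨fun u => (out hw u).1, fun v => (inn v).trans (out hw (neg v)).1,
    fun u hu => (out hw u).2 hu, fun v hv => (inn v).trans ((out hw (neg v)).2 ?_), ?_⟩,
    ?_, ?_, ?_, ?_⟩
  · intro h
    apply hv
    have := SpB_neg _ h
    rwa [neg_neg'] at this
  · rintro u v ⟨i, hi, h⟩
    obtain ⟨⟨j, h1⟩, ⟨j', h2⟩⟩ := form hi h
    unfold QB
    simp only [Finset.mem_filter, Finset.mem_univ, true_and]
    constructor
    · refine ⟨j, ?_⟩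
      have e : (neg u).1 = u.1 := rfl
      rw [← e]
      rcases h1 with h1 | h1
      · rw [h1]
      · rw [h1]; rfl
    · refine ⟨j', ?_⟩
      rcases h2 with h2 | h2
      · rw [h2]
      · rw [h2]; rfl
  · unfold SpB
    exact Finset.card_le_four
  · have h1 : QB a l c w ⊆ (univ : Finset (Fin (a + l + c + 4) × Bool)).image
        (fun q => (((w q.1).1, q.2) : Lit n)) := by
      intro u hu
      unfold QB at hu
      rw [Finset.mem_filter] at hu
      obtain ⟨-, i, hi⟩ := hu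
      rw [Finset.mem_image]
      exact ⟨(i, u.2), Finset.mem_univ _, by rw [hi]⟩
    refine (Finset.card_le_card h1).trans (Finset.card_image_le.trans ?_)
    rw [Finset.card_univ, Fintype.card_prod, Fintype.card_fin, Fintype.card_bool, mul_comm]
  · intro u
    refine ⟨SpB_neg u, fun h => ?_⟩
    have := SpB_neg _ h
    rwa [neg_neg'] at this
  · intro u
    refine ⟨QB_neg u, fun h => ?_⟩
    have := QB_neg _ h
    rwa [neg_neg'] at this

end

end Pool.Agent.H921K
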