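import Pool.Agent.H921K.Defs

set_option autoImplicit false

namespace Pool.Agent.H921K

open Finset Pool.Agent.H921S
open scoped Classical

noncomputable section

namespace DISTaux

variable {n : ℕ}

theorem neg_neg' (x : Lit n) : neg (neg x) = x := by
  unfold neg
  ext <;> simp

theorem neg_fst (x : Lit n) : (neg x).1 = x.1 := rfl

theorem ne_neg (x : Lit n) : x ≠ neg x := by
  intro h
  have := congrArg Prod.snd h
  unfold neg at this
  cases hx : x.2 <;> simp [hx] at this

theorem main (a l c : ℕ) (w : Fin (a + l + c + 4) → Lit n) (hw : DV w) :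
    Set.InjOn (bc a l c w) (Set.Iio (a + l + c + 5)) ∧
    ∀ i < a + l + c + 5, ∃ x y : Lit n, x.1 ≠ y.1 ∧ bc a l c w i = {x, y} := by
  obtain ⟨u, hu⟩ : ∃ u : ℕ → Lit n, ∀ j (h : j < a + l + c + 4), u j = w ⟨j, h⟩ :=
    ⟨fun j => if h : j < a + l + c + 4 then w ⟨j, h⟩ else w ⟨0, by omega⟩,
      fun j h => dif_pos h⟩
  have hd : ∀ j < a + l + c + 4, ∀ k < a + l + c + 4, (u j).1 = (u k).1 → j = k := by
    intro j hj k hk h
    rw [hu j hj, hu k hk] at h
    have := hw h
    exact Fin.mk.inj_iff.1 this
  have e1 : ∀ j < a + l + c + 4, ∀ k < a + l + c + 4, u j = u k → j = k :=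
    fun j hj k hk h => hd j hj k hk (congrArg Prod.fst h)
  have e2 : ∀ j < a + l + c + 4, ∀ k < a + l + c + 4, u j ≠ neg (u k) := by
    intro j hj k hk h
    have h0 := congrArg Prod.fst h
    have h1 := hd j hj k hk h0
    subst h1
    exact ne_neg _ h
  have e3 : ∀ j < a + l + c + 4, ∀ k < a + l + c + 4, neg (u j) = neg (u k) → j = k :=
    fun j hj k hk h => by
      have h0 := congrArg Prod.fst h
      exact hd j hj k hk h0
  have x0 : ex a l c w 0 = neg (u (a + 1)) := by
    rw [hu (a + 1) (by omega)]
    rfl
  have x1 : ∀ i, i < a + l + c + 4 → ex a l c w (i + 1) = u i := by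
    intro i hi
    unfold ex
    rw [if_neg (by omega), dif_pos (by omega), hu i hi]
    rfl
  have x2 : ex a l c w (a + l + c + 4 + 1) = neg (u (a + l + 2)) := by
    unfold ex
    rw [if_neg (by omega), dif_neg (by omega), hu (a + l + 2) (by omega)]
  have b0 : bc a l c w 0 = {u (a + 1), u 0} := by
    unfold bc
    rw [x0, neg_neg', x1 0 (by omega)]
  have b1 : ∀ i, i + 1 < a + l + c + 4 → bc a l c w (i + 1) = {neg (u i), u (i + 1)} := by
    intro i hi
    unfold bc
    rw [x1 i (by omega), x1 (i + 1) hi]
  have b2 : bc a l c w (a + l + c + 4) = {neg (u (a + l + c + 3)), neg (u (a + l + 2))} := by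
    unfold bc
    rw [x2]
    have := x1 (a + l + c + 3) (by omega)
    rw [this]
  have cases3 : ∀ i, i < a + l + c + 5 → i = 0 ∨ (∃ k, i = k + 1 ∧ k + 1 < a + l + c + 4) ∨
      i = a + l + c + 4 := by
    intro i hi
    rcases Nat.eq_zero_or_pos i with h | h
    · exact Or.inl h
    · by_cases h2 : i = a + l + c + 4
      · exact Or.inr (Or.inr h2)
      · exact Or.inr (Or.inl ⟨i - 1, by omega, by omega⟩)
  constructor
  · -- injectivity
    intro i hi j hj hij
    rw [Set.mem_Iio] at hi hj
    rcases cases3 i hi with rfl | ⟨k, rfl, hk⟩ | rfl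
    · rcases cases3 j hj with rfl | ⟨k', rfl, hk'⟩ | rfl
      · rfl
      · exfalso
        have hm : neg (u k') ∈ bc a l c w 0 := by rw [hij, b1 k' hk']; simp
        rw [b0, mem_insert, mem_singleton] at hm
        rcases hm with h | h
        · exact e2 _ (by omega) _ (by omega) h.symm
        · exact e2 _ (by omega) _ (by omega) h.symm
      · exfalso
        have hm : neg (u (a + l + 2)) ∈ bc a l c w 0 := by rw [hij, b2]; simp
        rw [b0, mem_insert, mem_singleton] at hm
        rcases hm with h | h
        · exact e2 _ (by omega) _ (by omega) h.symm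
        · exact e2 _ (by omega) _ (by omega) h.symm
    · rcases cases3 j hj with rfl | ⟨k', rfl, hk'⟩ | rfl
      · exfalso
        have hm : neg (u k) ∈ bc a l c w 0 := by rw [← hij, b1 k hk]; simp
        rw [b0, mem_insert, mem_singleton] at hm
        rcases hm with h | h
        · exact e2 _ (by omega) _ (by omega) h.symm
        · exact e2 _ (by omega) _ (by omega) h.symm
      · have hm : u (k + 1) ∈ bc a l c w (k' + 1) := by rw [← hij, b1 k hk]; simp
        rw [b1 k' hk', mem_insert, mem_singleton] at hm
        rcases hm with h | h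
        · exact absurd h (e2 _ hk _ (by omega))
        · exact e1 _ hk _ hk' h
      · exfalso
        have hm : u (k + 1) ∈ bc a l c w (a + l + c + 4) := by rw [← hij, b1 k hk]; simp
        rw [b2, mem_insert, mem_singleton] at hm
        rcases hm with h | h
        · exact e2 _ hk _ (by omega) h
        · exact e2 _ hk _ (by omega) h
    · rcases cases3 j hj with rfl | ⟨k', rfl, hk'⟩ | rfl
      · exfalso
        have hm : neg (u (a + l + 2)) ∈ bc a l c w 0 := by rw [← hij, b2]; simp
        rw [b0, mem_insert, mem_singleton] at hm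
        rcases hm with h | h
        · exact e2 _ (by omega) _ (by omega) h.symm
        · exact e2 _ (by omega) _ (by omega) h.symm
      · exfalso
        have hm : u (k' + 1) ∈ bc a l c w (a + l + c + 4) := by rw [hij, b1 k' hk']; simp
        rw [b2, mem_insert, mem_singleton] at hm
        rcases hm with h | h
        · exact e2 _ hk' _ (by omega) h
        · exact e2 _ hk' _ (by omega) h
      · rfl
  · intro i hi
    rcases cases3 i hi with rfl | ⟨k, rfl, hk⟩ | rfl
    · refine ⟨_, _, ?_, b0⟩
      intro h
      have := hd _ (by omega) _ (by omega) h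
      omega
    · refine ⟨_, _, ?_, b1 k hk⟩
      intro h
      rw [neg_fst] at h
      have := hd _ (by omega) _ (by omega) h
      omega
    · refine ⟨_, _, ?_, b2⟩
      intro h
      rw [neg_fst, neg_fst] at h
      have := hd _ (by omega) _ (by omega) h
      omega

theorem exists_clause (x y : Lit n) (h : x.1 ≠ y.1) : ∃ C : Clause 2 n, C.lits = {x, y} := by
  refine ⟨⟨{x, y}, ?_, ?_⟩, rfl⟩
  · exact card_pair fun e => h (congrArg Prod.fst e)
  · intro p hp q hq hpq
    rw [mem_insert, mem_singleton] at hp hq
    rcases hp with rfl | rfl <;> rcases hq with rfl | rfl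
    · rfl
    · exact absurd hpq h
    · exact absurd hpq.symm h
    · rfl

end DISTaux

theorem t_DIST : S_DIST := by
  intro n a l c w hw
  obtain ⟨h1, h2⟩ := DISTaux.main a l c w hw
  refine ⟨h1, ?_⟩
  have e : (BF a l c w).image Clause.lits = (range (a + l + c + 5)).image (bc a l c w) := by
    ext s
    rw [mem_image, mem_image]
    constructor
    · rintro ⟨C, hC, rfl⟩
      unfold BF at hC
      obtain ⟨i, hi, hCi⟩ := (mem_filter.1 hC).2
      exact ⟨i, mem_range.2 hi, hCi.symm⟩
    · rintro ⟨i, hi, rfl⟩
      obtain ⟨x, y, hxy, hb⟩ := h2 i (mem_range.1 hi)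
      obtain ⟨C, hC⟩ := DISTaux.exists_clause x y hxy
      refine ⟨C, ?_, by rw [hC, hb]⟩
      unfold BF
      rw [mem_filter]
      exact ⟨mem_univ _, i, mem_range.1 hi, by rw [hC, hb]⟩
  have e1 : ((BF a l c w).image Clause.lits).card = (BF a l c w).card :=
    card_image_of_injective _ fun _ _ h => Clause.ext h
  have e2 : ((range (a + l + c + 5)).image (bc a l c w)).card = a + l + c + 5 := by
    rw [card_image_of_injOn, card_range]
    intro i hi j hj hij
    rw [mem_coe, mem_range] at hi hj
    exact h1 (Set.mem_Iio.2 hi) (Set.mem_Iio.2 hj) hij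
  rw [← e1, e, e2]

end

end Pool.Agent.H921K
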