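import Pool.Agent.H921K.Defs
import Pool.Agent.H921S.CARD

set_option autoImplicit false

namespace Pool.Agent.H921K

open Finset Pool.Agent.H921S
open scoped Classical

noncomputable section

namespace E1aux

theorem exp_le {x : ℝ} (h0 : 0 ≤ x) (h1 : x ≤ 1 / 2) : Real.exp (-(2 * x)) ≤ 1 - x := by
  rw [Real.exp_neg]
  have h2 : 1 + 2 * x ≤ Real.exp (2 * x) := by
    have := Real.add_one_le_exp (2 * x)
    linarith
  have h3 : (0 : ℝ) < 1 + 2 * x := by linarith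
  calc (Real.exp (2 * x))⁻¹ ≤ (1 + 2 * x)⁻¹ := inv_anti₀ h3 h2
    _ ≤ 1 - x := by
        rw [inv_le_iff_one_le_mul₀ h3]
        nlinarith

/-- lower bounds for the two factors -/
theorem fac {S n m s : ℝ} (hS : 8 ≤ S) (hn : S ^ 3 ≤ n) (hm : (n - 1) * (S - 2) ≤ m * S)
    (hs : s ≤ 3 * S + 1) :
    S ^ 2 * (m - (s + 1)) ≥ (n - 1) * (S ^ 2 - 2 * S - 4) ∧ S ^ 2 * (n - s) ≥ n * (S ^ 2 - 4) := by
  have hS3 : S ^ 3 = S * S * S := by ring
  have hSS : 8 * S ≤ S * S := mul_le_mul_of_nonneg_right hS (by linarith)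
  constructor
  · have h1 : S * ((n - 1) * (S - 2)) ≤ S * (m * S) := mul_le_mul_of_nonneg_left hm (by linarith)
    have h2 : S ^ 2 * (s + 1) ≤ S ^ 2 * (3 * S + 2) :=
      mul_le_mul_of_nonneg_left (by linarith) (by positivity)
    have h3 : S ^ 2 * (3 * S + 2) ≤ 4 * (n - 1) := by
      nlinarith
    nlinarith
  · have h2 : S ^ 2 * s ≤ S ^ 2 * (3 * S + 1) :=
      mul_le_mul_of_nonneg_left (by linarith) (by positivity)
    nlinarith

theorem base {S n m s : ℝ} (hS : 8 ≤ S) (hn : S ^ 3 ≤ n) (hm : (n - 1) * (S - 2) ≤ m * S)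
    (hs : s ≤ 3 * S + 1) :
    0 < n - 1 ∧ 1 - 4 / S ≤ (m - (s + 1)) / (n - 1) ∧
      1 - 4 / S ≤ (n - s) * (m - (s + 1)) / (n * (n - 1)) := by
  obtain ⟨h1, h2⟩ := fac hS hn hm hs
  have hS0 : 0 < S := by linarith
  have hn1 : 0 < n - 1 := by
    have : (8 : ℝ) * 8 * 8 ≤ S ^ 3 := by
      have : (8 : ℝ) ^ 3 ≤ S ^ 3 := pow_le_pow_left₀ (by norm_num) hS 3
      linarith
    linarith
  have hn0 : 0 < n := by linarith
  have hSS : 8 * S ≤ S * S := mul_le_mul_of_nonneg_right hS hS0.le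
  have e1 : 1 - 4 / S = (S - 4) / S := by field_simp
  refine ⟨hn1, ?_, ?_⟩
  · rw [e1, div_le_div_iff₀ hS0 hn1]
    have h3 : S * ((S - 4) * (n - 1)) ≤ S * ((m - (s + 1)) * S) := by
      have h4 : (n - 1) * (S * (S - 4)) ≤ (n - 1) * (S ^ 2 - 2 * S - 4) :=
        mul_le_mul_of_nonneg_left (by nlinarith) hn1.le
      nlinarith
    exact le_of_mul_le_mul_left h3 hS0
  · rw [e1, div_le_div_iff₀ hS0 (by positivity)]
    have h5 : 0 ≤ n * (S ^ 2 - 4) := mul_nonneg hn0.le (by nlinarith)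
    have h6 : 0 ≤ (n - 1) * (S ^ 2 - 2 * S - 4) := mul_nonneg hn1.le (by nlinarith)
    have h7 : n * (S ^ 2 - 4) * ((n - 1) * (S ^ 2 - 2 * S - 4)) ≤
        S ^ 2 * (n - s) * (S ^ 2 * (m - (s + 1))) := mul_le_mul h2 h1 h6 (h5.trans h2)
    have h8 : (n * (n - 1)) * (S ^ 3 * (S - 4)) ≤
        (n * (n - 1)) * ((S ^ 2 - 4) * (S ^ 2 - 2 * S - 4)) := by
      apply mul_le_mul_of_nonneg_left _ (by positivity)
      have h9 : 0 ≤ 2 * S ^ 3 - 8 * S ^ 2 + 8 * S + 16 := by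
        have : 2 * S ^ 3 - 8 * S ^ 2 = 2 * S ^ 2 * (S - 4) := by ring
        have h10 : 0 ≤ 2 * S ^ 2 * (S - 4) := mul_nonneg (by positivity) (by linarith)
        linarith
      nlinarith
    have h11 : S ^ 3 * ((S - 4) * (n * (n - 1))) ≤ S ^ 3 * ((n - s) * (m - (s + 1)) * S) := by
      nlinarith
    exact le_of_mul_le_mul_left h11 (by positivity)

/-- one term -/
theorem term {S n m : ℝ} {s : ℕ} (hS : 8 ≤ S) (hn : S ^ 3 ≤ n)
    (hm : (n - 1) * (S - 2) ≤ m * S) (hs : (s : ℝ) ≤ 3 * S + 1) :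
    Real.exp (-32) / (4 * n) ≤
      (2 * (n - s)) ^ s * ((m - ((s : ℝ) + 1)) / (2 * (n * (n - 1)))) ^ (s + 1) := by
  obtain ⟨hn1, h1, h2⟩ := base hS hn hm hs
  have hS0 : 0 < S := by linarith
  have hn0 : 0 < n := by linarith
  have hx0 : (0 : ℝ) ≤ 4 / S := by positivity
  have hx1 : 4 / S ≤ 1 / 2 := by
    rw [div_le_iff₀ hS0]; linarith
  have e : (2 * (n - s)) ^ s * ((m - ((s : ℝ) + 1)) / (2 * (n * (n - 1)))) ^ (s + 1) =
      ((n - s) * (m - (s + 1)) / (n * (n - 1))) ^ s *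
        ((m - (s + 1)) / (n - 1) / (2 * n)) := by
    have hn1' : n - 1 ≠ 0 := hn1.ne'
    have e1 : 2 * (n - s) * ((m - ((s : ℝ) + 1)) / (2 * (n * (n - 1)))) =
        (n - s) * (m - (s + 1)) / (n * (n - 1)) := by
      field_simp
    have e2 : (m - ((s : ℝ) + 1)) / (2 * (n * (n - 1))) =
        (m - (s + 1)) / (n - 1) / (2 * n) := by
      field_simp
    rw [pow_succ, ← mul_assoc, ← mul_pow, e1, e2]
  rw [e]
  have h3 : Real.exp (-(2 * (4 / S))) ≤ (n - s) * (m - (s + 1)) / (n * (n - 1)) :=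
    (exp_le hx0 hx1).trans h2
  have h4 : Real.exp (-32) ≤ ((n - s) * (m - (s + 1)) / (n * (n - 1))) ^ s := by
    calc Real.exp (-32) ≤ Real.exp (-(2 * (4 / S))) ^ s := by
          rw [← Real.exp_nat_mul]
          apply Real.exp_le_exp.2
          have h5 : (s : ℝ) * (2 * (4 / S)) ≤ 32 := by
            have h6 : (s : ℝ) * (2 * (4 / S)) = 8 * s / S := by ring
            rw [h6, div_le_iff₀ hS0]
            linarith
          linarith
      _ ≤ _ := pow_le_pow_left₀ (Real.exp_pos _).le h3 s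
  have h5 : 1 / (4 * n) ≤ (m - (s + 1)) / (n - 1) / (2 * n) := by
    have h6 : 1 / 2 ≤ (m - (s + 1)) / (n - 1) := by linarith
    calc 1 / (4 * n) = 1 / 2 / (2 * n) := by field_simp; norm_num
      _ ≤ _ := by gcongr
  calc Real.exp (-32) / (4 * n) = Real.exp (-32) * (1 / (4 * n)) := by ring
    _ ≤ _ := mul_le_mul h4 h5 (by positivity) ((Real.exp_pos _).le.trans h4)

end E1aux

open E1aux

theorem t_E1 (h1 : S_SUBL) (h2 : S_CNTW) (h3 : S_DIST) : S_E1 := by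
  refine ⟨Real.exp (-32) / 32, by positivity, 8, ?_⟩
  intro n S m hA hS
  obtain ⟨-, a2, a3, a4, a5⟩ := hA
  have hSr : (8 : ℝ) ≤ S := by exact_mod_cast hS
  have hnr : (S : ℝ) ^ 3 ≤ n := by exact_mod_cast a2
  have hnr' : (n : ℝ) ≤ 8 * (S : ℝ) ^ 3 := by exact_mod_cast a3
  have hn1 : 1 ≤ n := by
    have : 1 ≤ S ^ 3 := Nat.one_le_pow _ _ (by omega)
    omega
  have hmr : ((n : ℝ) - 1) * ((S : ℝ) - 2) ≤ m * S := by
    have h4 : (((n - 1) * (S - 2) : ℕ) : ℝ) ≤ ((m * S : ℕ) : ℝ) := by exact_mod_cast a5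
    rw [Nat.cast_mul, Nat.cast_mul, Nat.cast_sub hn1, Nat.cast_sub (by omega : 2 ≤ S)] at h4
    exact_mod_cast h4
  have hmn : m ≤ n - 1 := by
    have h4 : m * S ≤ (n - 1) * S := a4.trans (Nat.mul_le_mul_left _ (Nat.sub_le _ _))
    exact Nat.le_of_mul_le_mul_right h4 (by omega)
  have hcard : Fintype.card (Clause 2 n) = 2 * (n * (n - 1)) := by
    have h4 := CARD_thm 2 n
    rw [h4, Nat.choose_two_right]
    have h5 : 2 ∣ n * (n - 1) := (Nat.even_mul_pred_self n).two_dvd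
    omega
  have hcardr : (Fintype.card (Clause 2 n) : ℝ) = 2 * ((n : ℝ) * (n - 1)) := by
    rw [hcard]
    push_cast [Nat.cast_sub hn1]
    ring
  have hmN : m ≤ Fintype.card (Clause 2 n) := by
    rw [hcard]
    calc m ≤ n - 1 := hmn
      _ ≤ n * (n - 1) := Nat.le_mul_of_pos_left _ hn1
      _ ≤ 2 * (n * (n - 1)) := by omega
  -- one triple
  have hterm : ∀ t : Fin S × Fin S × Fin S, Real.exp (-32) / (4 * n) ≤
      ∑ w : {w : Fin ((t.1 : ℕ) + (t.2.1 : ℕ) + (t.2.2 : ℕ) + 4) → Lit n // DV w},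
        avg (fun σ : OC n => ind (BB (⟨t, w⟩ : BI S n) ⊆ st σ m)) := by
    intro t
    set s : ℕ := (t.1 : ℕ) + (t.2.1 : ℕ) + (t.2.2 : ℕ) + 4 with hsdef
    have hsS : s ≤ 3 * S + 1 := by
      have := t.1.2; have := t.2.1.2; have := t.2.2.2
      omega
    have hsr : (s : ℝ) ≤ 3 * (S : ℝ) + 1 := by exact_mod_cast hsS
    obtain ⟨b1, b2, b3⟩ := base hSr hnr hmr hsr
    have hx1 : 4 / (S : ℝ) ≤ 1 / 2 := by
      rw [div_le_iff₀ (by linarith)]; linarith
    have hms : 0 < (m : ℝ) - ((s : ℝ) + 1) := by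
      have h5 : 0 < ((m : ℝ) - ((s : ℝ) + 1)) / ((n : ℝ) - 1) := by linarith
      exact (div_pos_iff_of_pos_right b1).1 h5
    have hsm : s + 1 ≤ m := by
      have : ((s + 1 : ℕ) : ℝ) < m := by push_cast; linarith
      exact_mod_cast this.le
    have hsn : s ≤ n := by omega
    have hw : ∀ w : {w : Fin ((t.1 : ℕ) + (t.2.1 : ℕ) + (t.2.2 : ℕ) + 4) → Lit n // DV w},
        (((m : ℝ) - ((s : ℝ) + 1)) / (2 * ((n : ℝ) * (n - 1)))) ^ (s + 1) ≤
          avg (fun σ : OC n => ind (BB (⟨t, w⟩ : BI S n) ⊆ st σ m)) := by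
      intro w
      have hc : (BB (⟨t, w⟩ : BI S n)).card = s + 1 :=
        (h3 n (t.1 : ℕ) (t.2.1 : ℕ) (t.2.2 : ℕ) w.1 w.2).2
      have h6 := h1 (Clause 2 n) (BB (⟨t, w⟩ : BI S n)) m (by rw [hc]; exact hsm) hmN
      rw [hc, hcardr] at h6
      push_cast at h6
      exact h6
    have hcw := (h2 n s hsn).1
    calc Real.exp (-32) / (4 * n)
        ≤ (2 * ((n : ℝ) - s)) ^ s *
          (((m : ℝ) - ((s : ℝ) + 1)) / (2 * ((n : ℝ) * (n - 1)))) ^ (s + 1) :=
          term hSr hnr hmr hsr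
      _ ≤ (Fintype.card {w : Fin s → Lit n // DV w} : ℝ) *
          (((m : ℝ) - ((s : ℝ) + 1)) / (2 * ((n : ℝ) * (n - 1)))) ^ (s + 1) := by
          apply mul_le_mul_of_nonneg_right hcw
          apply pow_nonneg
          apply div_nonneg hms.le
          have : (0 : ℝ) ≤ n := Nat.cast_nonneg n
          have := b1.le
          positivity
      _ = ∑ w : {w : Fin s → Lit n // DV w},
          (((m : ℝ) - ((s : ℝ) + 1)) / (2 * ((n : ℝ) * (n - 1)))) ^ (s + 1) := by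
          rw [Finset.sum_const, Finset.card_univ, nsmul_eq_mul]
      _ ≤ _ := Finset.sum_le_sum fun w _ => hw w
  have hsum : ∑ b : BI S n, avg (fun σ : OC n => ind (BB b ⊆ st σ m)) =
      ∑ t : Fin S × Fin S × Fin S,
        ∑ w : {w : Fin ((t.1 : ℕ) + (t.2.1 : ℕ) + (t.2.2 : ℕ) + 4) → Lit n // DV w},
          avg (fun σ : OC n => ind (BB (⟨t, w⟩ : BI S n) ⊆ st σ m)) := Fintype.sum_sigma _
  rw [hsum]
  have hn0 : (0 : ℝ) < n := by exact_mod_cast hn1
  calc Real.exp (-32) / 32 ≤ (S : ℝ) ^ 3 * (Real.exp (-32) / (4 * n)) := by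
        have h5 : (S : ℝ) ^ 3 * (Real.exp (-32) / (4 * n)) =
            (8 * (S : ℝ) ^ 3) * Real.exp (-32) / (32 * n) := by
          field_simp
          norm_num
        rw [h5, div_le_div_iff₀ (by norm_num) (by positivity)]
        have := Real.exp_pos (-32)
        nlinarith
    _ = ∑ _t : Fin S × Fin S × Fin S, Real.exp (-32) / (4 * (n : ℝ)) := by
        rw [Finset.sum_const, Finset.card_univ, nsmul_eq_mul]
        simp only [Fintype.card_prod, Fintype.card_fin]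
        push_cast
        ring
    _ ≤ _ := Finset.sum_le_sum fun t _ => hterm t

end

end Pool.Agent.H921K
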