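import Pool.Agent.H921K.Defs
import Pool.Agent.H921S.SUBS
import Pool.Agent.H921S.CARD

set_option autoImplicit false

namespace Pool.Agent.H921K

open Finset Pool.Agent.H921S
open scoped Classical

noncomputable section

namespace E2aux

lemma NN_eq (n : ℕ) : NN 2 n = 2 * (n : ℝ) * ((n : ℝ) - 1) := by
  unfold NN
  rw [CARD_thm 2 n]
  push_cast
  rw [Nat.cast_choose_two]
  ring

lemma facts {n S m : ℕ} (h : Adm n S m) : 64 ≤ n ∧ m ≤ n - 1 ∧ 3 * S + 1 ≤ n ∧
    (S : ℝ) ^ 3 ≤ n := by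
  obtain ⟨h1, h2, h3, h4, h5⟩ := h
  have h6 : 4 ^ 3 ≤ S ^ 3 := Nat.pow_le_pow_left h1 3
  have h7 : 3 * S + 1 ≤ S ^ 3 := by
    have : 4 * 4 * S ≤ S * S * S := Nat.mul_le_mul_right S (Nat.mul_le_mul h1 h1)
    have e : S ^ 3 = S * S * S := by ring
    omega
  refine ⟨by omega, ?_, by omega, by exact_mod_cast h2⟩
  have h8 : (n - 1) * (S - 1) ≤ (n - 1) * S := Nat.mul_le_mul_left _ (by omega)
  have h9 : m * S ≤ (n - 1) * S := h4.trans h8
  exact Nat.le_of_mul_le_mul_right h9 (by omega)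

lemma m_le {n S m : ℕ} (h : Adm n S m) : m ≤ Fintype.card (Clause 2 n) := by
  obtain ⟨h1, h2, h3, h4⟩ := facts h
  have h5 : (m : ℝ) ≤ NN 2 n := by
    rw [NN_eq]
    have h6 : (m : ℝ) ≤ (n : ℝ) - 1 := by
      have : m + 1 ≤ n := by omega
      have : (m : ℝ) + 1 ≤ n := by exact_mod_cast this
      linarith
    have h7 : (64 : ℝ) ≤ n := by exact_mod_cast h1
    nlinarith
  unfold NN at h5
  exact_mod_cast h5

lemma pp_bound {n S m : ℕ} (h : Adm n S m) : 0 ≤ pp n m ∧ 2 * (n : ℝ) * pp n m ≤ 1 := by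
  obtain ⟨h1, h2, h3, h4⟩ := facts h
  have h6 : (m : ℝ) ≤ (n : ℝ) - 1 := by
    have : m + 1 ≤ n := by omega
    have : (m : ℝ) + 1 ≤ n := by exact_mod_cast this
    linarith
  have h7 : (64 : ℝ) ≤ n := by exact_mod_cast h1
  have hN : 0 < NN 2 n := by rw [NN_eq]; nlinarith
  constructor
  · unfold pp; positivity
  · unfold pp
    rw [← mul_div_assoc, div_le_one hN, NN_eq]
    nlinarith

lemma card_union' {α : Type} [DecidableEq α] (A B : Finset α) :
    (A ∪ B).card = A.card + (B \ A).card := by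
  rw [← Finset.card_union_of_disjoint Finset.disjoint_sdiff, Finset.union_sdiff_self_eq_union]

lemma first (hw : S_CNTW) (hd : S_DIST) {n S m : ℕ} (h : Adm n S m) :
    ∑ b : BI S n, pp n m ^ (BB b).card ≤ 1 := by
  obtain ⟨h1, h2, h3, h4⟩ := facts h
  obtain ⟨hp0, hp1⟩ := pp_bound h
  have hn : (64 : ℝ) ≤ n := by exact_mod_cast h1
  rw [Fintype.sum_sigma]
  have key : ∀ t : Fin S × Fin S × Fin S,
      ∑ w : {w : Fin ((t.1 : ℕ) + (t.2.1 : ℕ) + (t.2.2 : ℕ) + 4) → Lit n // DV w},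
        pp n m ^ (BB (⟨t, w⟩ : BI S n)).card ≤ 1 / (2 * (n : ℝ)) := by
    intro t
    set s := (t.1 : ℕ) + (t.2.1 : ℕ) + (t.2.2 : ℕ) + 4 with hs
    have hsn : s ≤ n := by
      have e1 := t.1.isLt
      have e2 := t.2.1.isLt
      have e3 := t.2.2.isLt
      omega
    have hc : ∀ w : {w : Fin ((t.1 : ℕ) + (t.2.1 : ℕ) + (t.2.2 : ℕ) + 4) → Lit n // DV w},
        (BB (⟨t, w⟩ : BI S n)).card = s + 1 := by
      intro w
      exact (hd n _ _ _ w.1 w.2).2
    have e : ∑ w : {w : Fin ((t.1 : ℕ) + (t.2.1 : ℕ) + (t.2.2 : ℕ) + 4) → Lit n // DV w},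
        pp n m ^ (BB (⟨t, w⟩ : BI S n)).card =
        (Fintype.card {w : Fin s → Lit n // DV w} : ℝ) * pp n m ^ (s + 1) := by
      rw [Finset.sum_congr rfl (fun w _ => by rw [hc w]), Finset.sum_const, nsmul_eq_mul,
        Finset.card_univ]
    rw [e]
    have h5 := (hw n s hsn).2
    have h6 : (Fintype.card {w : Fin s → Lit n // DV w} : ℝ) * pp n m ^ (s + 1) ≤
        (2 * (n : ℝ)) ^ s * pp n m ^ (s + 1) :=
      mul_le_mul_of_nonneg_right h5 (pow_nonneg hp0 _)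
    have h7 : (2 * (n : ℝ)) ^ s * pp n m ^ (s + 1) = (2 * (n : ℝ) * pp n m) ^ s * pp n m := by
      rw [mul_pow, pow_succ]; ring
    have h8 : (2 * (n : ℝ) * pp n m) ^ s ≤ 1 := pow_le_one₀ (by positivity) hp1
    have h9 : pp n m ≤ 1 / (2 * (n : ℝ)) := by
      rw [le_div_iff₀ (by positivity)]; linarith
    calc _ ≤ _ := h6
      _ = _ := h7
      _ ≤ 1 * pp n m := mul_le_mul_of_nonneg_right h8 hp0
      _ = pp n m := one_mul _
      _ ≤ _ := h9
  refine (Finset.sum_le_sum fun t _ => key t).trans ?_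
  rw [Finset.sum_const, nsmul_eq_mul, Finset.card_univ]
  have hc : (Fintype.card (Fin S × Fin S × Fin S) : ℝ) = (S : ℝ) ^ 3 := by
    simp only [Fintype.card_prod, Fintype.card_fin]
    push_cast
    ring
  rw [hc, mul_one_div, div_le_one (by positivity)]
  linarith

end E2aux

open E2aux

theorem t_E2 (h1 : S_SUM2) (h2 : S_CNTW) (h3 : S_DIST) : S_E2 := by
  obtain ⟨C, hC⟩ := h1
  refine ⟨max C 1, lt_of_lt_of_le one_pos (le_max_right _ _), ?_⟩
  intro n S m hA
  obtain ⟨hp0, hp1⟩ := pp_bound hA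
  have hm := m_le hA
  have hC1 : (0 : ℝ) ≤ max C 1 := zero_le_one.trans (le_max_right _ _)
  have hb : ∀ b : BI S n, ∑ b' : BI S n,
      avg (fun σ : OC n => ind (BB b ∪ BB b' ⊆ st σ m)) ≤ pp n m ^ (BB b).card * max C 1 := by
    intro b
    have h4 : ∀ b' : BI S n, avg (fun σ : OC n => ind (BB b ∪ BB b' ⊆ st σ m)) ≤
        pp n m ^ (BB b).card * pp n m ^ (BB b' \ BB b).card := by
      intro b'
      have h5 := SUBS_thm (Clause 2 n) (BB b ∪ BB b') m hm
      rw [← pow_add]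
      have h6 : (BB b ∪ BB b').card = (BB b).card + (BB b' \ BB b).card := card_union' _ _
      rw [h6] at h5
      exact h5
    refine (Finset.sum_le_sum fun b' _ => h4 b').trans ?_
    rw [← Finset.mul_sum]
    exact mul_le_mul_of_nonneg_left ((hC n S m hA b).trans (le_max_left _ _)) (pow_nonneg hp0 _)
  refine (Finset.sum_le_sum fun b _ => hb b).trans ?_
  rw [← Finset.sum_mul]
  calc _ ≤ 1 * max C 1 := mul_le_mul_of_nonneg_right (first h2 h3 hA) hC1
    _ = _ := one_mul _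

end

end Pool.Agent.H921K
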