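import Pool.Agent.H921K.Defs

set_option autoImplicit false

namespace Pool.Agent.H921K

open Finset Pool.Agent.H921S
open scoped Classical

namespace EXTRaux

/-- simple paths -/
theorem simple {α : Type} (R : α → α → Prop) (x y : α) (h : Relation.ReflTransGen R x y) :
    ∃ (s : ℕ) (p : ℕ → α), p 0 = x ∧ p s = y ∧ (∀ i < s, R (p i) (p (i + 1))) ∧
      (∀ i ≤ s, ∀ j ≤ s, p i = p j → i = j) := by
  induction h with
  | refl =>
    refine ⟨0, fun _ => x, rfl, rfl, ?_, ?_⟩
    · intro i hi; omega
    · intro i hi j hj _; omega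
  | tail hab hbc ih =>
    rename_i b c
    obtain ⟨s, p, h0, hs, hst, hinj⟩ := ih
    by_cases hex : ∃ i, i ≤ s ∧ p i = c
    · obtain ⟨i, hi, hic⟩ := hex
      refine ⟨i, p, h0, hic, ?_, ?_⟩
      · intro k hk
        exact hst k (by omega)
      · intro k hk j hj
        exact hinj k (by omega) j (by omega)
    · push Not at hex
      refine ⟨s + 1, fun k => if k ≤ s then p k else c, ?_, ?_, ?_, ?_⟩
      · simp [h0]
      · simp
      · intro k hk
        by_cases hks : k < s
        · have h1 : k ≤ s := by omega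
          have h2 : k + 1 ≤ s := by omega
          simp only [h1, h2, if_true]
          exact hst k hks
        · have h1 : k = s := by omega
          subst h1
          have h2 : ¬ (k + 1 ≤ k) := by omega
          simp only [le_refl, if_true, h2, if_false]
          rw [hs]
          exact hbc
      · intro i hi j hj hij
        by_cases h1 : i ≤ s <;> by_cases h2 : j ≤ s
        · simp only [h1, h2, if_true] at hij
          exact hinj i h1 j h2 hij
        · simp only [h1, h2, if_true, if_false] at hij
          exact absurd hij (hex i h1)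
        · simp only [h1, h2, if_true, if_false] at hij
          exact absurd hij.symm (hex j h2)
        · omega

theorem eq_of_fst {n : ℕ} (T : Set (Lit n)) (hT : ∀ u ∈ T, neg u ∉ T) (u v : Lit n) (hu : u ∈ T)
    (hv : v ∈ T) (h : u.1 = v.1) : u = v := by
  obtain ⟨u1, u2⟩ := u
  obtain ⟨v1, v2⟩ := v
  simp only at h
  subst h
  cases u2 <;> cases v2
  · rfl
  · exact absurd hv (hT _ hu)
  · exact absurd hv (hT _ hu)
  · rfl

end EXTRaux

open EXTRaux in
theorem t_EXTR : S_EXTR := by
  intro n F x y T hT hx hy hxy hHas h1 h2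
  obtain ⟨s, z, hz0, hzs, hzst, hz⟩ := simple _ x y h1
  obtain ⟨r, q, hq0, hqr, hqst, hq⟩ := simple _ y x h2
  have hzT : ∀ i ≤ s, z i ∈ T := by
    intro i hi
    rcases Nat.eq_zero_or_pos i with h | h
    · subst h; rw [hz0]; exact hx
    · have := (hzst (i - 1) (by omega)).2.2
      rwa [Nat.sub_add_cancel h] at this
  have hqT : ∀ i ≤ r, q i ∈ T := by
    intro i hi
    rcases Nat.eq_zero_or_pos i with h | h
    · subst h; rw [hq0]; exact hy
    · have := (hqst (i - 1) (by omega)).2.2
      rwa [Nat.sub_add_cancel h] at this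
  have hs1 : 1 ≤ s := by
    by_contra h
    have : s = 0 := by omega
    subst this
    exact hxy (hz0.symm.trans hzs)
  have hr1 : 1 ≤ r := by
    by_contra h
    have : r = 0 := by omega
    subst this
    exact hxy (hqr.symm.trans hq0)
  -- first hit
  have hex1 : ∃ i, 1 ≤ i ∧ ∃ a ≤ s, q i = z a := ⟨r, hr1, 0, by omega, by rw [hqr, hz0]⟩
  obtain ⟨τ₁, ⟨hτ1, a, has, hqa⟩, hmin⟩ : ∃ i, (1 ≤ i ∧ ∃ a ≤ s, q i = z a) ∧
      ∀ j, j < i → ¬ (1 ≤ j ∧ ∃ a ≤ s, q j = z a) :=
    ⟨Nat.find hex1, Nat.find_spec hex1, fun j hj => Nat.find_min hex1 hj⟩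
  have hτr : τ₁ ≤ r := by
    by_contra h
    exact hmin r (by omega) ⟨hr1, 0, by omega, by rw [hqr, hz0]⟩
  have has' : a ≠ s := by
    intro h
    subst h
    rw [hzs, ← hq0] at hqa
    have := hq τ₁ hτr 0 (by omega) hqa
    omega
  have hqz1 : ∀ i, 1 ≤ i → i < τ₁ → ∀ j ≤ s, q i ≠ z j := by
    intro i hi1 hi2 j hj h
    exact hmin i hi2 ⟨hi1, j, hj, h⟩
  rcases Nat.eq_zero_or_pos a with ha0 | ha
  · -- type I
    left
    subst ha0
    have hZs : ∀ k, s ≤ k → (if k ≤ s then z k else q (k - s)) = q (k - s) := by
      intro k hk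
      by_cases h : k ≤ s
      · have : k = s := by omega
        subst this
        simp [hq0, hzs]
      · simp [h]
    refine ⟨s + τ₁, s, fun k => if k ≤ s then z k else q (k - s), hs1, by omega, ?_, ?_, ?_, ?_⟩
    · intro i hi j hj hij
      have hinT : ∀ i, i < s + τ₁ → (if i ≤ s then z i else q (i - s)) ∈ T := by
        intro i hi
        by_cases h : i ≤ s
        · simp only [h, if_true]; exact hzT i h
        · simp only [h, if_false]; exact hqT _ (by omega)
      have heq := eq_of_fst T hT _ _ (hinT i hi) (hinT j hj) hij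
      by_cases h1 : i ≤ s <;> by_cases h2 : j ≤ s
      · simp only [h1, h2, if_true] at heq
        exact hz i h1 j h2 heq
      · simp only [h1, h2, if_true, if_false] at heq
        exact absurd heq.symm (hqz1 (j - s) (by omega) (by omega) i h1)
      · simp only [h1, h2, if_true, if_false] at heq
        exact absurd heq (hqz1 (i - s) (by omega) (by omega) j h2)
      · simp only [h1, h2, if_false] at heq
        have := hq (i - s) (by omega) (j - s) (by omega) heq
        omega
    · intro i hi
      simp only
      by_cases h : i < s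
      · have e1 : i ≤ s := by omega
        have e2 : i + 1 ≤ s := by omega
        simp only [e1, e2, if_true]
        exact (hzst i h).1
      · rw [hZs i (by omega), hZs (i + 1) (by omega)]
        have e : i + 1 - s = (i - s) + 1 := by omega
        rw [e]
        exact (hqst (i - s) (by omega)).1
    · simp only
      rw [hZs (s + τ₁ - 1) (by omega)]
      have e : s + τ₁ - 1 - s = τ₁ - 1 := by omega
      rw [e]
      have h := (hqst (τ₁ - 1) (by omega)).1
      rw [Nat.sub_add_cancel hτ1, hqa] at h
      simpa using h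
    · simp only [Nat.zero_le, if_true, le_refl, hz0, hzs]
      exact hHas
  · -- type II
    right
    have hτr' : τ₁ < r := by
      rcases Nat.lt_or_ge τ₁ r with h | h
      · exact h
      · exfalso
        have : τ₁ = r := by omega
        rw [this, hqr, ← hz0] at hqa
        have := hz 0 (by omega) a has hqa
        omega
    -- last hit
    obtain ⟨τ₂, hτ2r, ⟨b, hbs, hqb⟩, hmax⟩ : ∃ i, i < r ∧ (∃ b ≤ s, q i = z b) ∧
        ∀ j, i < j → j < r → ¬ ∃ b ≤ s, q j = z b := by
      have hex2 : ∃ e, 1 ≤ e ∧ e ≤ r ∧ ∃ b ≤ s, q (r - e) = z b :=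
        ⟨r, hr1, le_rfl, s, le_rfl, by rw [Nat.sub_self, hq0, hzs]⟩
      obtain ⟨h1, h2, h3⟩ := Nat.find_spec hex2
      refine ⟨r - Nat.find hex2, by omega, h3, ?_⟩
      intro j hj1 hj2 hj3
      apply Nat.find_min hex2 (m := r - j) (by omega)
      refine ⟨by omega, by omega, ?_⟩
      rwa [show r - (r - j) = j by omega]
    have hb0 : b ≠ 0 := by
      intro h
      subst h
      rw [hz0, ← hqr] at hqb
      have := hq τ₂ (by omega) r le_rfl hqb
      omega
    have hττ : τ₁ ≤ τ₂ := by
      by_contra h
      exact hmax τ₁ (by omega) hτr' ⟨a, has, hqa⟩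
    have hqz2 : ∀ i, τ₂ < i → i < r → ∀ j ≤ s, q i ≠ z j := by
      intro i hi1 hi2 j hj h
      exact hmax i hi1 hi2 ⟨j, hj, h⟩
    obtain ⟨t, ht⟩ : ∃ t, t = r - τ₂ - 1 := ⟨_, rfl⟩
    obtain ⟨w, hw⟩ : ∃ w, w = s + τ₁ := ⟨_, rfl⟩
    obtain ⟨Z, hZ⟩ : ∃ Z : ℕ → Lit n, ∀ k, Z k =
        if k ≤ s then z k else if k < w then q (k - s) else q (τ₂ + 1 + (k - w)) := ⟨_, fun _ => rfl⟩
    have hZ1 : ∀ k, k ≤ s → Z k = z k := by
      intro k hk
      rw [hZ, if_pos hk]
    have hZ2 : ∀ k, s ≤ k → k < w → Z k = q (k - s) := by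
      intro k hk hkw
      by_cases h : k ≤ s
      · have : k = s := by omega
        subst this
        rw [hZ1 k le_rfl, Nat.sub_self, hq0, hzs]
      · rw [hZ, if_neg h, if_pos hkw]
    have hZ3 : ∀ k, w ≤ k → Z k = q (τ₂ + 1 + (k - w)) := by
      intro k hk
      rw [hZ, if_neg (by omega), if_neg (by omega)]
    have hinT : ∀ i, i < w + t → Z i ∈ T := by
      intro i hi
      by_cases h : i ≤ s
      · rw [hZ1 i h]; exact hzT i h
      · by_cases h' : i < w
        · rw [hZ2 i (by omega) h']; exact hqT _ (by omega)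
        · rw [hZ3 i (by omega)]; exact hqT _ (by omega)
    refine ⟨w, t, s, a, b, Z, ha, by omega, by omega, by omega, hbs, ?_, ?_, ?_, ?_, ?_, ?_, ?_⟩
    · intro i hi j hj hij
      have heq := eq_of_fst T hT _ _ (hinT i hi) (hinT j hj) hij
      by_cases h1 : i ≤ s
      · rw [hZ1 i h1] at heq
        by_cases h2 : j ≤ s
        · rw [hZ1 j h2] at heq
          exact hz i h1 j h2 heq
        · by_cases h3 : j < w
          · rw [hZ2 j (by omega) h3] at heq
            exact absurd heq.symm (hqz1 (j - s) (by omega) (by omega) i h1)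
          · rw [hZ3 j (by omega)] at heq
            exact absurd heq.symm (hqz2 _ (by omega) (by omega) i h1)
      · by_cases h1' : i < w
        · rw [hZ2 i (by omega) h1'] at heq
          by_cases h2 : j ≤ s
          · rw [hZ1 j h2] at heq
            exact absurd heq (hqz1 (i - s) (by omega) (by omega) j h2)
          · by_cases h3 : j < w
            · rw [hZ2 j (by omega) h3] at heq
              have := hq _ (by omega) _ (by omega) heq
              omega
            · rw [hZ3 j (by omega)] at heq
              have := hq _ (by omega) _ (by omega) heq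
              omega
        · rw [hZ3 i (by omega)] at heq
          by_cases h2 : j ≤ s
          · rw [hZ1 j h2] at heq
            exact absurd heq (hqz2 _ (by omega) (by omega) j h2)
          · by_cases h3 : j < w
            · rw [hZ2 j (by omega) h3] at heq
              have := hq _ (by omega) _ (by omega) heq
              omega
            · rw [hZ3 j (by omega)] at heq
              have := hq _ (by omega) _ (by omega) heq
              omega
    · intro i hi
      by_cases h : i < s
      · rw [hZ1 i (by omega), hZ1 (i + 1) (by omega)]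
        exact (hzst i h).1
      · rw [hZ2 i (by omega) (by omega), hZ2 (i + 1) (by omega) hi]
        have e : i + 1 - s = (i - s) + 1 := by omega
        rw [e]
        exact (hqst (i - s) (by omega)).1
    · rw [hZ2 (w - 1) (by omega) (by omega), hZ1 a has]
      have h := (hqst (τ₁ - 1) (by omega)).1
      rw [Nat.sub_add_cancel hτ1, hqa] at h
      have e : w - 1 - s = τ₁ - 1 := by omega
      rw [e]
      exact h
    · intro i hi1 hi2
      rw [hZ3 i hi1, hZ3 (i + 1) (by omega)]
      have e : τ₂ + 1 + (i + 1 - w) = τ₂ + 1 + (i - w) + 1 := by omega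
      rw [e]
      exact (hqst _ (by omega)).1
    · intro ht0
      rw [hZ1 b hbs, hZ1 0 (by omega)]
      have h := (hqst τ₂ hτ2r).1
      have e : τ₂ + 1 = r := by omega
      rw [e, hqb, hqr, ← hz0] at h
      exact h
    · intro ht0
      rw [hZ1 b hbs, hZ1 0 (by omega), hZ3 w le_rfl, hZ3 (w + t - 1) (by omega)]
      constructor
      · have h := (hqst τ₂ hτ2r).1
        rw [hqb] at h
        rw [Nat.sub_self, add_zero]
        exact h
      · have h := (hqst (τ₂ + 1 + (w + t - 1 - w)) (by omega)).1
        have e : τ₂ + 1 + (w + t - 1 - w) + 1 = r := by omega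
        rw [e, hqr, ← hz0] at h
        exact h
    · rw [hZ1 0 (by omega), hZ1 s le_rfl, hz0, hzs]
      exact hHas

end Pool.Agent.H921K
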