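import Pool.Agent.H921K.Defs

/-!
# FIN2: the theorem for `k = 2`
-/

set_option autoImplicit false

namespace Pool.Agent.H921K

open Finset Pool.Agent.H921S
open scoped Classical

namespace FIN2aux

variable {Ω : Type} [Fintype Ω] [DecidableEq Ω]

theorem avg_mono (f g : H921S.Ord Ω → ℝ) (h : ∀ σ, f σ ≤ g σ) : avg f ≤ avg g := by
  unfold avg
  exact div_le_div_of_nonneg_right (Finset.sum_le_sum fun σ _ => h σ) (by positivity)

theorem avg_sub (f g : H921S.Ord Ω → ℝ) : avg (fun σ => f σ - g σ) = avg f - avg g := by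
  unfold avg
  rw [Finset.sum_sub_distrib, sub_div]

theorem st_mono (σ : H921S.Ord Ω) {a b : ℕ} (h : a ≤ b) : st σ a ⊆ st σ b := by
  intro x hx
  unfold st at hx ⊢
  rw [Finset.mem_filter] at hx ⊢
  exact ⟨hx.1, lt_of_lt_of_le hx.2 h⟩

end FIN2aux

open FIN2aux in
theorem t_FIN2 (h1 : S_ULB) (h2 : S_VUB) : S_FIN2 := by
  obtain ⟨c, hc, S0, hU⟩ := h1
  obtain ⟨C, hC, hV⟩ := h2
  obtain ⟨S2, hS2⟩ := exists_nat_ge (2 * C / c)
  set S1 := max (max 4 S0) S2 with hS1
  have h4 : 4 ≤ S1 := le_trans (le_max_left _ _) (le_max_left _ _)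
  have hS0 : S0 ≤ S1 := le_trans (le_max_right _ _) (le_max_left _ _)
  have hS2' : S2 ≤ S1 := le_max_right _ _
  refine ⟨c / 2, by positivity, S1 ^ 3, ?_⟩
  intro n hn
  have hP : ∃ S, S1 ≤ S ∧ S ^ 3 ≤ n ∧ n < (S + 1) ^ 3 := by
    set P : ℕ → Prop := fun s => s ^ 3 ≤ n with hPdef
    have hb : S1 ≤ n := le_trans (Nat.le_self_pow (by norm_num) S1) hn
    refine ⟨Nat.findGreatest P n, Nat.le_findGreatest hb hn, ?_, ?_⟩
    · exact Nat.findGreatest_spec (P := P) hb hn
    · by_contra hlt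
      push Not at hlt
      have hle : Nat.findGreatest P n + 1 ≤ n :=
        le_trans (Nat.le_self_pow (by norm_num) _) hlt
      have := Nat.le_findGreatest (P := P) hle hlt
      omega
  obtain ⟨S, hSS1, hSn, hnS⟩ := hP
  have hS4 : 4 ≤ S := le_trans h4 hSS1
  set m := (n - 1) * (S - 1) / S with hm
  have hnS1 : S + 1 ≤ n := by
    refine le_trans ?_ hSn
    nlinarith
  have hadm : Adm n S m := by
    refine ⟨hS4, hSn, ?_, Nat.div_mul_le_self _ _, ?_⟩
    · have : (S + 1) ^ 3 ≤ (2 * S) ^ 3 := Nat.pow_le_pow_left (by omega) 3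
      have e : (2 * S) ^ 3 = 8 * S ^ 3 := by ring
      omega
    · have hl : (n - 1) * (S - 1) < m * S + S := by
        rw [hm]
        exact Nat.lt_div_mul_add (by omega)
      have e : (n - 1) * (S - 1) = (n - 1) * (S - 2) + (n - 1) := by
        obtain ⟨s, rfl⟩ : ∃ s, S = s + 2 := ⟨S - 2, by omega⟩
        rw [show s + 2 - 1 = s + 1 by omega, show s + 2 - 2 = s by omega]
        ring
      omega
  have hu := hU n S m hadm (le_trans hS0 hSS1)
  have hv := hV n S m hadm
  have hSpos : (0 : ℝ) < S := by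
    have : 0 < S := by omega
    exact_mod_cast this
  have hCS : C / S ≤ c / 2 := by
    have h5 : 2 * C / c ≤ S := le_trans hS2 (by exact_mod_cast le_trans hS2' hSS1)
    rw [div_le_iff₀ hc] at h5
    rw [div_le_iff₀ hSpos]
    linarith
  have hkey : avg (fun σ : OC n => ind (¬ Sat (st σ m)) - ind (HasUSS (st σ m))) ≤
      avg (fun σ : OC n => ind (∀ m, (∀ j < m, Sat (st σ j)) → ¬ HasUSS (st σ m))) := by
    refine avg_mono _ _ fun σ => ?_
    have h01 : ∀ P : Prop, 0 ≤ ind P ∧ ind P ≤ 1 := by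
      intro P
      unfold ind
      split_ifs <;> norm_num
    by_cases hs : Sat (st σ m)
    · have : ind (¬ Sat (st σ m)) = 0 := by
        unfold ind
        rw [if_neg (not_not.2 hs)]
      rw [this]
      linarith [(h01 (HasUSS (st σ m))).1,
        (h01 (∀ m, (∀ j < m, Sat (st σ j)) → ¬ HasUSS (st σ m))).1]
    · by_cases hh : HasUSS (st σ m)
      · have e1 : ind (HasUSS (st σ m)) = 1 := by
          unfold ind
          rw [if_pos hh]
        rw [e1]
        linarith [(h01 (¬ Sat (st σ m))).2,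
          (h01 (∀ m, (∀ j < m, Sat (st σ j)) → ¬ HasUSS (st σ m))).1]
      · have hev : ∀ m, (∀ j < m, Sat (st σ j)) → ¬ HasUSS (st σ m) := by
          intro m' hj hu'
          have hle : m' ≤ m := by
            by_contra hlt
            exact hs (hj m (by omega))
          obtain ⟨H, hH, hH2⟩ := hu'
          exact hh ⟨H, hH.trans (st_mono σ hle), hH2⟩
        have e1 : ind (∀ m, (∀ j < m, Sat (st σ j)) → ¬ HasUSS (st σ m)) = 1 := by
          unfold ind
          rw [if_pos hev]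
        rw [e1]
        linarith [(h01 (¬ Sat (st σ m))).2, (h01 (HasUSS (st σ m))).1]
  rw [avg_sub] at hkey
  linarith

end Pool.Agent.H921K
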