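import Pool.Agent.H921K.Defs

/-!
# G1: number of `g`-paths with fixed start (helper911)
-/

set_option autoImplicit false

namespace Pool.Agent.H921K

open Finset Pool.Agent.H921S
open scoped Classical

noncomputable section

namespace G1aux

variable {V : Type} [Fintype V]

/-- `g`-paths with `t` steps starting at `u`, avoiding `A` -/
def NA (g : V → V → Prop) (t : ℕ) (u : V) (A : Finset V) : Finset (Fin (t + 1) → V) :=
  univ.filter (fun f : Fin (t + 1) → V => Function.Injective f ∧ f 0 = u ∧
    (∀ i : Fin t, g (f i.castSucc) (f i.succ)) ∧ ∀ i, f i ∉ A)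

theorem main (g : V → V → Prop) (Sp : Finset V)
    (h2 : ∀ u, (univ.filter (fun v => g u v)).card ≤ 2)
    (h1 : ∀ u, u ∉ Sp → (univ.filter (fun v => g u v)).card ≤ 1) :
    ∀ (t : ℕ) (u : V) (A : Finset V), u ∉ A → (NA g t u A).card ≤ 2 ^ (Sp \ A).card := by
  intro t
  induction t with
  | zero =>
    intro u A hu
    refine le_trans ?_ (Nat.one_le_two_pow)
    rw [Finset.card_le_one]
    intro f hf f' hf'
    have a := (Finset.mem_filter.1 hf).2.2.1
    have b := (Finset.mem_filter.1 hf').2.2.1
    funext i
    have hi : i = 0 := Fin.ext (by omega)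
    rw [hi, a, b]
  | succ t ih =>
    intro u A hu
    have hsub : ((NA g (t + 1) u A).image fun f : Fin (t + 1 + 1) → V => fun i : Fin (t + 1) =>
        f i.succ) ⊆ (univ.filter (fun v => g u v)).biUnion fun v =>
          if v ∈ insert u A then ∅ else NA g t v (insert u A) := by
      intro f' hf'
      obtain ⟨f, hf, rfl⟩ := Finset.mem_image.1 hf'
      obtain ⟨-, hinj, h0, hst, hav⟩ := Finset.mem_filter.1 hf
      rw [Finset.mem_biUnion]
      have hne : ∀ i : Fin (t + 1), f i.succ ∉ insert u A := by
        intro i hi
        rcases Finset.mem_insert.1 hi with hi | hi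
        · rw [← h0] at hi
          exact Fin.succ_ne_zero i (hinj hi)
        · exact hav _ hi
      refine ⟨f (Fin.succ 0), ?_, ?_⟩
      · rw [Finset.mem_filter]
        refine ⟨Finset.mem_univ _, ?_⟩
        have := hst 0
        rwa [Fin.castSucc_zero, h0] at this
      · rw [if_neg (hne 0)]
        refine Finset.mem_filter.2 ⟨Finset.mem_univ _, ?_, rfl, ?_, hne⟩
        · intro i j hij
          exact Fin.succ_injective _ (hinj hij)
        · intro i
          have := hst i.succ
          rwa [Fin.castSucc_succ] at this
    have hcard : (NA g (t + 1) u A).card = ((NA g (t + 1) u A).image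
        fun f : Fin (t + 1 + 1) → V => fun i : Fin (t + 1) => f i.succ).card := by
      rw [Finset.card_image_of_injOn]
      intro f hf f' hf' hff
      have a := (Finset.mem_filter.1 hf).2.2.1
      have b := (Finset.mem_filter.1 hf').2.2.1
      funext i
      refine Fin.cases ?_ (fun j => ?_) i
      · rw [a, b]
      · exact congrFun hff j
    rw [hcard]
    refine (Finset.card_le_card hsub).trans (Finset.card_biUnion_le.trans ?_)
    have hb : ∀ v ∈ univ.filter (fun v => g u v),
        (if v ∈ insert u A then (∅ : Finset (Fin (t + 1) → V)) else NA g t v (insert u A)).card ≤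
          2 ^ (Sp \ insert u A).card := by
      intro v _
      split_ifs with hv
      · simp
      · exact ih v _ hv
    refine (Finset.sum_le_card_nsmul _ _ _ hb).trans ?_
    rw [smul_eq_mul]
    by_cases hS : u ∈ Sp
    · have e : (Sp \ A).card = (Sp \ insert u A).card + 1 := by
        have h3 : Sp \ insert u A = (Sp \ A).erase u := by
          ext v
          simp only [Finset.mem_sdiff, Finset.mem_insert, Finset.mem_erase]
          tauto
        rw [h3, Finset.card_erase_add_one (Finset.mem_sdiff.2 ⟨hS, hu⟩)]
      rw [e, pow_succ, mul_comm (2 ^ _) 2]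
      exact Nat.mul_le_mul_right _ (h2 u)
    · have e : (Sp \ insert u A).card ≤ (Sp \ A).card :=
        Finset.card_le_card (Finset.sdiff_subset_sdiff le_rfl (Finset.subset_insert _ _))
      calc (univ.filter (fun v => g u v)).card * 2 ^ (Sp \ insert u A).card
          ≤ 1 * 2 ^ (Sp \ A).card :=
            Nat.mul_le_mul (h1 u hS) (Nat.pow_le_pow_right (by norm_num) e)
        _ = _ := one_mul _

end G1aux

theorem t_G1 : S_G1 := by
  intro V _ g Sp h2 h1 t u
  have h := G1aux.main g Sp h2 h1 t u ∅ (Finset.notMem_empty _)
  rw [Finset.sdiff_empty] at h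
  refine le_trans (Finset.card_le_card ?_) h
  intro f hf
  obtain ⟨-, a, b, c⟩ := Finset.mem_filter.1 hf
  exact Finset.mem_filter.2 ⟨Finset.mem_univ _, a, b, c, fun i => Finset.notMem_empty _⟩

end

end Pool.Agent.H921K
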