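import Pool.Agent.H921K.Defs

/-! G2: the number of `g`-paths with fixed ends, all lengths. -/

set_option autoImplicit false

namespace Pool.Agent.H921K

open Finset Pool.Agent.H921S
open scoped Classical

namespace G2aux

variable {V : Type} [Fintype V]

/-- number of `g`-paths with `t` steps from `u` to `v` avoiding `A` -/
noncomputable def SA (g : V → V → Prop) (A : Finset V) (t : ℕ) (u v : V) :
    Finset (Fin (t + 1) → V) :=
  univ.filter (fun f : Fin (t + 1) → V => Function.Injective f ∧ f 0 = u ∧ f (Fin.last t) = v ∧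
    (∀ i : Fin t, g (f i.castSucc) (f i.succ)) ∧ ∀ i, f i ∉ A)

theorem mem_SA {g : V → V → Prop} {A : Finset V} {t : ℕ} {u v : V} {f : Fin (t + 1) → V} :
    f ∈ SA g A t u v ↔ Function.Injective f ∧ f 0 = u ∧ f (Fin.last t) = v ∧
    (∀ i : Fin t, g (f i.castSucc) (f i.succ)) ∧ ∀ i, f i ∉ A := by
  unfold SA
  rw [mem_filter]
  exact ⟨fun h => h.2, fun h => ⟨mem_univ _, h⟩⟩

theorem SA_self_succ (g : V → V → Prop) (A : Finset V) (t : ℕ) (u : V) :
    SA g A (t + 1) u u = ∅ := by
  rw [Finset.eq_empty_iff_forall_notMem]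
  intro f hf
  rw [mem_SA] at hf
  obtain ⟨hinj, h0, hl, -⟩ := hf
  have h1 := hinj (h0.trans hl.symm)
  exact absurd h1 (by rw [Fin.ext_iff]; simp)

theorem SA_zero_card (g : V → V → Prop) (A : Finset V) (u v : V) :
    (SA g A 0 u v).card ≤ 1 := by
  rw [Finset.card_le_one]
  intro f hf f' hf'
  rw [mem_SA] at hf hf'
  funext i
  have hi : i = 0 := by
    apply Fin.ext
    have := i.isLt
    have h0 : ((0 : Fin (0 + 1)) : ℕ) = 0 := rfl
    omega
  rw [hi, hf.2.1, hf'.2.1]

theorem SA_zero_ne (g : V → V → Prop) (A : Finset V) {u v : V} (h : u ≠ v) :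
    SA g A 0 u v = ∅ := by
  rw [Finset.eq_empty_iff_forall_notMem]
  intro f hf
  rw [mem_SA] at hf
  obtain ⟨-, h0, hl, -⟩ := hf
  exact h (h0.symm.trans hl)

theorem SA_succ_card (g : V → V → Prop) (A : Finset V) (t : ℕ) (u v : V) :
    (SA g A (t + 1) u v).card ≤
      ∑ v' ∈ univ.filter (fun v' => g u v' ∧ v' ∉ insert u A),
        (SA g (insert u A) t v' v).card := by
  refine le_trans ?_ card_biUnion_le
  refine card_le_card_of_injOn (fun f => fun i => f (Fin.succ i)) ?_ ?_
  · intro f hf
    rw [Finset.mem_coe, mem_SA] at hf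
    obtain ⟨hinj, h0, hl, hs, hA⟩ := hf
    rw [Finset.mem_coe, mem_biUnion]
    have hnot : ∀ i : Fin (t + 1), f i.succ ∉ insert u A := by
      intro i
      rw [mem_insert, not_or]
      refine ⟨?_, hA _⟩
      intro h
      rw [← h0] at h
      exact absurd (hinj h) (Fin.succ_ne_zero i)
    refine ⟨f (Fin.succ 0), ?_, ?_⟩
    · rw [mem_filter]
      refine ⟨mem_univ _, ?_, hnot 0⟩
      have := hs 0
      rw [Fin.castSucc_zero, h0] at this
      exact this
    · rw [mem_SA]
      refine ⟨?_, rfl, ?_, ?_, hnot⟩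
      · intro i j hij
        exact Fin.succ_injective _ (hinj hij)
      · show f (Fin.last t).succ = v
        rw [Fin.succ_last]
        exact hl
      · intro i
        have := hs i.succ
        rw [← Fin.succ_castSucc] at this
        exact this
  · intro f hf f' hf' hff
    rw [Finset.mem_coe, mem_SA] at hf hf'
    funext i
    refine Fin.cases ?_ (fun j => ?_) i
    · rw [hf.2.1, hf'.2.1]
    · exact congrFun hff j

theorem main_ind (g : V → V → Prop) (Sp : Finset V)
    (h2 : ∀ u, (univ.filter (fun v => g u v)).card ≤ 2)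
    (h1 : ∀ u, u ∉ Sp → (univ.filter (fun v => g u v)).card ≤ 1) (v : V) :
    ∀ (L : ℕ) (A : Finset V) (u : V), u ∉ A →
      ∑ t ∈ range L, (SA g A t u v).card ≤ 2 ^ (Sp \ A).card := by
  intro L
  induction L with
  | zero => intro A u _; simp
  | succ L ih =>
    intro A u hu
    rw [sum_range_succ']
    by_cases huv : u = v
    · subst huv
      have e1 : ∑ t ∈ range L, (SA g A (t + 1) u u).card = 0 :=
        Finset.sum_eq_zero fun t _ => by rw [SA_self_succ, card_empty]
      rw [e1, zero_add]
      exact (SA_zero_card g A u u).trans Nat.one_le_two_pow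
    · rw [SA_zero_ne g A huv, card_empty, add_zero]
      set N := univ.filter (fun v' => g u v' ∧ v' ∉ insert u A) with hN
      have hNle : N.card ≤ (univ.filter (fun v => g u v)).card := by
        refine card_le_card ?_
        intro x hx
        rw [hN, mem_filter] at hx
        rw [mem_filter]
        exact ⟨mem_univ _, hx.2.1⟩
      have e2 : ∑ t ∈ range L, (SA g A (t + 1) u v).card ≤
          N.card * 2 ^ (Sp \ insert u A).card := by
        calc ∑ t ∈ range L, (SA g A (t + 1) u v).card
            ≤ ∑ t ∈ range L, ∑ v' ∈ N, (SA g (insert u A) t v' v).card :=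
              Finset.sum_le_sum fun t _ => SA_succ_card g A t u v
          _ = ∑ v' ∈ N, ∑ t ∈ range L, (SA g (insert u A) t v' v).card := Finset.sum_comm
          _ ≤ ∑ v' ∈ N, 2 ^ (Sp \ insert u A).card := by
              refine Finset.sum_le_sum fun v' hv' => ?_
              rw [hN, mem_filter] at hv'
              exact ih (insert u A) v' hv'.2.2
          _ = N.card * 2 ^ (Sp \ insert u A).card := by
              rw [Finset.sum_const, smul_eq_mul]
      refine e2.trans ?_
      by_cases huS : u ∈ Sp
      · have hmem : u ∈ Sp \ A := mem_sdiff.mpr ⟨huS, hu⟩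
        have e3 : Sp \ insert u A = (Sp \ A).erase u := by
          ext x
          simp only [mem_sdiff, mem_insert, mem_erase, not_or]
          tauto
        have e4 : (Sp \ insert u A).card + 1 = (Sp \ A).card := by
          rw [e3, card_erase_add_one hmem]
        rw [← e4, pow_succ, mul_comm]
        exact Nat.mul_le_mul_left _ (hNle.trans (h2 u))
      · have e5 : (Sp \ insert u A).card ≤ (Sp \ A).card := by
          refine card_le_card ?_
          intro x hx
          rw [mem_sdiff, mem_insert, not_or] at hx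
          rw [mem_sdiff]
          exact ⟨hx.1, hx.2.2⟩
        calc N.card * 2 ^ (Sp \ insert u A).card ≤ 1 * 2 ^ (Sp \ insert u A).card :=
              Nat.mul_le_mul_right _ (hNle.trans (h1 u huS))
          _ = 2 ^ (Sp \ insert u A).card := one_mul _
          _ ≤ 2 ^ (Sp \ A).card := Nat.pow_le_pow_right (by norm_num) e5

end G2aux

open G2aux in
theorem t_G2 : S_G2 := by
  intro V _ g Sp h2 h1 L u v
  have h := main_ind g Sp h2 h1 v L ∅ u (Finset.notMem_empty u)
  rw [Finset.sdiff_empty] at h
  refine le_trans (Finset.sum_le_sum fun t _ => ?_) h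
  unfold NK
  refine card_le_card ?_
  intro f hf
  rw [mem_filter] at hf
  rw [mem_SA]
  exact ⟨hf.2.1, hf.2.2.1, hf.2.2.2.1, hf.2.2.2.2, fun i => Finset.notMem_empty _⟩

end Pool.Agent.H921K
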