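import Pool.Agent.H921K.Defs

set_option autoImplicit false

namespace Pool.Agent.H921K

open Finset Pool.Agent.H921S
open scoped Classical

noncomputable section

namespace G3aux

variable {V : Type} [Fintype V]

theorem PS_nonneg (g : V → V → Prop) {p : ℝ} (hp : 0 ≤ p) (t : ℕ) (u v : V) :
    0 ≤ PS g p t u v := by
  unfold PS
  refine Finset.sum_nonneg fun f _ => Finset.prod_nonneg fun i _ => ?_
  unfold wt
  split_ifs
  · exact zero_le_one
  · exact hp

theorem sum_NK (g : V → V → Prop) (t : ℕ) (u : V) : ∑ v, NK g t u v = NG g t u := by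
  unfold NK NG
  rw [Finset.card_eq_sum_card_fiberwise (f := fun f : Fin (t + 1) → V => f (Fin.last t))
    (t := univ) (fun _ _ => mem_univ _)]
  refine Finset.sum_congr rfl fun v _ => ?_
  rw [Finset.filter_filter]
  congr 1
  ext f
  simp only [mem_filter, mem_univ, true_and]
  tauto

theorem NG_zero_le (g : V → V → Prop) (u : V) : NG g 0 u ≤ 1 := by
  unfold NG
  rw [Finset.card_le_one]
  intro a ha b hb
  simp only [mem_filter, mem_univ, true_and] at ha hb
  funext i
  obtain ⟨i, hi⟩ := i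
  have hi0 : i = 0 := by omega
  subst hi0
  exact ha.2.1.trans hb.2.1.symm

theorem NG_out (g : V → V → Prop) (Q : Finset V) (hQ : ∀ u v, g u v → u ∈ Q ∧ v ∈ Q) (t : ℕ)
    (u : V) (hu : u ∉ Q) : NG g (t + 1) u = 0 := by
  unfold NG
  rw [Finset.card_eq_zero, Finset.filter_eq_empty_iff]
  rintro f _ ⟨_, h0, hg⟩
  apply hu
  have h1 := (hQ _ _ (hg 0)).1
  rw [Fin.castSucc_zero, h0] at h1
  exact h1

theorem sum_NG (g : V → V → Prop) (Sp Q : Finset V) (hQ : ∀ u v, g u v → u ∈ Q ∧ v ∈ Q)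
    (h : ∀ (t : ℕ) (u : V), NG g t u ≤ 2 ^ Sp.card) (t : ℕ) :
    ∑ u, (NG g (t + 1) u : ℝ) ≤ 2 ^ Sp.card * Q.card := by
  have h1 : ∑ u, (NG g (t + 1) u : ℝ) = ∑ u ∈ Q, (NG g (t + 1) u : ℝ) := by
    symm
    refine Finset.sum_subset (Finset.subset_univ _) fun u _ hu => ?_
    rw [NG_out g Q hQ t u hu, Nat.cast_zero]
  rw [h1]
  have h2 : ∀ u ∈ Q, (NG g (t + 1) u : ℝ) ≤ 2 ^ Sp.card := fun u _ => by
    exact_mod_cast h (t + 1) u
  refine (Finset.sum_le_sum h2).trans ?_
  rw [Finset.sum_const, nsmul_eq_mul, mul_comm]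

theorem sum_NG_zero (g : V → V → Prop) : ∑ u, (NG g 0 u : ℝ) ≤ Fintype.card V := by
  have h2 : ∀ u ∈ (univ : Finset V), (NG g 0 u : ℝ) ≤ 1 := fun u _ => by
    exact_mod_cast NG_zero_le g u
  refine (Finset.sum_le_sum h2).trans ?_
  rw [Finset.sum_const, nsmul_eq_mul, mul_one, Finset.card_univ]

/-- the recursion -/
theorem rec_le (hGA : S_GA) (g : V → V → Prop) (p : ℝ) (hp : 0 ≤ p) (t : ℕ) :
    ∑ u : V, ∑ v : V, PS g p t u v ≤ ∑ u, (NG g t u : ℝ) +
      ∑ i ∈ range t, (∑ u, (NG g i u : ℝ)) * p * ∑ u : V, ∑ v : V, PS g p (t - 1 - i) u v := by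
  have h1 : ∀ u ∈ (univ : Finset V), ∑ v : V, PS g p t u v ≤ (NG g t u : ℝ) +
      ∑ i ∈ range t, (NG g i u : ℝ) * p * ∑ u' : V, ∑ v : V, PS g p (t - 1 - i) u' v := by
    intro u _
    refine (Finset.sum_le_sum fun v _ => (hGA V g p hp).1 t u v).trans ?_
    rw [Finset.sum_add_distrib, Finset.sum_comm]
    refine add_le_add ?_ (le_of_eq ?_)
    · rw [← sum_NK g t u, Nat.cast_sum]
    · refine Finset.sum_congr rfl fun i _ => ?_
      rw [← Finset.mul_sum]
      congr 1
      exact Finset.sum_comm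
  refine (Finset.sum_le_sum h1).trans (le_of_eq ?_)
  rw [Finset.sum_add_distrib, Finset.sum_comm]
  congr 1
  refine Finset.sum_congr rfl fun i _ => ?_
  rw [← Finset.sum_mul, ← Finset.sum_mul]

/-- the solution of the recursion -/
theorem sol (T A : ℕ → ℝ) (N D p L : ℝ) (M : ℕ) (hM : (M : ℝ) ≤ L) (hN : 0 < N) (hD : 0 ≤ D)
    (hp : 0 ≤ p) (hpN : p * N ≤ 1) (hL : 0 ≤ L)
    (hT : ∀ t, 0 ≤ T t) (hA0 : A 0 ≤ N) (hA : ∀ t, A (t + 1) ≤ D)
    (hrec : ∀ t, T t ≤ A t + ∑ i ∈ range t, A i * p * T (t - 1 - i)) :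
    ∀ t ≤ M, T t ≤ N * (1 + D * L / N) ^ t := by
  intro t
  have hx : 0 ≤ D * L / N := by positivity
  have hq : 1 ≤ 1 + D * L / N := by linarith
  induction t using Nat.strong_induction_on with
  | _ t ih =>
    intro ht
    rcases t with _ | s
    · have h1 := hrec 0
      rw [Finset.sum_range_zero, add_zero] at h1
      rw [pow_zero, mul_one]
      exact h1.trans hA0
    · have h1 := hrec (s + 1)
      rw [Finset.sum_range_succ'] at h1
      have hqs : 1 ≤ (1 + D * L / N) ^ s := one_le_pow₀ hq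
      have hT' : ∀ j ≤ s, p * T j ≤ (1 + D * L / N) ^ s := by
        intro j hj
        have h2 := ih j (by omega) (by omega)
        have h3 : (1 + D * L / N) ^ j ≤ (1 + D * L / N) ^ s := pow_le_pow_right₀ hq hj
        calc p * T j ≤ p * (N * (1 + D * L / N) ^ j) := mul_le_mul_of_nonneg_left h2 hp
          _ = (p * N) * (1 + D * L / N) ^ j := by ring
          _ ≤ 1 * (1 + D * L / N) ^ j := mul_le_mul_of_nonneg_right hpN (by positivity)
          _ ≤ _ := by rw [one_mul]; exact h3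
      have h4 : ∑ i ∈ range s, A (i + 1) * p * T (s + 1 - 1 - (i + 1)) ≤
          ∑ i ∈ range s, D * (1 + D * L / N) ^ s := by
        refine Finset.sum_le_sum fun i _ => ?_
        have h5 := hT' (s + 1 - 1 - (i + 1)) (by omega)
        have h6 : 0 ≤ p * T (s + 1 - 1 - (i + 1)) := mul_nonneg hp (hT _)
        calc A (i + 1) * p * T (s + 1 - 1 - (i + 1))
            = A (i + 1) * (p * T (s + 1 - 1 - (i + 1))) := by ring
          _ ≤ D * (p * T (s + 1 - 1 - (i + 1))) := mul_le_mul_of_nonneg_right (hA i) h6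
          _ ≤ D * (1 + D * L / N) ^ s := mul_le_mul_of_nonneg_left h5 hD
      rw [Finset.sum_const, Finset.card_range, nsmul_eq_mul] at h4
      have h7 : A 0 * p * T (s + 1 - 1 - 0) ≤ N * (1 + D * L / N) ^ s := by
        have h8 := hT' (s + 1 - 1 - 0) (by omega)
        have h6 : 0 ≤ p * T (s + 1 - 1 - 0) := mul_nonneg hp (hT _)
        calc A 0 * p * T (s + 1 - 1 - 0) = A 0 * (p * T (s + 1 - 1 - 0)) := by ring
          _ ≤ N * (p * T (s + 1 - 1 - 0)) := mul_le_mul_of_nonneg_right hA0 h6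
          _ ≤ N * (1 + D * L / N) ^ s := mul_le_mul_of_nonneg_left h8 hN.le
      have h9 : A (s + 1) ≤ D * (1 + D * L / N) ^ s :=
        (hA s).trans (le_mul_of_one_le_right hD hqs)
      have h10 : ((s : ℝ) + 1) * (D * (1 + D * L / N) ^ s) ≤ L * (D * (1 + D * L / N) ^ s) := by
        refine mul_le_mul_of_nonneg_right ?_ (by positivity)
        refine le_trans ?_ hM
        exact_mod_cast ht
      have h11 : N * (1 + D * L / N) ^ (s + 1) =
          N * (1 + D * L / N) ^ s + L * (D * (1 + D * L / N) ^ s) := by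
        rw [pow_succ]
        field_simp
      rw [h11]
      linarith

end G3aux

theorem t_G3 (hG1 : S_G1) (hGA : S_GA) : S_G3 := by
  intro V _ g Sp Q p L hT hp hpN t ht
  obtain ⟨h1, h2, h3, h4, h5⟩ := hT
  rcases Nat.eq_zero_or_pos (Fintype.card V) with h0 | h0
  · have : IsEmpty V := Fintype.card_eq_zero_iff.1 h0
    simp
  · have hN : (0 : ℝ) < Fintype.card V := by exact_mod_cast h0
    have hNG := hG1 V g Sp h1 h3
    have key := G3aux.sol (fun t => ∑ u : V, ∑ v : V, PS g p t u v) (fun t => ∑ u, (NG g t u : ℝ))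
      (Fintype.card V) (2 ^ Sp.card * Q.card) p L L le_rfl hN (by positivity) hp hpN
      (Nat.cast_nonneg _)
      (fun t => Finset.sum_nonneg fun u _ => Finset.sum_nonneg fun v _ => G3aux.PS_nonneg g hp t u v)
      (G3aux.sum_NG_zero g) (G3aux.sum_NG g Sp Q h5 hNG) (G3aux.rec_le hGA g p hp) t ht
    refine key.trans (mul_le_mul_of_nonneg_left ?_ hN.le)
    have hx : (0 : ℝ) ≤ 2 ^ Sp.card * (Q.card : ℝ) * L / Fintype.card V := by positivity
    have hq : (1 : ℝ) ≤ 1 + 2 ^ Sp.card * (Q.card : ℝ) * L / Fintype.card V := by linarith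
    refine (pow_le_pow_right₀ hq ht).trans ?_
    have h6 : 1 + 2 ^ Sp.card * (Q.card : ℝ) * L / Fintype.card V ≤
        Real.exp (2 ^ Sp.card * (Q.card : ℝ) * L / Fintype.card V) := by
      rw [add_comm]
      exact Real.add_one_le_exp _
    refine (pow_le_pow_left₀ (by linarith) h6 L).trans (le_of_eq ?_)
    rw [← Real.exp_nat_mul]
    unfold EE
    congr 1
    ring

end

end Pool.Agent.H921K
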