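import Pool.Agent.H921K.Defs

/-!
# Task G4: weighted paths with given ends
-/

set_option autoImplicit false

namespace Pool.Agent.H921K

open Finset Pool.Agent.H921S
open scoped Classical

noncomputable section

namespace G4aux

variable {V : Type} [Fintype V]

lemma thin_rev {g : V → V → Prop} {Sp Q : Finset V} (h : Thin g Sp Q) :
    Thin (fun a b => g b a) Sp Q := by
  obtain ⟨h1, h2, h3, h4, h5⟩ := h
  exact ⟨h2, h1, h4, h3, fun u v huv => (h5 v u huv).symm⟩

lemma PS_nonneg (g : V → V → Prop) {p : ℝ} (hp : 0 ≤ p) (t : ℕ) (u v : V) :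
    0 ≤ PS g p t u v := by
  unfold PS
  refine sum_nonneg fun f _ => prod_nonneg fun i _ => ?_
  unfold wt
  split_ifs <;> linarith

lemma NK_zero {g : V → V → Prop} {Sp Q : Finset V} (h : Thin g Sp Q) {t : ℕ} (ht : 1 ≤ t)
    {u v : V} (hu : ¬ (u ∈ Q ∧ v ∈ Q)) : NK g t u v = 0 := by
  obtain ⟨s, rfl⟩ : ∃ s, t = s + 1 := ⟨t - 1, by omega⟩
  unfold NK
  rw [card_eq_zero, filter_eq_empty_iff]
  rintro f - ⟨-, h0, hl, hg⟩
  apply hu
  constructor
  · have := (h.2.2.2.2 _ _ (hg 0)).1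
    rw [← h0]; exact this
  · have := (h.2.2.2.2 _ _ (hg (Fin.last s))).2
    rw [← hl]; exact this

lemma NG_zero {g : V → V → Prop} {Sp Q : Finset V} (h : Thin g Sp Q) {t : ℕ} (ht : 1 ≤ t)
    {u : V} (hu : u ∉ Q) : NG g t u = 0 := by
  obtain ⟨s, rfl⟩ : ∃ s, t = s + 1 := ⟨t - 1, by omega⟩
  unfold NG
  rw [card_eq_zero, filter_eq_empty_iff]
  rintro f - ⟨-, h0, hg⟩
  apply hu
  have := (h.2.2.2.2 _ _ (hg 0)).1
  rw [← h0]; exact this

lemma NG_zero_le (g : V → V → Prop) (u : V) : NG g 0 u ≤ 1 := by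
  unfold NG
  rw [card_le_one]
  intro a ha b hb
  funext i
  have hi : i = 0 := Fin.ext (by have := i.isLt; simp)
  subst hi
  rw [(mem_filter.1 ha).2.2.1, (mem_filter.1 hb).2.2.1]

lemma sumNG (G1 : S_G1) {g : V → V → Prop} {Sp Q : Finset V} (h : Thin g Sp Q) (L : ℕ) (u : V) :
    ∑ i ∈ range L, (NG g i u : ℝ) ≤ kap Sp Q L u := by
  unfold kap
  split_ifs with hu
  · calc ∑ i ∈ range L, (NG g i u : ℝ) ≤ ∑ i ∈ range L, (2 : ℝ) ^ Sp.card :=
          sum_le_sum fun i _ => by exact_mod_cast G1 V g Sp h.1 h.2.2.1 i u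
      _ = L * 2 ^ Sp.card := by simp
      _ ≤ 2 ^ Sp.card * ((L : ℝ) + 1) := by
          have : (0 : ℝ) < 2 ^ Sp.card := by positivity
          nlinarith
  · rcases Nat.eq_zero_or_pos L with rfl | hL
    · simp
    · obtain ⟨M, rfl⟩ : ∃ M, L = M + 1 := ⟨L - 1, by omega⟩
      rw [sum_range_succ']
      rw [sum_eq_zero fun i _ => by rw [NG_zero h (by omega) hu]; simp]
      have h1 := NG_zero_le g u
      have h2 : (NG g 0 u : ℝ) ≤ 1 := by exact_mod_cast h1
      linarith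

lemma sumNK (g : V → V → Prop) (t : ℕ) (u : V) : ∑ v : V, (NK g t u v : ℝ) = NG g t u := by
  unfold NK NG
  rw [← Nat.cast_sum]
  congr 1
  rw [card_eq_sum_card_fiberwise (f := fun f : Fin (t + 1) → V => f (Fin.last t)) (t := univ)
    (by intro x _; simp)]
  refine sum_congr rfl fun v _ => ?_
  congr 1
  ext f
  simp only [mem_filter, mem_univ, true_and]
  tauto

lemma conv (a b : ℕ → ℝ) (ha : ∀ i, 0 ≤ a i) (hb : ∀ i, 0 ≤ b i) (L : ℕ) :
    ∑ t ∈ Ico 1 (L + 1), ∑ i ∈ range t, a i * b (t - 1 - i) ≤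
      (∑ i ∈ range L, a i) * ∑ j ∈ range L, b j := by
  have h1 : ∑ t ∈ Ico 1 (L + 1), ∑ i ∈ range t, a i * b (t - 1 - i) =
      ∑ i ∈ range L, ∑ t ∈ Ico (i + 1) (L + 1), a i * b (t - 1 - i) := by
    apply sum_comm'
    intro x y
    simp only [mem_Ico, mem_range]
    omega
  rw [h1, sum_mul]
  refine sum_le_sum fun i hi => ?_
  rw [← mul_sum]
  refine mul_le_mul_of_nonneg_left ?_ (ha i)
  rw [sum_Ico_eq_sum_range]
  have h2 : ∀ j ∈ range (L + 1 - (i + 1)), b (i + 1 + j - 1 - i) = b j := by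
    intro j _
    congr 1
    omega
  rw [sum_congr rfl h2]
  refine sum_le_sum_of_subset_of_nonneg ?_ (fun j _ _ => hb j)
  intro j hj
  simp only [mem_range] at hj ⊢
  omega

lemma sumY (G1 : S_G1) (G3 : S_G3) (GA : S_GA) (GR : S_GR) {g : V → V → Prop}
    {Sp Q : Finset V} {p : ℝ} {L : ℕ} (h : Thin g Sp Q) (hp : 0 ≤ p)
    (hpN : p * Fintype.card V ≤ 1) (v : V) :
    ∑ j ∈ range L, ∑ v' : V, PS g p j v' v ≤ kap Sp Q L v * (1 + L * EE Sp Q L) := by
  have hT' := thin_rev h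
  have hE : 0 < EE Sp Q L := Real.exp_pos _
  set g' : V → V → Prop := fun a b => g b a with hg'
  have hK : ∑ i ∈ range L, (NG g' i v : ℝ) ≤ kap Sp Q L v := sumNG G1 hT' L v
  have hY : ∀ j ∈ range L, ∑ v' : V, PS g p j v' v ≤
      (NG g' j v : ℝ) + kap Sp Q L v * EE Sp Q L := by
    intro j hj
    have hj' := mem_range.1 hj
    calc ∑ v' : V, PS g p j v' v = ∑ v' : V, PS g' p j v v' :=
          sum_congr rfl fun v' _ => (GR V g p j v' v).1
      _ ≤ ∑ v' : V, ((NK g' j v v' : ℝ) +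
            ∑ i ∈ range j, (NG g' i v : ℝ) * p * ∑ w : V, PS g' p (j - 1 - i) w v') :=
          sum_le_sum fun v' _ => (GA V g' p hp).1 j v v'
      _ = (NG g' j v : ℝ) + ∑ i ∈ range j, (NG g' i v : ℝ) *
            (p * ∑ w : V, ∑ v' : V, PS g' p (j - 1 - i) w v') := by
          rw [sum_add_distrib, sumNK, sum_comm]
          congr 1
          refine sum_congr rfl fun i _ => ?_
          rw [← mul_sum, mul_assoc, sum_comm]
      _ ≤ (NG g' j v : ℝ) + ∑ i ∈ range j, (NG g' i v : ℝ) * EE Sp Q L := by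
          gcongr with i hi
          have h3 := G3 V g' Sp Q p L hT' hp hpN (j - 1 - i) (by omega)
          calc p * ∑ w : V, ∑ v' : V, PS g' p (j - 1 - i) w v'
              ≤ p * (Fintype.card V * EE Sp Q L) := mul_le_mul_of_nonneg_left h3 hp
            _ = (p * Fintype.card V) * EE Sp Q L := by ring
            _ ≤ 1 * EE Sp Q L := mul_le_mul_of_nonneg_right hpN hE.le
            _ = EE Sp Q L := one_mul _
      _ ≤ (NG g' j v : ℝ) + kap Sp Q L v * EE Sp Q L := by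
          rw [← sum_mul]
          have h4 : ∑ i ∈ range j, (NG g' i v : ℝ) ≤ ∑ i ∈ range L, (NG g' i v : ℝ) := by
            refine sum_le_sum_of_subset_of_nonneg ?_ (fun _ _ _ => Nat.cast_nonneg _)
            intro x hx
            simp only [mem_range] at hx ⊢
            omega
          have h5 := mul_le_mul_of_nonneg_right (h4.trans hK) hE.le
          linarith
  calc ∑ j ∈ range L, ∑ v' : V, PS g p j v' v
      ≤ ∑ j ∈ range L, ((NG g' j v : ℝ) + kap Sp Q L v * EE Sp Q L) := sum_le_sum hY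
    _ = ∑ j ∈ range L, (NG g' j v : ℝ) + L * (kap Sp Q L v * EE Sp Q L) := by
        rw [sum_add_distrib]; simp
    _ ≤ kap Sp Q L v + L * (kap Sp Q L v * EE Sp Q L) := by linarith
    _ = _ := by ring

end G4aux

open G4aux in
theorem t_G4 (G1 : S_G1) (G2 : S_G2) (G3 : S_G3) (GA : S_GA) (GR : S_GR) : S_G4 := by
  intro V _ g Sp Q p L hT hp hpN u v
  have hE : 1 ≤ EE Sp Q L := by
    unfold EE
    apply Real.one_le_exp
    positivity
  have hku : 0 ≤ kap Sp Q L u := by unfold kap; split_ifs <;> positivity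
  have hkv : 0 ≤ kap Sp Q L v := by unfold kap; split_ifs <;> positivity
  have hNK : ∑ t ∈ Ico 1 (L + 1), (NK g t u v : ℝ) ≤
      (if u ∈ Q ∧ v ∈ Q then 2 ^ Sp.card else 0) := by
    split_ifs with hc
    · have h2 := G2 V g Sp hT.1 hT.2.2.1 (L + 1) u v
      have h3 : ∑ t ∈ Ico 1 (L + 1), NK g t u v ≤ ∑ t ∈ range (L + 1), NK g t u v := by
        refine sum_le_sum_of_subset ?_
        intro x hx
        simp only [mem_range, mem_Ico] at hx ⊢
        omega
      exact_mod_cast h3.trans h2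
    · refine le_of_eq (sum_eq_zero fun t ht => ?_)
      rw [NK_zero hT (mem_Ico.1 ht).1 hc]
      simp
  have hY := sumY (L := L) G1 G3 GA GR hT hp hpN v
  have hY0 : ∀ j, 0 ≤ ∑ v' : V, PS g p j v' v := fun j => sum_nonneg fun v' _ => PS_nonneg g hp j v' v
  calc ∑ t ∈ Ico 1 (L + 1), PS g p t u v
      ≤ ∑ t ∈ Ico 1 (L + 1), ((NK g t u v : ℝ) +
          ∑ i ∈ range t, (NG g i u : ℝ) * p * ∑ v' : V, PS g p (t - 1 - i) v' v) :=
        sum_le_sum fun t _ => (GA V g p hp).1 t u v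
    _ = ∑ t ∈ Ico 1 (L + 1), (NK g t u v : ℝ) + p *
          ∑ t ∈ Ico 1 (L + 1), ∑ i ∈ range t, (NG g i u : ℝ) * ∑ v' : V, PS g p (t - 1 - i) v' v := by
        rw [sum_add_distrib, mul_sum]
        congr 1
        refine sum_congr rfl fun t _ => ?_
        rw [mul_sum]
        refine sum_congr rfl fun i _ => ?_
        ring
    _ ≤ (if u ∈ Q ∧ v ∈ Q then 2 ^ Sp.card else 0) + p *
          ((∑ i ∈ range L, (NG g i u : ℝ)) * ∑ j ∈ range L, ∑ v' : V, PS g p j v' v) := by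
        refine add_le_add hNK (mul_le_mul_of_nonneg_left ?_ hp)
        exact conv (fun i => (NG g i u : ℝ)) (fun j => ∑ v' : V, PS g p j v' v)
          (fun _ => Nat.cast_nonneg _) hY0 L
    _ ≤ (if u ∈ Q ∧ v ∈ Q then 2 ^ Sp.card else 0) + p *
          (kap Sp Q L u * (kap Sp Q L v * (1 + L * EE Sp Q L))) := by
        gcongr
        · exact sum_nonneg fun j _ => hY0 j
        · exact sumNG G1 hT L u
    _ ≤ (if u ∈ Q ∧ v ∈ Q then 2 ^ Sp.card else 0) +
          2 * ((L : ℝ) + 1) * EE Sp Q L * p * kap Sp Q L u * kap Sp Q L v := by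
        have h6 : 1 + L * EE Sp Q L ≤ 2 * ((L : ℝ) + 1) * EE Sp Q L := by
          have : (0 : ℝ) ≤ L := Nat.cast_nonneg _
          nlinarith
        have h7 : p * (kap Sp Q L u * (kap Sp Q L v * (1 + L * EE Sp Q L))) =
            (p * kap Sp Q L u * kap Sp Q L v) * (1 + L * EE Sp Q L) := by ring
        have h8 : 2 * ((L : ℝ) + 1) * EE Sp Q L * p * kap Sp Q L u * kap Sp Q L v =
            (p * kap Sp Q L u * kap Sp Q L v) * (2 * ((L : ℝ) + 1) * EE Sp Q L) := by ring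
        rw [h7, h8]
        have h9 : 0 ≤ p * kap Sp Q L u * kap Sp Q L v := by positivity
        have := mul_le_mul_of_nonneg_left h6 h9
        linarith

end

end Pool.Agent.H921K
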