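import Pool.Agent.H921K.Defs

set_option autoImplicit false

namespace Pool.Agent.H921K

open Finset Pool.Agent.H921S
open scoped Classical

noncomputable section

namespace G5aux

variable {V : Type} [Fintype V]

theorem wt_nonneg (g : V → V → Prop) (p : ℝ) (hp : 0 ≤ p) (u v : V) : 0 ≤ wt g p u v := by
  unfold wt; split_ifs <;> linarith

/-- first step is not a `g`-step -/
def PA (g : V → V → Prop) (p : ℝ) (t : ℕ) (u v : V) : ℝ :=
  ∑ f ∈ univ.filter (fun f : Fin (t + 1 + 1) → V =>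
      Function.Injective f ∧ f 0 = u ∧ f (Fin.last (t + 1)) = v ∧ ¬ g (f 0) (f 1)),
    ∏ i : Fin (t + 1), wt g p (f i.castSucc) (f i.succ)

/-- last step is not a `g`-step -/
def PB (g : V → V → Prop) (p : ℝ) (t : ℕ) (u v : V) : ℝ :=
  ∑ f ∈ univ.filter (fun f : Fin (t + 1 + 1) → V =>
      Function.Injective f ∧ f 0 = u ∧ f (Fin.last (t + 1)) = v ∧
        ¬ g (f (Fin.last t).castSucc) (f (Fin.last t).succ)),
    ∏ i : Fin (t + 1), wt g p (f i.castSucc) (f i.succ)

theorem PF_le (g : V → V → Prop) (p : ℝ) (hp : 0 ≤ p) (t : ℕ) (u v : V) :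
    PF g p (t + 1) u v ≤ PA g p t u v + PB g p t u v := by
  unfold PF PA PB
  rw [← Finset.sum_union_inter]
  have h0 : ∀ f : Fin (t + 1 + 1) → V,
      0 ≤ ∏ i : Fin (t + 1), wt g p (f i.castSucc) (f i.succ) :=
    fun f => Finset.prod_nonneg fun i _ => wt_nonneg g p hp _ _
  refine le_trans ?_ (le_add_of_nonneg_right (Finset.sum_nonneg fun f _ => h0 f))
  apply Finset.sum_le_sum_of_subset_of_nonneg
  · intro f hf
    rw [Finset.mem_filter] at hf
    obtain ⟨_, h1, h2, h3, h4⟩ := hf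
    have h5 := h4 0 (Fin.last t) rfl (by simp)
    rw [Finset.mem_union, Finset.mem_filter, Finset.mem_filter]
    by_cases h6 : g (f 0) (f 1)
    · right
      refine ⟨Finset.mem_univ _, h1, h2, h3, fun h7 => h5 ⟨?_, h7⟩⟩
      exact h6
    · left
      exact ⟨Finset.mem_univ _, h1, h2, h3, h6⟩
  · intro f _ _
    exact h0 f

theorem PB_eq (g : V → V → Prop) (p : ℝ) (t : ℕ) (u v : V) :
    PB g p t u v = PA (fun a b => g b a) p t v u := by
  unfold PA PB
  have e0 : (Fin.rev (0 : Fin (t + 1 + 1))) = Fin.last (t + 1) := by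
    apply Fin.ext; simp
  have e1 : (Fin.rev (1 : Fin (t + 1 + 1))) = (Fin.last t).castSucc := by
    apply Fin.ext; simp [Fin.val_rev]
  have e2 : (Fin.rev (Fin.last (t + 1))) = 0 := by
    apply Fin.ext; simp
  have e3 : (Fin.rev (Fin.last t).castSucc) = 1 := by
    rw [← e1, Fin.rev_rev]
  have e4 : (Fin.last t).succ = Fin.last (t + 1) := by
    apply Fin.ext; simp
  refine Finset.sum_bij' (fun f _ => f ∘ Fin.rev) (fun f _ => f ∘ Fin.rev) ?_ ?_ ?_ ?_ ?_
  · intro f hf
    rw [Finset.mem_filter] at hf ⊢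
    obtain ⟨_, h1, h2, h3, h4⟩ := hf
    refine ⟨Finset.mem_univ _, h1.comp Fin.rev_injective, ?_, ?_, ?_⟩
    · simp only [Function.comp_apply, e0, h3]
    · simp only [Function.comp_apply, e2, h2]
    · simp only [Function.comp_apply, e0, e1]
      rw [e4] at h4
      exact h4
  · intro f hf
    rw [Finset.mem_filter] at hf ⊢
    obtain ⟨_, h1, h2, h3, h4⟩ := hf
    refine ⟨Finset.mem_univ _, h1.comp Fin.rev_injective, ?_, ?_, ?_⟩
    · simp only [Function.comp_apply, e0, h3]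
    · simp only [Function.comp_apply, e2, h2]
    · simp only [Function.comp_apply, e4, e2, e3]
      exact h4
  · intro f _
    funext i
    simp
  · intro f _
    funext i
    simp
  · intro f _
    have h := Equiv.prod_comp Fin.revPerm (fun i : Fin (t + 1) => wt g p (f i.castSucc) (f i.succ))
    rw [← h]
    apply Finset.prod_congr rfl
    intro i _
    simp only [Function.comp_apply, Fin.rev_castSucc, Fin.rev_succ, Fin.revPerm_apply]
    rfl

theorem NK_sum (g : V → V → Prop) (t : ℕ) (u : V) : ∑ v : V, NK g t u v = NG g t u := by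
  unfold NK NG
  rw [Finset.card_eq_sum_card_fiberwise (f := fun f : Fin (t + 1) → V => f (Fin.last t))
    (t := univ) (fun x _ => Finset.mem_coe.mpr (Finset.mem_univ _))]
  apply Finset.sum_congr rfl
  intro v _
  apply congrArg
  ext f
  simp only [Finset.mem_filter, Finset.mem_univ, true_and]
  tauto

theorem NG_zero (g : V → V → Prop) (u : V) : NG g 0 u ≤ 1 := by
  unfold NG
  rw [Finset.card_le_one]
  intro a ha b hb
  rw [Finset.mem_filter] at ha hb
  funext i
  have : i = 0 := by apply Fin.ext; have := i.isLt; simp; try omega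
  rw [this, ha.2.2.1, hb.2.2.1]

theorem NG_out (g : V → V → Prop) (Q : Finset V) (hQ : ∀ a b, g a b → a ∈ Q) (u : V) (hu : u ∉ Q)
    (i : ℕ) : NG g (i + 1) u = 0 := by
  unfold NG
  rw [Finset.card_eq_zero, Finset.filter_eq_empty_iff]
  rintro f _ ⟨_, h2, h3⟩
  have h4 := h3 0
  apply hu
  rw [← h2]
  exact hQ _ _ h4

theorem EE_one (Sp Q : Finset V) (L : ℕ) : 1 ≤ EE Sp Q L := by
  unfold EE
  apply Real.one_le_exp
  positivity

theorem thin_rev {g : V → V → Prop} {Sp Q : Finset V} (h : Thin g Sp Q) :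
    Thin (fun a b => g b a) Sp Q := by
  obtain ⟨h1, h2, h3, h4, h5⟩ := h
  exact ⟨h2, h1, h4, h3, fun u v huv => ⟨(h5 _ _ huv).2, (h5 _ _ huv).1⟩⟩

theorem NG_sum (hG1 : S_G1) (g : V → V → Prop) (Sp Q : Finset V) (L : ℕ) (hT : Thin g Sp Q)
    (u : V) : (∑ i ∈ range L, (NG g i u : ℝ)) ≤ kap Sp Q L u := by
  unfold kap
  split_ifs with hu
  · have h1 : ∀ i ∈ range L, (NG g i u : ℝ) ≤ 2 ^ Sp.card := by
      intro i _
      exact_mod_cast hG1 V g Sp hT.1 hT.2.2.1 i u
    calc (∑ i ∈ range L, (NG g i u : ℝ)) ≤ ∑ _i ∈ range L, (2 : ℝ) ^ Sp.card :=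
          Finset.sum_le_sum h1
      _ = L * 2 ^ Sp.card := by simp
      _ ≤ 2 ^ Sp.card * ((L : ℝ) + 1) := by
          have : (0 : ℝ) < 2 ^ Sp.card := by positivity
          nlinarith
  · rcases L with _ | L
    · simp
    · rw [Finset.sum_range_succ']
      have h1 : ∑ i ∈ range L, (NG g (i + 1) u : ℝ) = 0 := by
        apply Finset.sum_eq_zero
        intro i _
        rw [NG_out g Q (fun a b hab => (hT.2.2.2.2 a b hab).1) u hu i]
        simp
      rw [h1, zero_add]
      exact_mod_cast NG_zero g u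

theorem ybound (hG1 : S_G1) (hG3 : S_G3) (hGA : S_GA) (hGR : S_GR) (g : V → V → Prop)
    (Sp Q : Finset V) (p : ℝ) (L : ℕ) (hT : Thin g Sp Q) (hp : 0 ≤ p)
    (hpV : p * Fintype.card V ≤ 1) (v : V) :
    ∑ s ∈ range L, ∑ v' : V, PS g p s v' v ≤ 2 * ((L : ℝ) + 1) * EE Sp Q L * kap Sp Q L v := by
  set r : V → V → Prop := fun a b => g b a with hr
  have hTr : Thin r Sp Q := thin_rev hT
  have hE : 1 ≤ EE Sp Q L := EE_one Sp Q L
  set E := EE Sp Q L with hEdef
  set K : ℝ := ∑ i ∈ range L, (NG r i v : ℝ) with hK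
  have hK0 : 0 ≤ K := Finset.sum_nonneg fun i _ => by positivity
  have hKk : K ≤ kap Sp Q L v := NG_sum hG1 r Sp Q L hTr v
  have h1 : ∀ s ∈ range L, ∑ v' : V, PS g p s v' v ≤ (NG r s v : ℝ) + E * K := by
    intro s hs
    rw [Finset.mem_range] at hs
    have e1 : ∑ v' : V, PS g p s v' v = ∑ v' : V, PS r p s v v' :=
      Finset.sum_congr rfl fun v' _ => (hGR V g p s v' v).1
    rw [e1]
    have e2 : ∑ v' : V, PS r p s v v' ≤ ∑ v' : V, ((NK r s v v' : ℝ) +
        ∑ i ∈ range s, (NG r i v : ℝ) * p * ∑ v'' : V, PS r p (s - 1 - i) v'' v') :=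
      Finset.sum_le_sum fun v' _ => (hGA V r p hp).1 s v v'
    refine e2.trans ?_
    rw [Finset.sum_add_distrib]
    have e3 : ∑ v' : V, (NK r s v v' : ℝ) = (NG r s v : ℝ) := by
      rw [← NK_sum r s v]; push_cast; rfl
    rw [e3, Finset.sum_comm]
    have e4 : ∀ i ∈ range s, ∑ v' : V, (NG r i v : ℝ) * p * ∑ v'' : V, PS r p (s - 1 - i) v'' v' ≤
        E * (NG r i v : ℝ) := by
      intro i _
      rw [← Finset.mul_sum, Finset.sum_comm]
      have h3 := hG3 V r Sp Q p L hTr hp hpV (s - 1 - i) (by omega)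
      have h4 : (0 : ℝ) ≤ NG r i v := by positivity
      calc (NG r i v : ℝ) * p * ∑ y : V, ∑ x : V, PS r p (s - 1 - i) y x ≤
          (NG r i v : ℝ) * p * (Fintype.card V * E) :=
            mul_le_mul_of_nonneg_left h3 (mul_nonneg h4 hp)
        _ = (NG r i v : ℝ) * E * (p * Fintype.card V) := by ring
        _ ≤ (NG r i v : ℝ) * E * 1 :=
            mul_le_mul_of_nonneg_left hpV (mul_nonneg h4 (by linarith))
        _ = E * (NG r i v : ℝ) := by ring
    have e5 : ∑ i ∈ range s, E * (NG r i v : ℝ) ≤ E * K := by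
      rw [← Finset.mul_sum]
      apply mul_le_mul_of_nonneg_left _ (by linarith)
      apply Finset.sum_le_sum_of_subset_of_nonneg
      · intro i hi
        rw [Finset.mem_range] at hi ⊢
        omega
      · intro i _ _
        positivity
    have e6 := Finset.sum_le_sum e4
    linarith
  have h2 : ∑ s ∈ range L, ∑ v' : V, PS g p s v' v ≤ K + L * (E * K) := by
    refine (Finset.sum_le_sum h1).trans ?_
    rw [Finset.sum_add_distrib]
    simp [hK]
  have hL : (0 : ℝ) ≤ L := by positivity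
  have h3 : K + L * (E * K) ≤ 2 * ((L : ℝ) + 1) * E * K := by
    have h4 : 1 + L * E ≤ 2 * ((L : ℝ) + 1) * E := by nlinarith
    nlinarith [mul_le_mul_of_nonneg_right h4 hK0]
  refine (h2.trans h3).trans ?_
  apply mul_le_mul_of_nonneg_left hKk
  positivity

end G5aux

open G5aux in
/-- task G5 -/
theorem t_G5 (hG1 : S_G1) (hG3 : S_G3) (hGA : S_GA) (hGR : S_GR) : S_G5 := by
  intro V _ g Sp Q p L hT hp hpV u v
  have h1 : ∑ t ∈ Ico 1 (L + 1), PF g p t u v = ∑ s ∈ range L, PF g p (s + 1) u v := by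
    rw [Finset.sum_Ico_eq_sum_range]
    apply Finset.sum_congr rfl
    intro s _
    rw [add_comm 1 s]
  rw [h1]
  have h2 : ∀ s ∈ range L, PF g p (s + 1) u v ≤
      p * ∑ v' : V, PS g p s v' v + p * ∑ v' : V, PS (fun a b => g b a) p s v' u := by
    intro s _
    refine (PF_le g p hp s u v).trans ?_
    rw [PB_eq]
    exact add_le_add ((hGA V g p hp).2 s u v) ((hGA V (fun a b => g b a) p hp).2 s v u)
  refine (Finset.sum_le_sum h2).trans ?_
  rw [Finset.sum_add_distrib, ← Finset.mul_sum, ← Finset.mul_sum]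
  have h3 := ybound hG1 hG3 hGA hGR g Sp Q p L hT hp hpV v
  have h4 := ybound hG1 hG3 hGA hGR (fun a b => g b a) Sp Q p L (thin_rev hT) hp hpV u
  have h5 := mul_le_mul_of_nonneg_left h3 hp
  have h6 := mul_le_mul_of_nonneg_left h4 hp
  calc p * ∑ s ∈ range L, ∑ v' : V, PS g p s v' v +
        p * ∑ s ∈ range L, ∑ v' : V, PS (fun a b => g b a) p s v' u ≤
      p * (2 * ((L : ℝ) + 1) * EE Sp Q L * kap Sp Q L v) +
        p * (2 * ((L : ℝ) + 1) * EE Sp Q L * kap Sp Q L u) := add_le_add h5 h6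
    _ = 2 * ((L : ℝ) + 1) * EE Sp Q L * p * (kap Sp Q L u + kap Sp Q L v) := by ring

end

end Pool.Agent.H921K
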