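import Pool.Agent.H921K.Defs

set_option autoImplicit false

namespace Pool.Agent.H921K

open Finset Pool.Agent.H921S
open scoped Classical

noncomputable section

namespace GAaux

variable {V : Type} [Fintype V]

/-- weighted sum over injective sequences avoiding `A` -/
def WW (h : V → V → ℝ) (A : Finset V) (t : ℕ) (u : V) (Φ : V → ℝ) : ℝ :=
  ∑ f : Fin (t + 1) → V, if Function.Injective f ∧ f 0 = u ∧ ∀ i, f i ∉ A then
    (∏ i : Fin t, h (f i.castSucc) (f i.succ)) * Φ (f (Fin.last t)) else 0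

theorem WW_mem (h : V → V → ℝ) (A : Finset V) (t : ℕ) (u : V) (Φ : V → ℝ) (hu : u ∈ A) :
    WW h A t u Φ = 0 := by
  unfold WW
  refine Finset.sum_eq_zero fun f _ => ?_
  rw [if_neg]
  rintro ⟨-, h0, hA⟩
  exact hA 0 (by rw [h0]; exact hu)

theorem WW_nonneg (h : V → V → ℝ) (hh : ∀ a b, 0 ≤ h a b) (A : Finset V) (t : ℕ) (u : V) (Φ : V → ℝ)
    (hΦ : ∀ a, 0 ≤ Φ a) : 0 ≤ WW h A t u Φ := by
  unfold WW
  refine Finset.sum_nonneg fun f _ => ?_
  split_ifs
  · exact mul_nonneg (Finset.prod_nonneg fun i _ => hh _ _) (hΦ _)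
  · exact le_rfl

theorem WW_mono (h : V → V → ℝ) (hh : ∀ a b, 0 ≤ h a b) (A : Finset V) (t : ℕ) (u : V) (Φ : V → ℝ)
    (hΦ : ∀ a, 0 ≤ Φ a) : WW h A t u Φ ≤ WW h ∅ t u Φ := by
  unfold WW
  refine Finset.sum_le_sum fun f _ => ?_
  have h0 : 0 ≤ (∏ i : Fin t, h (f i.castSucc) (f i.succ)) * Φ (f (Fin.last t)) :=
    mul_nonneg (Finset.prod_nonneg fun i _ => hh _ _) (hΦ _)
  by_cases hc : Function.Injective f ∧ f 0 = u ∧ ∀ i, f i ∉ A
  · rw [if_pos hc, if_pos ⟨hc.1, hc.2.1, fun i => Finset.notMem_empty _⟩]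
  · rw [if_neg hc]
    split_ifs
    · exact h0
    · exact le_rfl

theorem prod_consA (h : V → V → ℝ) (t : ℕ) (u : V) (f : Fin (t + 1) → V) :
    (∏ i : Fin (t + 1), h ((Fin.cons u f : Fin (t + 2) → V) i.castSucc)
      ((Fin.cons u f : Fin (t + 2) → V) i.succ)) =
      h u (f 0) * ∏ i : Fin t, h (f i.castSucc) (f i.succ) := by
  rw [Fin.prod_univ_succ]
  congr 1

theorem WW_succ (h : V → V → ℝ) (A : Finset V) (t : ℕ) (u : V) (Φ : V → ℝ) (hu : u ∉ A) :
    WW h A (t + 1) u Φ = ∑ v' : V, h u v' * WW h (insert u A) t v' Φ := by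
  unfold WW
  rw [← (Fin.consEquiv (fun _ => V)).sum_comp, Fintype.sum_prod_type]
  rw [Finset.sum_eq_single u]
  · simp_rw [Finset.mul_sum]
    rw [Finset.sum_comm]
    refine Finset.sum_congr rfl fun f _ => ?_
    rw [Finset.sum_eq_single (f 0)]
    · show (if Function.Injective (Fin.cons u f : Fin (t + 2) → V) ∧
        (Fin.cons u f : Fin (t + 2) → V) 0 = u ∧ ∀ i, (Fin.cons u f : Fin (t + 2) → V) i ∉ A then
        (∏ i : Fin (t + 1), h ((Fin.cons u f : Fin (t + 2) → V) i.castSucc)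
          ((Fin.cons u f : Fin (t + 2) → V) i.succ)) * Φ ((Fin.cons u f : Fin (t + 2) → V)
            (Fin.last (t + 1))) else 0) = _
      rw [prod_consA]
      have hl : (Fin.cons u f : Fin (t + 2) → V) (Fin.last (t + 1)) = f (Fin.last t) := by
        rw [← Fin.succ_last, Fin.cons_succ]
      rw [hl]
      have hc : (Function.Injective (Fin.cons u f : Fin (t + 2) → V) ∧
        (Fin.cons u f : Fin (t + 2) → V) 0 = u ∧ ∀ i, (Fin.cons u f : Fin (t + 2) → V) i ∉ A) ↔
        (Function.Injective f ∧ f 0 = f 0 ∧ ∀ i, f i ∉ insert u A) := by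
        rw [Fin.cons_injective_iff]
        constructor
        · rintro ⟨⟨h1, h2⟩, -, h3⟩
          refine ⟨h2, rfl, fun i hi => ?_⟩
          rw [Finset.mem_insert] at hi
          rcases hi with hi | hi
          · exact h1 ⟨i, hi⟩
          · exact h3 i.succ (by rw [Fin.cons_succ]; exact hi)
        · rintro ⟨h1, -, h3⟩
          refine ⟨⟨?_, h1⟩, Fin.cons_zero _ _, fun i => ?_⟩
          · rintro ⟨i, hi⟩
            exact h3 i (by rw [hi]; exact Finset.mem_insert_self _ _)
          · refine Fin.cases ?_ (fun j => ?_) i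
            · rw [Fin.cons_zero]; exact hu
            · rw [Fin.cons_succ]
              exact fun hj => h3 j (Finset.mem_insert_of_mem hj)
      by_cases hcc : Function.Injective f ∧ f 0 = f 0 ∧ ∀ i, f i ∉ insert u A
      · rw [if_pos (hc.mpr hcc), if_pos hcc]; ring
      · rw [if_neg (fun hx => hcc (hc.mp hx)), if_neg hcc, mul_zero]
    · intro v' _ hv'
      rw [if_neg (fun hx => hv' hx.2.1.symm), mul_zero]
    · intro hx; exact absurd (Finset.mem_univ _) hx
  · intro x _ hx
    refine Finset.sum_eq_zero fun f _ => ?_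
    rw [if_neg]
    rintro ⟨-, h0, -⟩
    exact hx (by simpa [Fin.consEquiv] using h0)
  · intro hx; exact absurd (Finset.mem_univ _) hx

/-- the indicator weight -/
def gi (g : V → V → Prop) (a b : V) : ℝ := if g a b then 1 else 0

theorem gi_nonneg (g : V → V → Prop) (a b : V) : 0 ≤ gi g a b := by
  unfold gi; split_ifs <;> norm_num

theorem wt_nonneg (g : V → V → Prop) (p : ℝ) (hp : 0 ≤ p) (a b : V) : 0 ≤ wt g p a b := by
  unfold wt; split_ifs
  · norm_num
  · exact hp

/-- end point indicator -/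
def ev (v : V) (x : V) : ℝ := if x = v then 1 else 0

theorem ev_nonneg (v x : V) : 0 ≤ ev v x := by unfold ev; split_ifs <;> norm_num

theorem PS_eq (g : V → V → Prop) (p : ℝ) (t : ℕ) (u v : V) :
    PS g p t u v = WW (wt g p) ∅ t u (ev v) := by
  unfold PS WW
  rw [Finset.sum_filter]
  refine Finset.sum_congr rfl fun f _ => ?_
  unfold ev
  by_cases h1 : Function.Injective f ∧ f 0 = u
  · by_cases h2 : f (Fin.last t) = v
    · rw [if_pos ⟨h1.1, h1.2, h2⟩, if_pos ⟨h1.1, h1.2, fun i => Finset.notMem_empty _⟩, if_pos h2,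
        mul_one]
    · rw [if_neg (fun hx => h2 hx.2.2), if_pos ⟨h1.1, h1.2, fun i => Finset.notMem_empty _⟩,
        if_neg h2, mul_zero]
  · rw [if_neg (fun hx => h1 ⟨hx.1, hx.2.1⟩), if_neg (fun hx => h1 ⟨hx.1, hx.2.1⟩)]

theorem NG_eq (g : V → V → Prop) (t : ℕ) (u : V) :
    (NG g t u : ℝ) = WW (gi g) ∅ t u (fun _ => 1) := by
  unfold NG WW gi
  rw [Finset.card_filter, Nat.cast_sum]
  refine Finset.sum_congr rfl fun f _ => ?_
  rw [Finset.prod_ite_zero]
  by_cases h1 : Function.Injective f ∧ f 0 = u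
  · by_cases h2 : ∀ i : Fin t, g (f i.castSucc) (f i.succ)
    · rw [if_pos ⟨h1.1, h1.2, h2⟩, if_pos ⟨h1.1, h1.2, fun i => Finset.notMem_empty _⟩,
        if_pos (fun i _ => h2 i)]
      simp
    · rw [if_neg (fun hx => h2 hx.2.2), if_pos ⟨h1.1, h1.2, fun i => Finset.notMem_empty _⟩,
        if_neg (fun hx => h2 fun i => hx i (Finset.mem_univ _))]
      simp
  · rw [if_neg (fun hx => h1 ⟨hx.1, hx.2.1⟩), if_neg (fun hx => h1 ⟨hx.1, hx.2.1⟩)]
    simp

theorem NK_eq (g : V → V → Prop) (t : ℕ) (u v : V) :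
    (NK g t u v : ℝ) = WW (gi g) ∅ t u (ev v) := by
  unfold NK WW gi ev
  rw [Finset.card_filter, Nat.cast_sum]
  refine Finset.sum_congr rfl fun f _ => ?_
  rw [Finset.prod_ite_zero]
  by_cases h1 : Function.Injective f ∧ f 0 = u
  · by_cases h3 : f (Fin.last t) = v
    · by_cases h2 : ∀ i : Fin t, g (f i.castSucc) (f i.succ)
      · rw [if_pos ⟨h1.1, h1.2, h3, h2⟩, if_pos ⟨h1.1, h1.2, fun i => Finset.notMem_empty _⟩,
          if_pos (fun i _ => h2 i), if_pos h3]
        simp
      · rw [if_neg (fun hx => h2 hx.2.2.2), if_pos ⟨h1.1, h1.2, fun i => Finset.notMem_empty _⟩,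
          if_neg (fun hx => h2 fun i => hx i (Finset.mem_univ _))]
        simp
    · rw [if_neg (fun hx => h3 hx.2.2.1), if_pos ⟨h1.1, h1.2, fun i => Finset.notMem_empty _⟩,
        if_neg h3, mul_zero]
      simp
  · rw [if_neg (fun hx => h1 ⟨hx.1, hx.2.1⟩), if_neg (fun hx => h1 ⟨hx.1, hx.2.1⟩)]
    simp

theorem WW_zero (h h' : V → V → ℝ) (A : Finset V) (u : V) (Φ : V → ℝ) :
    WW h A 0 u Φ = WW h' A 0 u Φ := by
  unfold WW
  rfl

theorem WW_zero_one (h : V → V → ℝ) (A : Finset V) (u : V) (hu : u ∉ A) :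
    WW h A 0 u (fun _ => 1) = 1 := by
  unfold WW
  rw [Finset.sum_eq_single (fun _ => u)]
  · rw [if_pos]
    · simp
    · exact ⟨fun a b _ => Fin.ext (by omega), rfl, fun _ => hu⟩
  · intro f _ hf
    rw [if_neg]
    rintro ⟨-, h0, -⟩
    apply hf
    funext i
    have hi : i = 0 := Fin.ext (by have := i.2; omega)
    rw [hi, h0]
  · intro hx; exact absurd (Finset.mem_univ _) hx

theorem main (g : V → V → Prop) (p : ℝ) (hp : 0 ≤ p) (v : V) : ∀ (t : ℕ) (A : Finset V) (u : V),
    WW (wt g p) A t u (ev v) ≤ WW (gi g) A t u (ev v) +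
      ∑ i ∈ range t, WW (gi g) A i u (fun _ => 1) * p *
        ∑ v' : V, WW (wt g p) ∅ (t - 1 - i) v' (ev v) := by
  intro t
  induction t with
  | zero =>
    intro A u
    rw [WW_zero (wt g p) (gi g)]
    simp
  | succ t ih =>
    intro A u
    have hS : ∀ k : ℕ, 0 ≤ ∑ v' : V, WW (wt g p) ∅ k v' (ev v) := fun k =>
      Finset.sum_nonneg fun v' _ => WW_nonneg _ (wt_nonneg g p hp) _ _ _ _ (ev_nonneg v)
    by_cases hu : u ∈ A
    · rw [WW_mem _ _ _ _ _ hu, WW_mem _ _ _ _ _ hu, zero_add]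
      refine Finset.sum_nonneg fun i _ => ?_
      exact mul_nonneg (mul_nonneg (WW_nonneg _ (gi_nonneg g) _ _ _ _ (fun _ => zero_le_one)) hp)
        (hS _)
    · rw [WW_succ _ _ _ _ _ hu, WW_succ _ _ _ _ _ hu, Finset.sum_range_succ']
      have h0 : WW (gi g) A 0 u (fun _ => 1) = 1 := WW_zero_one _ _ _ hu
      rw [h0, one_mul]
      have h1 : ∀ i ∈ range t, WW (gi g) A (i + 1) u (fun _ => 1) * p *
          ∑ v' : V, WW (wt g p) ∅ (t + 1 - 1 - (i + 1)) v' (ev v) =
          ∑ w : V, gi g u w * (WW (gi g) (insert u A) i w (fun _ => 1) * p *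
            ∑ v' : V, WW (wt g p) ∅ (t - 1 - i) v' (ev v)) := by
        intro i _
        rw [WW_succ _ _ _ _ _ hu, show t + 1 - 1 - (i + 1) = t - 1 - i by omega, mul_assoc,
          Finset.sum_mul]
        refine Finset.sum_congr rfl fun w _ => ?_
        ring
      rw [Finset.sum_congr rfl h1, Finset.sum_comm]
      have h2 : p * ∑ v' : V, WW (wt g p) ∅ (t + 1 - 1 - 0) v' (ev v) =
          ∑ w : V, p * WW (wt g p) ∅ t w (ev v) := by
        rw [Finset.mul_sum]
        simp
      rw [h2, ← Finset.sum_add_distrib, ← Finset.sum_add_distrib]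
      refine Finset.sum_le_sum fun w _ => ?_
      rw [← Finset.mul_sum]
      have hb : 0 ≤ WW (wt g p) ∅ t w (ev v) :=
        WW_nonneg _ (wt_nonneg g p hp) _ _ _ _ (ev_nonneg v)
      by_cases hg : g u w
      · have e1 : wt g p u w = 1 := by unfold wt; rw [if_pos hg]
        have e2 : gi g u w = 1 := by unfold gi; rw [if_pos hg]
        rw [e1, e2, one_mul, one_mul, one_mul]
        have := ih (insert u A) w
        have hpb : 0 ≤ p * WW (wt g p) ∅ t w (ev v) := mul_nonneg hp hb
        linarith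
      · have e1 : wt g p u w = p := by unfold wt; rw [if_neg hg]
        have e2 : gi g u w = 0 := by unfold gi; rw [if_neg hg]
        rw [e1, e2, zero_mul, zero_mul, zero_add, zero_add]
        exact mul_le_mul_of_nonneg_left (WW_mono _ (wt_nonneg g p hp) _ _ _ _ (ev_nonneg v)) hp

end GAaux

open GAaux in
theorem t_GA : S_GA := by
  intro V _ g p hp
  refine ⟨fun t u v => ?_, fun t u v => ?_⟩
  · have h := main g p hp v t ∅ u
    rw [PS_eq, NK_eq]
    refine h.trans (add_le_add le_rfl (le_of_eq ?_))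
    refine Finset.sum_congr rfl fun i _ => ?_
    rw [NG_eq]
    congr 1
    exact Finset.sum_congr rfl fun v' _ => (PS_eq g p _ v' v).symm
  · rw [Finset.sum_filter, ← (Fin.consEquiv (fun _ => V)).sum_comp, Fintype.sum_prod_type,
      Finset.sum_eq_single u]
    · have h1 : p * ∑ v' : V, PS g p t v' v = ∑ f : Fin (t + 1) → V,
          if Function.Injective f ∧ f (Fin.last t) = v then
            p * ∏ i : Fin t, wt g p (f i.castSucc) (f i.succ) else 0 := by
        rw [Finset.mul_sum]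
        have h2 : ∀ v' : V, p * PS g p t v' v = ∑ f : Fin (t + 1) → V,
            if Function.Injective f ∧ f 0 = v' ∧ f (Fin.last t) = v then
            p * ∏ i : Fin t, wt g p (f i.castSucc) (f i.succ) else 0 := by
          intro v'
          unfold PS
          rw [Finset.sum_filter, Finset.mul_sum]
          refine Finset.sum_congr rfl fun f _ => ?_
          split_ifs <;> simp
        rw [Finset.sum_congr rfl fun v' _ => h2 v', Finset.sum_comm]
        refine Finset.sum_congr rfl fun f _ => ?_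
        rw [Finset.sum_eq_single (f 0)]
        · by_cases hc : Function.Injective f ∧ f (Fin.last t) = v
          · rw [if_pos ⟨hc.1, rfl, hc.2⟩, if_pos hc]
          · rw [if_neg (fun hx => hc ⟨hx.1, hx.2.2⟩), if_neg hc]
        · intro b _ hb
          rw [if_neg (fun hx => hb hx.2.1.symm)]
        · intro hx; exact absurd (Finset.mem_univ _) hx
      rw [h1]
      refine Finset.sum_le_sum fun f _ => ?_
      have hpr : 0 ≤ p * ∏ i : Fin t, wt g p (f i.castSucc) (f i.succ) :=
        mul_nonneg hp (Finset.prod_nonneg fun i _ => wt_nonneg g p hp _ _)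
      show (if Function.Injective (Fin.cons u f : Fin (t + 2) → V) ∧
        (Fin.cons u f : Fin (t + 2) → V) 0 = u ∧
        (Fin.cons u f : Fin (t + 2) → V) (Fin.last (t + 1)) = v ∧
        ¬ g ((Fin.cons u f : Fin (t + 2) → V) 0) ((Fin.cons u f : Fin (t + 2) → V) 1) then
        (∏ i : Fin (t + 1), wt g p ((Fin.cons u f : Fin (t + 2) → V) i.castSucc)
          ((Fin.cons u f : Fin (t + 2) → V) i.succ)) else 0) ≤ _
      rw [prod_consA]
      have hl : (Fin.cons u f : Fin (t + 2) → V) (Fin.last (t + 1)) = f (Fin.last t) := by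
        rw [← Fin.succ_last, Fin.cons_succ]
      have h10 : (Fin.cons u f : Fin (t + 2) → V) 1 = f 0 := by
        rw [show (1 : Fin (t + 2)) = Fin.succ 0 from rfl, Fin.cons_succ]
      rw [hl, h10, Fin.cons_zero]
      split_ifs with ha hb
      · have e1 : wt g p u (f 0) = p := by unfold wt; rw [if_neg ha.2.2.2]
        rw [e1]
      · exact absurd ⟨(Fin.cons_injective_iff.mp ha.1).2, ha.2.2.1⟩ hb
      · exact hpr
      · exact le_rfl
    · intro x _ hx
      refine Finset.sum_eq_zero fun f _ => ?_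
      rw [if_neg]
      rintro ⟨-, h0, -⟩
      exact hx (by simpa [Fin.consEquiv] using h0)
    · intro hx; exact absurd (Finset.mem_univ _) hx

end

end Pool.Agent.H921K
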