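import Pool.Agent.H921K.Defs

set_option autoImplicit false

namespace Pool.Agent.H921K

open Finset Pool.Agent.H921S
open scoped Classical

noncomputable section

namespace GRaux

theorem prod_rev {V : Type} (g : V → V → Prop) (p : ℝ) (t : ℕ) (f : Fin (t + 1) → V) :
    ∏ i : Fin t, wt g p (f i.castSucc) (f i.succ) =
      ∏ i : Fin t, wt (fun a b => g b a) p ((f ∘ Fin.rev) i.castSucc) ((f ∘ Fin.rev) i.succ) := by
  have h1 : ∀ i : Fin t, wt (fun a b => g b a) p ((f ∘ Fin.rev) i.castSucc)
      ((f ∘ Fin.rev) i.succ) = wt g p (f (Fin.rev i).castSucc) (f (Fin.rev i).succ) := by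
    intro i
    simp only [Function.comp_apply, Fin.rev_castSucc, Fin.rev_succ, wt]
  simp only [h1]
  exact (Equiv.prod_comp Fin.revPerm (fun i : Fin t => wt g p (f i.castSucc) (f i.succ))).symm

theorem comp_rev_rev {V : Type} {t : ℕ} (f : Fin (t + 1) → V) : (f ∘ Fin.rev) ∘ Fin.rev = f := by
  funext i
  simp

theorem cond {V : Type} (g : V → V → Prop) (t : ℕ) (f : Fin (t + 1) → V)
    (h : ∀ i j : Fin t, (i : ℕ) = 0 → (j : ℕ) + 1 = t →
          ¬ (g (f i.castSucc) (f i.succ) ∧ g (f j.castSucc) (f j.succ))) :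
    ∀ i j : Fin t, (i : ℕ) = 0 → (j : ℕ) + 1 = t →
          ¬ (g ((f ∘ Fin.rev) i.succ) ((f ∘ Fin.rev) i.castSucc) ∧
            g ((f ∘ Fin.rev) j.succ) ((f ∘ Fin.rev) j.castSucc)) := by
  intro i j hi hj hh
  simp only [Function.comp_apply, Fin.rev_castSucc, Fin.rev_succ] at hh
  refine h (Fin.rev j) (Fin.rev i) ?_ ?_ ⟨hh.2, hh.1⟩
  · rw [Fin.val_rev]; omega
  · rw [Fin.val_rev]
    have := i.2
    omega

end GRaux

open GRaux in
/-- GR -/
theorem t_GR : S_GR := by
  intro V _ g p t u v
  refine ⟨?_, ?_, ?_⟩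
  · unfold PS
    refine Finset.sum_nbij' (fun f => f ∘ Fin.rev) (fun f => f ∘ Fin.rev) ?_ ?_ ?_ ?_ ?_
    · intro f hf
      simp only [mem_filter, mem_univ, true_and] at hf ⊢
      refine ⟨hf.1.comp Fin.rev_injective, ?_, ?_⟩
      · simpa using hf.2.2
      · simpa using hf.2.1
    · intro f hf
      simp only [mem_filter, mem_univ, true_and] at hf ⊢
      refine ⟨hf.1.comp Fin.rev_injective, ?_, ?_⟩
      · simpa using hf.2.2
      · simpa using hf.2.1
    · intro f _
      exact comp_rev_rev f
    · intro f _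
      exact comp_rev_rev f
    · intro f _
      exact prod_rev g p t f
  · unfold PF
    refine Finset.sum_nbij' (fun f => f ∘ Fin.rev) (fun f => f ∘ Fin.rev) ?_ ?_ ?_ ?_ ?_
    · intro f hf
      simp only [mem_filter, mem_univ, true_and] at hf ⊢
      refine ⟨hf.1.comp Fin.rev_injective, ?_, ?_, cond g t f hf.2.2.2⟩
      · simpa using hf.2.2.1
      · simpa using hf.2.1
    · intro f hf
      simp only [mem_filter, mem_univ, true_and] at hf ⊢
      refine ⟨hf.1.comp Fin.rev_injective, ?_, ?_, cond (fun a b => g b a) t f hf.2.2.2⟩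
      · simpa using hf.2.2.1
      · simpa using hf.2.1
    · intro f _
      exact comp_rev_rev f
    · intro f _
      exact comp_rev_rev f
    · intro f _
      exact prod_rev g p t f
  · unfold NK
    refine Finset.card_nbij' (fun f => f ∘ Fin.rev) (fun f => f ∘ Fin.rev) ?_ ?_ ?_ ?_
    · intro f hf
      simp only [Finset.coe_filter, Set.mem_setOf_eq, mem_univ, true_and] at hf ⊢
      refine ⟨hf.1.comp Fin.rev_injective, ?_, ?_, ?_⟩
      · simpa using hf.2.2.1
      · simpa using hf.2.1
      · intro i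
        simp only [Function.comp_apply, Fin.rev_castSucc, Fin.rev_succ]
        exact hf.2.2.2 _
    · intro f hf
      simp only [Finset.coe_filter, Set.mem_setOf_eq, mem_univ, true_and] at hf ⊢
      refine ⟨hf.1.comp Fin.rev_injective, ?_, ?_, ?_⟩
      · simpa using hf.2.2.1
      · simpa using hf.2.1
      · intro i
        simp only [Function.comp_apply, Fin.rev_castSucc, Fin.rev_succ]
        exact hf.2.2.2 _
    · intro f _
      exact comp_rev_rev f
    · intro f _
      exact comp_rev_rev f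

end

end Pool.Agent.H921K
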