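import Pool.Agent.H921K.Defs
import Pool.Agent.H921S.CARD

set_option autoImplicit false

namespace Pool.Agent.H921K

open Finset Pool.Agent.H921S
open scoped Classical

noncomputable section

namespace PNBaux

variable {n : ℕ}

theorem neg_neg' (u : Lit n) : neg (neg u) = u := by
  unfold neg
  simp

theorem gB_symm (a l c : ℕ) (w : Fin (a + l + c + 4) → Lit n) (u v : Lit n)
    (h : gB a l c w u v) : gB a l c w (neg v) (neg u) := by
  obtain ⟨i, hi, h⟩ := h
  refine ⟨i, hi, ?_⟩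
  rw [neg_neg', Finset.pair_comm, h]

theorem wt_nonneg {V : Type} [Fintype V] (g : V → V → Prop) {p : ℝ} (hp : 0 ≤ p) (u v : V) :
    0 ≤ wt g p u v := by
  unfold wt
  split_ifs
  · exact zero_le_one
  · exact hp

theorem PS_nonneg {V : Type} [Fintype V] (g : V → V → Prop) {p : ℝ} (hp : 0 ≤ p) (t : ℕ)
    (u v : V) : 0 ≤ PS g p t u v :=
  Finset.sum_nonneg fun _ _ => Finset.prod_nonneg fun _ _ => wt_nonneg g hp _ _

theorem PF_nonneg {V : Type} [Fintype V] (g : V → V → Prop) {p : ℝ} (hp : 0 ≤ p) (t : ℕ)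
    (u v : V) : 0 ≤ PF g p t u v :=
  Finset.sum_nonneg fun _ _ => Finset.prod_nonneg fun _ _ => wt_nonneg g hp _ _

theorem sum_filter_le {α : Type} (U : Finset α) (P R : α → Prop) (iP : DecidablePred P)
    (iR : DecidablePred R) (h : ∀ a, P a → R a) (F : α → ℝ) (hF : ∀ a, 0 ≤ F a) :
    ∑ a ∈ @Finset.filter α P iP U, F a ≤ ∑ a ∈ @Finset.filter α R iR U, F a := by
  refine Finset.sum_le_sum_of_subset_of_nonneg ?_ (fun a _ _ => hF a)
  intro a ha
  rw [Finset.mem_filter] at ha ⊢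
  exact ⟨ha.1, h a ha.2⟩

theorem PN_le_PS (g : Lit n → Lit n → Prop) {p : ℝ} (hp : 0 ≤ p) (t : ℕ) (u : Lit n) :
    PN g p t u ≤ PS g p t u (neg u) := by
  unfold PN PS
  refine sum_filter_le _ _ _ _ _ ?_ _
    (fun _ => Finset.prod_nonneg fun _ _ => wt_nonneg g hp _ _)
  rintro f ⟨h1, h2, h3, h4⟩
  exact ⟨h1, h2, h3⟩

theorem PN_le_PF (g : Lit n → Lit n → Prop) {p : ℝ} (hp : 0 ≤ p) (t : ℕ) (u : Lit n)
    (hs : ∀ a b, g a b → g (neg b) (neg a)) (ho : (univ.filter (fun v => g u v)).card ≤ 1) :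
    PN g p t u ≤ PF g p t u (neg u) := by
  unfold PN PF
  refine sum_filter_le _ _ _ _ _ ?_ _
    (fun _ => Finset.prod_nonneg fun _ _ => wt_nonneg g hp _ _)
  rintro f ⟨h1, h2, h3, h4⟩
  refine ⟨h1, h2, h3, ?_⟩
  rintro i j hi hj ⟨hg1, hg2⟩
  have hne := h4 i j hi hj
  have e1 : f i.castSucc = u := by
    rw [← h2]
    congr 1
    ext
    simp [hi]
  have e2 : f j.succ = neg u := by
    rw [← h3]
    congr 1
    ext
    simp [hj]
  rw [e1] at hg1
  rw [e2] at hg2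
  have hg3 : g u (neg (f j.castSucc)) := by
    have := hs _ _ hg2
    rwa [neg_neg'] at this
  have hm1 : f i.succ ∈ univ.filter (fun v => g u v) :=
    Finset.mem_filter.mpr ⟨Finset.mem_univ _, hg1⟩
  have hm2 : neg (f j.castSucc) ∈ univ.filter (fun v => g u v) :=
    Finset.mem_filter.mpr ⟨Finset.mem_univ _, hg3⟩
  exact hne (Finset.card_le_one.mp ho _ hm1 _ hm2)

theorem shift_sum (S : ℕ) (X Y : ℕ → ℝ) (hY : ∀ t, 0 ≤ Y t) (hXY : ∀ t, X t ≤ Y t) :
    ∑ t ∈ range S, X (t + 2) ≤ ∑ t ∈ Ico 1 (S + 1 + 1), Y t := by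
  calc ∑ t ∈ range S, X (t + 2) ≤ ∑ t ∈ range S, Y (t + 2) :=
        Finset.sum_le_sum fun t _ => hXY _
    _ = ∑ t ∈ Ico (0 + 2) (S + 2), Y t := by
        rw [Finset.range_eq_Ico, Finset.sum_Ico_add']
    _ ≤ ∑ t ∈ Ico 1 (S + 1 + 1), Y t := by
        refine Finset.sum_le_sum_of_subset_of_nonneg ?_ (fun _ _ _ => hY _)
        intro t ht
        rw [Finset.mem_Ico] at ht ⊢
        omega

theorem pp_le {n S m : ℕ} (h : Adm n S m) : 0 ≤ pp n m ∧
    pp n m * Fintype.card (Lit n) ≤ 1 ∧ pp n m ≤ 1 / (2 * (S : ℝ) ^ 3) := by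
  obtain ⟨hS, h1, h2, h3, h4⟩ := h
  have hS0 : (0 : ℝ) < S := by exact_mod_cast (by omega : 0 < S)
  have hn64 : 2 ≤ n := by
    have : 4 ^ 3 ≤ S ^ 3 := Nat.pow_le_pow_left hS 3
    omega
  have hn : (2 : ℝ) ≤ n := by exact_mod_cast hn64
  have hm : m ≤ n - 1 := by
    have h5 : m * S ≤ (n - 1) * S := h3.trans (Nat.mul_le_mul_left _ (Nat.sub_le _ _))
    exact Nat.le_of_mul_le_mul_right h5 (by omega)
  have hm' : (m : ℝ) ≤ n - 1 := by
    have h6 : m + 1 ≤ n := by omega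
    have : (m : ℝ) + 1 ≤ n := by exact_mod_cast h6
    linarith
  have hNN : NN 2 n = 2 * n * (n - 1) := by
    unfold NN
    rw [CARD_thm 2 n]
    push_cast
    rw [Nat.cast_choose_two]
    ring
  have hNpos : 0 < 2 * (n : ℝ) * (n - 1) := by
    have : (0 : ℝ) < n - 1 := by linarith
    positivity
  have hcube : (S : ℝ) ^ 3 ≤ n := by exact_mod_cast h1
  have hpn : pp n m ≤ 1 / (2 * (n : ℝ)) := by
    unfold pp
    rw [hNN, div_le_div_iff₀ hNpos (by linarith)]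
    nlinarith
  refine ⟨?_, ?_, ?_⟩
  · unfold pp
    rw [hNN]
    exact div_nonneg (Nat.cast_nonneg _) hNpos.le
  · have hc : (Fintype.card (Lit n) : ℝ) = 2 * n := by
      rw [Fintype.card_prod, Fintype.card_fin, Fintype.card_bool]
      push_cast
      ring
    rw [hc]
    calc pp n m * (2 * (n : ℝ)) ≤ 1 / (2 * (n : ℝ)) * (2 * (n : ℝ)) :=
          mul_le_mul_of_nonneg_right hpn (by linarith)
      _ = 1 := by
          have : (n : ℝ) ≠ 0 := by linarith
          field_simp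
  · refine hpn.trans ?_
    exact one_div_le_one_div_of_le (by positivity) (by linarith)

theorem EE_le {n S m : ℕ} (h : Adm n S m) (Sp Q : Finset (Lit n)) (hSp : Sp.card ≤ 4)
    (hQ : Q.card ≤ 8 * S) : EE Sp Q (S + 1) ≤ Real.exp 256 := by
  obtain ⟨hS, h1, h2, h3, h4⟩ := h
  have hS0 : (4 : ℝ) ≤ S := by exact_mod_cast hS
  have hcube : (S : ℝ) ^ 3 ≤ n := by exact_mod_cast h1
  unfold EE
  refine Real.exp_le_exp.mpr ?_
  have hc : (Fintype.card (Lit n) : ℝ) = 2 * n := by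
    rw [Fintype.card_prod, Fintype.card_fin, Fintype.card_bool]
    push_cast
    ring
  have hS3 : 0 < (S : ℝ) ^ 3 := by positivity
  rw [hc, div_le_iff₀ (by linarith)]
  have e1 : (2 : ℝ) ^ Sp.card ≤ 16 := by
    calc (2 : ℝ) ^ Sp.card ≤ 2 ^ 4 := pow_le_pow_right₀ (by norm_num) hSp
      _ = 16 := by norm_num
  have e2 : (Q.card : ℝ) ≤ 8 * S := by exact_mod_cast hQ
  have e3 : (((S + 1 : ℕ) : ℝ)) ^ 2 ≤ 4 * (S : ℝ) ^ 2 := by
    push_cast
    nlinarith
  calc (2 : ℝ) ^ Sp.card * (Q.card : ℝ) * (((S + 1 : ℕ) : ℝ)) ^ 2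
      ≤ 16 * (8 * S) * (4 * (S : ℝ) ^ 2) := by gcongr
    _ = 256 * (2 * (S : ℝ) ^ 3) := by ring
    _ ≤ 256 * (2 * (n : ℝ)) := by linarith

theorem kap_le {S : ℕ} (hS : 4 ≤ S) (Sp Q : Finset (Lit n)) (hSp : Sp.card ≤ 4) (u : Lit n) :
    0 ≤ kap Sp Q (S + 1) u ∧ kap Sp Q (S + 1) u ≤ 32 * S := by
  have hS0 : (4 : ℝ) ≤ S := by exact_mod_cast hS
  have e1 : (2 : ℝ) ^ Sp.card ≤ 16 := by
    calc (2 : ℝ) ^ Sp.card ≤ 2 ^ 4 := pow_le_pow_right₀ (by norm_num) hSp
      _ = 16 := by norm_num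
  unfold kap
  split_ifs
  · refine ⟨by positivity, ?_⟩
    push_cast
    calc (2 : ℝ) ^ Sp.card * ((S : ℝ) + 1 + 1) ≤ 16 * (2 * S) := by
          refine mul_le_mul e1 (by linarith) (by positivity) (by norm_num)
      _ = 32 * S := by ring
  · exact ⟨zero_le_one, by linarith⟩

end PNBaux

open PNBaux in
theorem t_PNB (h4 : S_G4) (h5 : S_G5) (hD : S_DEG) : S_PNB := by
  refine ⟨16 + 2048 * Real.exp 256, by positivity, ?_⟩
  intro n S m hAdm a l c w ha hl hc hw u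
  obtain ⟨hThin, hSp, hQ, hSpn, hQn⟩ := hD n a l c w hw
  obtain ⟨hp0, hp1, hp2⟩ := pp_le hAdm
  have hS : 4 ≤ S := hAdm.1
  have hS0 : (4 : ℝ) ≤ S := by exact_mod_cast hS
  have hSpos : (0 : ℝ) < S := by linarith
  have hQ' : (QB a l c w).card ≤ 8 * S := by omega
  have hE := EE_le hAdm (SpB a l c w) (QB a l c w) hSp hQ'
  have hE0 : 0 ≤ EE (SpB a l c w) (QB a l c w) (S + 1) := (Real.exp_pos _).le
  set p := pp n m with hp
  set E := EE (SpB a l c w) (QB a l c w) (S + 1) with hEdef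
  set e0 := Real.exp 256 with he0
  have he0pos : 0 < e0 := Real.exp_pos _
  have hL1 : (((S + 1 : ℕ) : ℝ) + 1) ≤ 2 * S := by push_cast; linarith
  obtain ⟨hk1, hk2⟩ := kap_le hS (SpB a l c w) (QB a l c w) hSp u
  obtain ⟨hk3, hk4⟩ := kap_le hS (SpB a l c w) (QB a l c w) hSp (neg u)
  have e1 : (2 : ℝ) ^ (SpB a l c w).card ≤ 16 := by
    calc (2 : ℝ) ^ (SpB a l c w).card ≤ 2 ^ 4 := pow_le_pow_right₀ (by norm_num) hSp
      _ = 16 := by norm_num
  by_cases huS : u ∈ SpB a l c w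
  · have hsum := shift_sum S (fun t => PN (gB a l c w) p t u)
      (fun t => PS (gB a l c w) p t u (neg u)) (fun t => PS_nonneg _ hp0 _ _ _)
      (fun t => PN_le_PS _ hp0 _ _)
    have hG := h4 (Lit n) (gB a l c w) (SpB a l c w) (QB a l c w) p (S + 1) hThin hp0 hp1 u (neg u)
    refine (hsum.trans hG).trans ?_
    unfold hB
    rw [if_pos huS, mul_one]
    have h7 : 2 * (((S + 1 : ℕ) : ℝ) + 1) * E * p * kap (SpB a l c w) (QB a l c w) (S + 1) u *
        kap (SpB a l c w) (QB a l c w) (S + 1) (neg u) ≤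
        2 * (2 * S) * e0 * (1 / (2 * (S : ℝ) ^ 3)) * (32 * S) * (32 * S) := by
      gcongr
    have h8 : 2 * (2 * (S : ℝ)) * e0 * (1 / (2 * (S : ℝ) ^ 3)) * (32 * S) * (32 * S) =
        2048 * e0 := by
      field_simp
      ring
    refine (add_le_add (?_ : _ ≤ (16 : ℝ)) h7).trans ?_
    · split_ifs
      · exact e1
      · norm_num
    · linarith
  · have hout : (univ.filter (fun v => gB a l c w u v)).card ≤ 1 := hThin.2.2.1 u huS
    have hsum := shift_sum S (fun t => PN (gB a l c w) p t u)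
      (fun t => PF (gB a l c w) p t u (neg u)) (fun t => PF_nonneg _ hp0 _ _ _)
      (fun t => PN_le_PF _ hp0 _ _ (gB_symm a l c w) hout)
    have hG := h5 (Lit n) (gB a l c w) (SpB a l c w) (QB a l c w) p (S + 1) hThin hp0 hp1 u (neg u)
    refine (hsum.trans hG).trans ?_
    unfold hB
    rw [if_neg huS]
    by_cases huQ : u ∈ QB a l c w
    · rw [if_pos huQ]
      have h7 : 2 * (((S + 1 : ℕ) : ℝ) + 1) * E * p * (kap (SpB a l c w) (QB a l c w) (S + 1) u +
          kap (SpB a l c w) (QB a l c w) (S + 1) (neg u)) ≤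
          2 * (2 * S) * e0 * (1 / (2 * (S : ℝ) ^ 3)) * (32 * S + 32 * S) := by
        gcongr
      refine h7.trans ?_
      have h8 : 2 * (2 * (S : ℝ)) * e0 * (1 / (2 * (S : ℝ) ^ 3)) * (32 * S + 32 * S) =
          (128 * e0) * (1 / S) := by
        field_simp
        ring
      rw [h8]
      refine mul_le_mul_of_nonneg_right (by linarith) (by positivity)
    · rw [if_neg huQ]
      have huQ' : neg u ∉ QB a l c w := fun h => huQ ((hQn u).mpr h)
      have hk5 : kap (SpB a l c w) (QB a l c w) (S + 1) u = 1 := by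
        unfold kap
        rw [if_neg huQ]
      have hk6 : kap (SpB a l c w) (QB a l c w) (S + 1) (neg u) = 1 := by
        unfold kap
        rw [if_neg huQ']
      rw [hk5, hk6]
      have h7 : 2 * (((S + 1 : ℕ) : ℝ) + 1) * E * p * (1 + 1) ≤
          2 * (2 * S) * e0 * (1 / (2 * (S : ℝ) ^ 3)) * (1 + 1) := by
        gcongr
      refine h7.trans ?_
      have h8 : 2 * (2 * (S : ℝ)) * e0 * (1 / (2 * (S : ℝ) ^ 3)) * (1 + 1) =
          (4 * e0) * (1 / (S : ℝ) ^ 2) := by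
        field_simp
        ring
      rw [h8]
      refine mul_le_mul_of_nonneg_right (by linarith) (by positivity)

end

end Pool.Agent.H921K
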