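import Pool.Agent.H921K.Defs

/-! Clauses outside a bicycle as a product. -/

set_option autoImplicit false

namespace Pool.Agent.H921K

open Finset Pool.Agent.H921S
open scoped Classical

noncomputable section

theorem PRDaux.lits_inj {n : ℕ} : Function.Injective (Clause.lits : Clause 2 n → Finset (Lit n)) :=
  fun _ _ h => Clause.ext h

theorem PRDaux.image_eq (hD : S_DIST) {n : ℕ} (a l c : ℕ) (w : Fin (a + l + c + 4) → Lit n)
    (hw : DV w) :
    (BF a l c w).image Clause.lits = (range (a + l + c + 5)).image (bc a l c w) := by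
  obtain ⟨hinj, hcard⟩ := hD n a l c w hw
  apply Finset.eq_of_subset_of_card_le
  · intro T hT
    obtain ⟨C, hC, rfl⟩ := Finset.mem_image.1 hT
    have h1 := (Finset.mem_filter.1 hC).2
    obtain ⟨i, hi, h2⟩ := h1
    exact Finset.mem_image.2 ⟨i, Finset.mem_range.2 hi, h2.symm⟩
  · rw [Finset.card_image_of_injective _ PRDaux.lits_inj, hcard]
    exact Finset.card_image_le.trans (by simp)

theorem t_PRD (hD : S_DIST) : S_PRD := by
  intro n a l c a' l' c' w w' p hw hw' hp
  obtain ⟨hinj', hcard'⟩ := hD n a' l' c' w' hw'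
  have himg := PRDaux.image_eq hD a' l' c' w' hw'
  have h1 : ∏ i ∈ range (a' + l' + c' + 5),
      wt (gB a l c w) p (ex a' l' c' w' i) (ex a' l' c' w' (i + 1)) =
      ∏ i ∈ range (a' + l' + c' + 5),
        (fun T : Finset (Lit n) => if ∃ j < a + l + c + 5, T = bc a l c w j then (1 : ℝ) else p)
          (bc a' l' c' w' i) := by
    refine Finset.prod_congr rfl fun i _ => ?_
    by_cases h : ∃ j < a + l + c + 5, bc a' l' c' w' i = bc a l c w j
    · have h' : gB a l c w (ex a' l' c' w' i) (ex a' l' c' w' (i + 1)) := h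
      simp only [wt]
      rw [if_pos h', if_pos h]
    · have h' : ¬ gB a l c w (ex a' l' c' w' i) (ex a' l' c' w' (i + 1)) := h
      simp only [wt]
      rw [if_neg h', if_neg h]
  rw [h1, ← Finset.prod_image (s := range (a' + l' + c' + 5)) (g := bc a' l' c' w')
    (f := fun T : Finset (Lit n) => if ∃ j < a + l + c + 5, T = bc a l c w j then (1 : ℝ) else p)]
  · rw [← himg, Finset.prod_image (fun x _ y _ h => PRDaux.lits_inj h)]
    have h2 : ∀ C ∈ BF a' l' c' w',
        (if ∃ j < a + l + c + 5, C.lits = bc a l c w j then (1 : ℝ) else p) =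
          if C ∈ BF a l c w then 1 else p := by
      intro C _
      have : (∃ j < a + l + c + 5, C.lits = bc a l c w j) ↔ C ∈ BF a l c w := by
        simp [BF]
      simp only [this]
    rw [Finset.prod_congr rfl h2, Finset.prod_ite]
    simp only [Finset.prod_const_one, one_mul, Finset.prod_const]
    congr 1
    rw [Finset.sdiff_eq_filter]
  · intro i hi j hj h
    exact hinj' (by simpa using hi) (by simpa using hj) h

end

end Pool.Agent.H921K
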