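import Pool.Agent.H921K.Defs

set_option autoImplicit false

namespace Pool.Agent.H921K

open Finset Pool.Agent.H921S
open scoped Classical

noncomputable section

namespace PZaux

theorem ind_union {Ω : Type} [DecidableEq Ω] (A B C : Finset Ω) :
    ind (A ∪ B ⊆ C) = ind (A ⊆ C) * ind (B ⊆ C) := by
  unfold ind
  by_cases h1 : A ⊆ C <;> by_cases h2 : B ⊆ C <;> simp [h1, h2, union_subset_iff]

theorem ind_sq (P : Prop) : ind P ^ 2 = ind P := by
  unfold ind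
  by_cases h : P <;> simp [h]

theorem ind_mul_ex {Ω ι : Type} (B : ι → Finset Ω) (C : Finset Ω) (i : ι) :
    ind (B i ⊆ C) * ind (∃ i, B i ⊆ C) = ind (B i ⊆ C) := by
  unfold ind
  by_cases h : B i ⊆ C
  · have h' : ∃ i, B i ⊆ C := ⟨i, h⟩
    rw [if_pos h, if_pos h', mul_one]
  · rw [if_neg h, zero_mul]

end PZaux

open PZaux

theorem t_PZ : S_PZ := by
  intro Ω _ _ ι _ B m
  have hne : Nonempty (Pool.Agent.H921S.Ord Ω) := ⟨(Fintype.equivFin Ω).symm⟩
  have hD : (0 : ℝ) < (Fintype.card (Pool.Agent.H921S.Ord Ω) : ℝ) := by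
    exact_mod_cast Fintype.card_pos
  unfold avg
  have e1 : ∑ i, (∑ σ : Pool.Agent.H921S.Ord Ω, ind (B i ⊆ st σ m)) /
      (Fintype.card (Pool.Agent.H921S.Ord Ω) : ℝ) =
      (∑ σ : Pool.Agent.H921S.Ord Ω, ∑ i, ind (B i ⊆ st σ m)) /
        (Fintype.card (Pool.Agent.H921S.Ord Ω) : ℝ) := by
    rw [← Finset.sum_div, Finset.sum_comm]
  have e2 : ∑ i, ∑ j, (∑ σ : Pool.Agent.H921S.Ord Ω, ind (B i ∪ B j ⊆ st σ m)) /
      (Fintype.card (Pool.Agent.H921S.Ord Ω) : ℝ) =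
      (∑ σ : Pool.Agent.H921S.Ord Ω, (∑ i, ind (B i ⊆ st σ m)) ^ 2) /
        (Fintype.card (Pool.Agent.H921S.Ord Ω) : ℝ) := by
    have h1 : ∀ i, ∑ j, (∑ σ : Pool.Agent.H921S.Ord Ω, ind (B i ∪ B j ⊆ st σ m)) /
      (Fintype.card (Pool.Agent.H921S.Ord Ω) : ℝ) =
      (∑ σ : Pool.Agent.H921S.Ord Ω, ∑ j, ind (B i ⊆ st σ m) * ind (B j ⊆ st σ m)) /
      (Fintype.card (Pool.Agent.H921S.Ord Ω) : ℝ) := by
      intro i
      rw [← Finset.sum_div, Finset.sum_comm]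
      congr 1
      apply Finset.sum_congr rfl
      intro σ _
      apply Finset.sum_congr rfl
      intro j _
      exact ind_union _ _ _
    rw [Finset.sum_congr rfl (fun i _ => h1 i), ← Finset.sum_div, Finset.sum_comm]
    congr 1
    apply Finset.sum_congr rfl
    intro σ _
    rw [sq, Finset.sum_mul_sum]
  rw [e1, e2]
  have e3 : (∑ σ : Pool.Agent.H921S.Ord Ω, ∑ i, ind (B i ⊆ st σ m)) =
      ∑ σ : Pool.Agent.H921S.Ord Ω, (∑ i, ind (B i ⊆ st σ m)) * ind (∃ i, B i ⊆ st σ m) := by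
    apply Finset.sum_congr rfl
    intro σ _
    rw [Finset.sum_mul]
    apply Finset.sum_congr rfl
    intro i _
    exact (ind_mul_ex B (st σ m) i).symm
  have e4 := Finset.sum_mul_sq_le_sq_mul_sq (Finset.univ : Finset (Pool.Agent.H921S.Ord Ω))
    (fun σ => ∑ i, ind (B i ⊆ st σ m)) (fun σ => ind (∃ i, B i ⊆ st σ m))
  rw [← e3] at e4
  simp only [ind_sq] at e4
  rw [div_pow, div_mul_div_comm, ← sq]
  apply div_le_div_of_nonneg_right _ (by positivity)
  rw [mul_comm]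
  exact e4

end

end Pool.Agent.H921K
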