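import Pool.Agent.H921K.Defs

/-! Task STRC (helper60): structure of uniquely satisfiable 2-formulas. -/

set_option autoImplicit false

namespace Pool.Agent.H921K

open Finset Pool.Agent.H921S
open scoped Classical

noncomputable section

namespace STRCaux

variable {n : ℕ}

def TT (a : Asg n) (H : Form 2 n) : Finset (Lit n) :=
  univ.filter (fun l : Lit n => l.1 ∈ vars H ∧ Tru a l)

def R (a : Asg n) (H : Form 2 n) (u v : Lit n) : Prop :=
  Arc H u v ∧ u ∈ TT a H ∧ v ∈ TT a H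

def Anc (a : Asg n) (H : Form 2 n) (u : Lit n) : Finset (Lit n) :=
  (TT a H).filter (fun v => Relation.ReflTransGen (R a H) v u)

lemma neg_neg' (l : Lit n) : neg (neg l) = l := by
  obtain ⟨v, s⟩ := l
  simp [neg]

lemma mem_TT {a : Asg n} {H : Form 2 n} {l : Lit n} :
    l ∈ TT a H ↔ l.1 ∈ vars H ∧ Tru a l := by
  simp [TT]

lemma mem_vars {H : Form 2 n} {C : Clause 2 n} (hC : C ∈ H) {l : Lit n} (hl : l ∈ C.lits) :
    l.1 ∈ vars H := by
  unfold vars
  rw [mem_biUnion]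
  exact ⟨C, hC, mem_image.2 ⟨l, hl, rfl⟩⟩

end STRCaux

open STRCaux in
theorem t_STRC : S_STRC := by
  intro n F hF
  obtain ⟨H, hHF, ⟨C0, hC0⟩, ⟨a, ha⟩, huniq⟩ := hF
  have hTne : (TT a H).Nonempty := by
    obtain ⟨l, hl, hla⟩ := ha C0 hC0
    exact ⟨l, mem_TT.2 ⟨mem_vars hC0 hl, hla⟩⟩
  obtain ⟨u, huT, humin⟩ := exists_min_image (TT a H) (fun u => (Anc a H u).card) hTne
  have hAncsub : ∀ v ∈ Anc a H u, u ∈ Anc a H v := by
    intro v hv
    have hv' := mem_filter.1 hv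
    have h1 : Anc a H v ⊆ Anc a H u := by
      intro w hw
      have hw' := mem_filter.1 hw
      exact mem_filter.2 ⟨hw'.1, hw'.2.trans hv'.2⟩
    have h2 : Anc a H v = Anc a H u := eq_of_subset_of_card_le h1 (humin v hv'.1)
    rw [h2]
    exact mem_filter.2 ⟨huT, Relation.ReflTransGen.refl⟩
  have hreach : ∀ x ∈ Anc a H u, ∀ y ∈ Anc a H u, Relation.ReflTransGen (R a H) x y := by
    intro x hx y hy
    exact (mem_filter.1 hx).2.trans (mem_filter.1 (hAncsub y hy)).2
  have hpred : ∀ z v, z ∈ TT a H → Arc H z v → v ∈ Anc a H u → z ∈ Anc a H u := by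
    intro z v hz hzv hv
    have hv' := mem_filter.1 hv
    exact mem_filter.2 ⟨hz, Relation.ReflTransGen.head ⟨hzv, hz, hv'.1⟩ hv'.2⟩
  have huS : u ∈ Anc a H u := mem_filter.2 ⟨huT, Relation.ReflTransGen.refl⟩
  set b : Asg n := fun v => if (v, a v) ∈ Anc a H u then !(a v) else a v with hb
  have hu2 := mem_TT.1 huT
  have hueq : (u.1, a u.1) = u := Prod.ext rfl hu2.2
  have hnb : ¬ Sol b H := by
    intro hsol
    have h1 := huniq a b ha hsol u.1 hu2.1
    have h2 : b u.1 = !(a u.1) := by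
      simp only [hb]
      rw [hueq, if_pos huS]
    rw [h2] at h1
    cases h : a u.1 <;> simp [h] at h1
  unfold Sol at hnb
  push Not at hnb
  obtain ⟨C, hCH, hC⟩ := hnb
  have htrue : ∀ l ∈ C.lits, Tru a l → l ∈ Anc a H u := by
    intro l hl hla
    have h1 := hC l hl
    by_contra hcon
    apply h1
    have h2 : (l.1, a l.1) = l := Prod.ext rfl hla
    show b l.1 = l.2
    simp only [hb]
    rw [h2, if_neg hcon]
    exact hla
  have hfalse : ∀ l ∈ C.lits, ¬ Tru a l → neg l ∈ TT a H ∧ neg l ∉ Anc a H u := by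
    intro l hl hla
    have h3 : a l.1 = !l.2 := by
      unfold Tru at hla
      cases h4 : a l.1 <;> cases h5 : l.2 <;> simp_all
    refine ⟨mem_TT.2 ⟨(mem_vars hCH hl : l.1 ∈ vars H), h3⟩, ?_⟩
    intro hcon
    have h1 := hC l hl
    apply h1
    have h2 : (l.1, a l.1) = neg l := Prod.ext rfl h3
    show b l.1 = l.2
    simp only [hb]
    rw [h2, if_pos hcon, h3]
    simp
  obtain ⟨l0, hl0, hl0a⟩ := ha C hCH
  obtain ⟨p, q, hpq, hCpq⟩ := card_eq_two.1 C.card_lits
  have key : ∀ p q : Lit n, p ≠ q → C.lits = {p, q} → Tru a p → Tru a q := by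
    intro p q hpq hCpq hp
    by_contra hq
    have hpC : p ∈ C.lits := by rw [hCpq]; simp
    have hqC : q ∈ C.lits := by rw [hCpq]; simp
    obtain ⟨h1, h2⟩ := hfalse q hqC hq
    apply h2
    refine hpred _ p h1 ⟨C, hCH, ?_⟩ (htrue p hpC hp)
    rw [neg_neg', hCpq, pair_comm]
  have hboth : Tru a p ∧ Tru a q := by
    have h1 : l0 = p ∨ l0 = q := by
      rw [hCpq] at hl0
      simpa using hl0
    rcases h1 with h1 | h1
    · subst h1
      exact ⟨hl0a, key _ _ hpq hCpq hl0a⟩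
    · subst h1
      refine ⟨key _ _ hpq.symm ?_ hl0a, hl0a⟩
      rw [hCpq, pair_comm]
  have hpC : p ∈ C.lits := by rw [hCpq]; simp
  have hqC : q ∈ C.lits := by rw [hCpq]; simp
  have hpS := htrue p hpC hboth.1
  have hqS := htrue q hqC hboth.2
  have hmono : ∀ x y, Relation.ReflTransGen (R a H) x y → Relation.ReflTransGen
      (fun u v => Arc F u v ∧ u ∈ (TT a H : Set (Lit n)) ∧ v ∈ (TT a H : Set (Lit n))) x y := by
    intro x y h
    induction h with
    | refl => exact Relation.ReflTransGen.refl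
    | tail _ h2 ih =>
      obtain ⟨⟨D, hD, hD2⟩, h2, h3⟩ := h2
      exact ih.tail ⟨⟨D, hHF hD, hD2⟩, Finset.mem_coe.2 h2, Finset.mem_coe.2 h3⟩
  refine ⟨p, q, (TT a H : Set (Lit n)), ?_, ?_, ?_, hpq, ⟨C, hHF hCH, hCpq⟩,
    hmono _ _ (hreach p hpS q hqS), hmono _ _ (hreach q hqS p hpS)⟩
  · intro l hl hl'
    have h1 := (mem_TT.1 (Finset.mem_coe.1 hl)).2
    have h2 := (mem_TT.1 (Finset.mem_coe.1 hl')).2
    unfold Tru at h1 h2
    simp only [neg] at h2
    rw [h1] at h2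
    cases h : l.2 <;> simp [h] at h2
  · exact Finset.mem_coe.2 (mem_filter.1 hpS).1
  · exact Finset.mem_coe.2 (mem_filter.1 hqS).1

end

end Pool.Agent.H921K
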