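import Pool.Agent.H921K.Defs

set_option autoImplicit false

namespace Pool.Agent.H921K

open Finset Pool.Agent.H921S
open scoped Classical

noncomputable section

namespace SUM2aux

variable {n : ℕ}

theorem wt_nonneg {V : Type} [Fintype V] (g : V → V → Prop) {p : ℝ} (hp : 0 ≤ p) (u v : V) :
    0 ≤ wt g p u v := by
  unfold wt
  split_ifs
  · norm_num
  · exact hp

theorem PS_nonneg {V : Type} [Fintype V] (g : V → V → Prop) {p : ℝ} (hp : 0 ≤ p) (t : ℕ)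
    (u v : V) : 0 ≤ PS g p t u v := by
  unfold PS
  exact Finset.sum_nonneg fun f _ => Finset.prod_nonneg fun i _ => wt_nonneg g hp _ _

theorem PN_nonneg (g : Lit n → Lit n → Prop) {p : ℝ} (hp : 0 ≤ p) (t : ℕ)
    (u : Lit n) : 0 ≤ PN g p t u := by
  unfold PN
  exact Finset.sum_nonneg fun f _ => Finset.prod_nonneg fun i _ => wt_nonneg g hp _ _

theorem hB_nonneg (S : ℕ) (Sp Q : Finset (Lit n)) (u : Lit n) : 0 ≤ hB S Sp Q u := by
  unfold hB
  split_ifs <;> positivity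

theorem kB_nonneg (S : ℕ) (Q : Finset (Lit n)) (u : Lit n) : 0 ≤ kB S Q u := by
  unfold kB
  split_ifs <;> positivity

theorem card_lit (n : ℕ) : (Fintype.card (Lit n) : ℝ) = 2 * n := by
  have : Fintype.card (Lit n) = n * 2 := by
    show Fintype.card (Fin n × Bool) = n * 2
    rw [Fintype.card_prod, Fintype.card_fin, Fintype.card_bool]
  rw [this]
  push_cast
  ring

theorem sum_hk {S m : ℕ} (hA : Adm n S m) (Sp Q : Finset (Lit n)) (hSp : Sp.card ≤ 4)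
    (hQ : Q.card ≤ 8 * S) : ∑ x : Lit n, hB S Sp Q x * kB S Q x ≤ 28 * S := by
  obtain ⟨hS4, -, hn, -, -⟩ := hA
  have hS : (4 : ℝ) ≤ S := by exact_mod_cast hS4
  have hn' : (n : ℝ) ≤ 8 * (S : ℝ) ^ 3 := by exact_mod_cast hn
  have hpt : ∀ x : Lit n, hB S Sp Q x * kB S Q x ≤
      (if x ∈ Sp then (S : ℝ) else 0) + (if x ∈ Q then (1 : ℝ) else 0) + 1 / (S : ℝ) ^ 2 := by
    intro x
    have hSpos : (0 : ℝ) < S := by linarith
    have h0 : 0 ≤ 1 / (S : ℝ) ^ 2 := by positivity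
    unfold hB kB
    by_cases h1 : x ∈ Sp <;> by_cases h2 : x ∈ Q
    · simp only [h1, h2, if_true]
      linarith
    · simp only [h1, h2, if_true, if_false]
      linarith
    · simp only [h1, h2, if_true, if_false]
      rw [one_div, inv_mul_cancel₀ hSpos.ne']
      linarith
    · simp only [h1, h2, if_false]
      linarith
  calc ∑ x : Lit n, hB S Sp Q x * kB S Q x
      ≤ ∑ x : Lit n, ((if x ∈ Sp then (S : ℝ) else 0) + (if x ∈ Q then (1 : ℝ) else 0) +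
          1 / (S : ℝ) ^ 2) := Finset.sum_le_sum fun x _ => hpt x
    _ = (Sp.card : ℝ) * S + Q.card + Fintype.card (Lit n) * (1 / (S : ℝ) ^ 2) := by
        rw [Finset.sum_add_distrib, Finset.sum_add_distrib, Finset.sum_const, Finset.card_univ,
          nsmul_eq_mul, Finset.sum_ite_mem, Finset.sum_ite_mem, Finset.univ_inter,
          Finset.univ_inter, Finset.sum_const, Finset.sum_const, nsmul_eq_mul, nsmul_eq_mul,
          mul_one]
    _ ≤ 4 * S + 8 * S + 16 * S := by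
        have h1 : (Sp.card : ℝ) * S ≤ 4 * S := by
          apply mul_le_mul_of_nonneg_right _ (by linarith)
          exact_mod_cast hSp
        have h2 : (Q.card : ℝ) ≤ 8 * S := by exact_mod_cast hQ
        have h3 : (Fintype.card (Lit n) : ℝ) * (1 / (S : ℝ) ^ 2) ≤ 16 * S := by
          rw [card_lit, mul_one_div, div_le_iff₀ (by positivity)]
          nlinarith
        linarith
    _ = 28 * S := by ring

end SUM2aux

open SUM2aux

theorem t_SUM2 (hPRD : S_PRD) (hDEC : S_DEC) (hDEG : S_DEG) (hPNB : S_PNB) (hMUB : S_MUB) :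
    S_SUM2 := by
  obtain ⟨C1, hC1, h1⟩ := hPNB
  obtain ⟨C2, hC2, h2⟩ := hMUB
  refine ⟨784 * (C1 ^ 2 * C2), ?_⟩
  intro n S m hA b
  obtain ⟨⟨a, l, c⟩, w, hw⟩ := b
  have hp : 0 ≤ pp n m := by
    unfold pp
    positivity
  have hS4 : 4 ≤ S := hA.1
  have hS : (4 : ℝ) ≤ S := by exact_mod_cast hS4
  have h1' := h1 n S m hA a l c w a.2 l.2 c.2 hw
  have h2' := h2 n S m hA a l c w a.2 l.2 c.2 hw
  obtain ⟨-, hSp, hQ, hSpn, hQn⟩ := hDEG n a l c w hw
  obtain ⟨g, hg⟩ : ∃ g, g = gB (a : ℕ) (l : ℕ) (c : ℕ) w := ⟨_, rfl⟩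
  obtain ⟨Sp, hSp'⟩ : ∃ Sp, Sp = SpB (a : ℕ) (l : ℕ) (c : ℕ) w := ⟨_, rfl⟩
  obtain ⟨Q, hQ'⟩ : ∃ Q, Q = QB (a : ℕ) (l : ℕ) (c : ℕ) w := ⟨_, rfl⟩
  obtain ⟨p, hp'⟩ : ∃ p, p = pp n m := ⟨_, rfl⟩
  rw [← hg, ← hSp', ← hQ', ← hp'] at h1'
  rw [← hg, ← hQ', ← hp'] at h2'
  rw [← hSp'] at hSp hSpn
  rw [← hQ'] at hQ hQn
  rw [← hp'] at hp
  have hQ8 : Q.card ≤ 8 * S := by
    have := a.2
    have := l.2
    have := c.2
    omega
  -- one shape
  have key : ∀ t : Fin S × Fin S × Fin S,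
      ∑ w' : {w' : Fin ((t.1 : ℕ) + (t.2.1 : ℕ) + (t.2.2 : ℕ) + 4) → Lit n // DV w'},
        p ^ (BF (t.1 : ℕ) (t.2.1 : ℕ) (t.2.2 : ℕ) w'.1 \ BF (a : ℕ) (l : ℕ) (c : ℕ) w).card ≤
      ∑ x : Lit n, ∑ y : Lit n, PN g p ((t.1 : ℕ) + 2) (neg x) * PS g p ((t.2.1 : ℕ) + 1) x y *
        PN g p ((t.2.2 : ℕ) + 2) y := by
    intro t
    refine le_trans (le_of_eq ?_) (hDEC n (t.1 : ℕ) (t.2.1 : ℕ) (t.2.2 : ℕ) g p hp)
    apply Finset.sum_congr rfl
    intro w' _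
    rw [hg]
    exact hPRD n a l c t.1 t.2.1 t.2.2 w w'.1 p hw w'.2 hp
  -- the sum
  have hsum : ∑ b' : BI S n, pp n m ^ (BB b' \ BB ⟨(a, l, c), ⟨w, hw⟩⟩).card =
      ∑ t : Fin S × Fin S × Fin S,
      ∑ w' : {w' : Fin ((t.1 : ℕ) + (t.2.1 : ℕ) + (t.2.2 : ℕ) + 4) → Lit n // DV w'},
        p ^ (BF (t.1 : ℕ) (t.2.1 : ℕ) (t.2.2 : ℕ) w'.1 \ BF (a : ℕ) (l : ℕ) (c : ℕ) w).card := by
    rw [hp', Fintype.sum_sigma]
    rfl
  rw [hsum]
  have hneg : ∀ x, hB S Sp Q (neg x) = hB S Sp Q x := by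
    intro x
    unfold hB
    simp only [← hSpn x, ← hQn x]
  calc ∑ t : Fin S × Fin S × Fin S,
      ∑ w' : {w' : Fin ((t.1 : ℕ) + (t.2.1 : ℕ) + (t.2.2 : ℕ) + 4) → Lit n // DV w'},
        p ^ (BF (t.1 : ℕ) (t.2.1 : ℕ) (t.2.2 : ℕ) w'.1 \ BF (a : ℕ) (l : ℕ) (c : ℕ) w).card
      ≤ ∑ t : Fin S × Fin S × Fin S, ∑ x : Lit n, ∑ y : Lit n,
        PN g p ((t.1 : ℕ) + 2) (neg x) * PS g p ((t.2.1 : ℕ) + 1) x y *
        PN g p ((t.2.2 : ℕ) + 2) y := Finset.sum_le_sum fun t _ => key t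
    _ = ∑ x : Lit n, ∑ y : Lit n, (∑ i ∈ range S, PN g p (i + 2) (neg x)) *
        (∑ i ∈ range S, PS g p (i + 1) x y) * (∑ i ∈ range S, PN g p (i + 2) y) := by
        rw [Finset.sum_comm]
        apply Finset.sum_congr rfl
        intro x _
        rw [Finset.sum_comm]
        apply Finset.sum_congr rfl
        intro y _
        rw [Finset.sum_range, Finset.sum_range, Finset.sum_range]
        simp only [Fintype.sum_prod_type, ← Finset.mul_sum, ← Finset.sum_mul]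
    _ ≤ ∑ x : Lit n, ∑ y : Lit n, (C1 * hB S Sp Q x) * (C2 * kB S Q x * kB S Q y / (S : ℝ) ^ 2) *
        (C1 * hB S Sp Q y) := by
        apply Finset.sum_le_sum
        intro x _
        apply Finset.sum_le_sum
        intro y _
        have e1 := h1' (neg x)
        rw [hneg x] at e1
        have e2 := h2' x y
        have e3 := h1' y
        have f1 : 0 ≤ ∑ i ∈ range S, PN g p (i + 2) (neg x) :=
          Finset.sum_nonneg fun i _ => PN_nonneg g hp _ _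
        have f2 : 0 ≤ ∑ i ∈ range S, PS g p (i + 1) x y :=
          Finset.sum_nonneg fun i _ => PS_nonneg g hp _ _ _
        have f3 : 0 ≤ ∑ i ∈ range S, PN g p (i + 2) y :=
          Finset.sum_nonneg fun i _ => PN_nonneg g hp _ _
        exact mul_le_mul (mul_le_mul e1 e2 f2 (f1.trans e1)) e3 f3
          (mul_nonneg (f1.trans e1) (f2.trans e2))
    _ = C1 ^ 2 * C2 / (S : ℝ) ^ 2 * (∑ x : Lit n, hB S Sp Q x * kB S Q x) ^ 2 := by
        rw [sq (∑ x : Lit n, hB S Sp Q x * kB S Q x), Finset.sum_mul_sum, Finset.mul_sum]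
        apply Finset.sum_congr rfl
        intro x _
        rw [Finset.mul_sum]
        apply Finset.sum_congr rfl
        intro y _
        ring
    _ ≤ C1 ^ 2 * C2 / (S : ℝ) ^ 2 * (28 * S) ^ 2 := by
        apply mul_le_mul_of_nonneg_left _ (by positivity)
        apply pow_le_pow_left₀
        · exact Finset.sum_nonneg fun x _ => mul_nonneg (hB_nonneg _ _ _ _) (kB_nonneg _ _ _)
        · exact sum_hk hA Sp Q hSp hQ8
    _ = 784 * (C1 ^ 2 * C2) := by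
        have : (S : ℝ) ≠ 0 := by linarith
        field_simp
        ring

end

end Pool.Agent.H921K
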