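import Pool.Agent.H921K.Defs

set_option autoImplicit false

namespace Pool.Agent.H921K

open Finset Pool.Agent.H921S
open scoped Classical

noncomputable section

namespace ULBaux

theorem ind_mono {P Q : Prop} (h : P → Q) : ind P ≤ ind Q := by
  unfold ind
  by_cases hP : P
  · rw [if_pos hP, if_pos (h hP)]
  · rw [if_neg hP]
    split_ifs <;> norm_num

theorem avg_mono {Ω : Type} [Fintype Ω] [DecidableEq Ω] (f g : Pool.Agent.H921S.Ord Ω → ℝ)
    (h : ∀ σ, f σ ≤ g σ) : avg f ≤ avg g := by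
  unfold avg
  exact div_le_div_of_nonneg_right (Finset.sum_le_sum fun σ _ => h σ) (by positivity)

theorem avg_nonneg {Ω : Type} [Fintype Ω] [DecidableEq Ω] (P : Pool.Agent.H921S.Ord Ω → Prop) :
    0 ≤ avg (fun σ => ind (P σ)) := by
  unfold avg ind
  refine div_nonneg (Finset.sum_nonneg fun σ _ => ?_) (by positivity)
  split_ifs <;> norm_num

end ULBaux

open ULBaux in
/-- ULB -/
theorem t_ULB (h1 : S_PZ) (h2 : S_E1) (h3 : S_E2) (h4 : S_UNS) : S_ULB := by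
  obtain ⟨c, hc, S0, hE1⟩ := h2
  obtain ⟨C, hC, hE2⟩ := h3
  refine ⟨c ^ 2 / C, by positivity, S0, ?_⟩
  intro n S m hA hS
  have a1 := hE1 n S m hA hS
  have a2 := hE2 n S m hA
  have a3 := h1 (Clause 2 n) (BI S n) (fun b => BB b) m
  have a4 : 0 ≤ avg (fun σ : OC n => ind (∃ b : BI S n, BB b ⊆ st σ m)) := avg_nonneg _
  have a5 : c ^ 2 ≤ avg (fun σ : OC n => ind (∃ b : BI S n, BB b ⊆ st σ m)) * C := by
    calc c ^ 2 ≤ (∑ b : BI S n, avg (fun σ : OC n => ind (BB b ⊆ st σ m))) ^ 2 :=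
          pow_le_pow_left₀ hc.le a1 2
      _ ≤ _ := a3
      _ ≤ _ := mul_le_mul_of_nonneg_left a2 a4
  have a6 : avg (fun σ : OC n => ind (∃ b : BI S n, BB b ⊆ st σ m)) ≤
      avg (fun σ : OC n => ind (¬ Sat (st σ m))) := by
    refine avg_mono _ _ fun σ => ind_mono ?_
    rintro ⟨b, hb⟩
    exact h4 n b.1.1 b.1.2.1 b.1.2.2 b.2.1 (st σ m) b.2.2 hb
  rw [div_le_iff₀ hC]
  exact a5.trans (mul_le_mul_of_nonneg_right a6 hC.le)

end

end Pool.Agent.H921K
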