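import Pool.Agent.H921K.Defs

set_option autoImplicit false

namespace Pool.Agent.H921K

open Finset Pool.Agent.H921S
open scoped Classical

noncomputable section

namespace UNSaux

variable {n : ℕ}

/-- index of the variable at position `i` -/
def iv (a l c i : ℕ) : ℕ := if i = 0 then a + 1 else if i ≤ a + l + c + 4 then i - 1 else a + l + 2

theorem iv_lt (a l c i : ℕ) : iv a l c i < a + l + c + 4 := by
  unfold iv
  split_ifs <;> omega

theorem ex_fst (a l c : ℕ) (w : Fin (a + l + c + 4) → Lit n) (i : ℕ) :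
    (ex a l c w i).1 = (w ⟨iv a l c i, iv_lt a l c i⟩).1 := by
  unfold ex
  by_cases h0 : i = 0
  · subst h0
    simp [iv, neg]
  · by_cases h1 : i ≤ a + l + c + 4
    · simp [iv, h0, h1]
    · simp [iv, h0, h1, neg]

theorem iv_ne (a l c i : ℕ) (hi : i < a + l + c + 5) : iv a l c i ≠ iv a l c (i + 1) := by
  intro h
  unfold iv at h
  rw [if_neg (Nat.succ_ne_zero i)] at h
  by_cases h0 : i = 0
  · rw [if_pos h0, if_pos (by omega)] at h
    omega
  · rw [if_neg h0, if_pos (by omega)] at h
    by_cases h1 : i + 1 ≤ a + l + c + 4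
    · rw [if_pos h1] at h
      omega
    · rw [if_neg h1] at h
      omega

theorem fst_ne (a l c : ℕ) (w : Fin (a + l + c + 4) → Lit n) (hw : DV w) (i : ℕ)
    (hi : i < a + l + c + 5) : (ex a l c w i).1 ≠ (ex a l c w (i + 1)).1 := by
  intro h
  rw [ex_fst, ex_fst] at h
  have h2 := hw h
  exact iv_ne a l c i hi (by simpa using h2)

/-- the clause number `i` -/
def cl (a l c : ℕ) (w : Fin (a + l + c + 4) → Lit n) (hw : DV w) (i : ℕ)
    (hi : i < a + l + c + 5) : Clause 2 n where
  lits := bc a l c w i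
  card_lits := by
    unfold bc
    refine Finset.card_pair ?_
    intro h
    have h2 : (neg (ex a l c w i)).1 = (ex a l c w (i + 1)).1 := congrArg Prod.fst h
    exact fst_ne a l c w hw i hi h2
  distinct := by
    intro x hx y hy hxy
    unfold bc at hx hy
    simp only [Finset.mem_insert, Finset.mem_singleton] at hx hy
    rcases hx with rfl | rfl <;> rcases hy with rfl | rfl
    · rfl
    · exact absurd hxy (fst_ne a l c w hw i hi)
    · exact absurd hxy.symm (fst_ne a l c w hw i hi)
    · rfl

theorem tru_neg (s : Asg n) (u : Lit n) : Tru s (neg u) ↔ ¬ Tru s u := by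
  unfold Tru neg
  cases h : u.2 <;> cases h' : s u.1 <;> simp

theorem step (a l c : ℕ) (w : Fin (a + l + c + 4) → Lit n) (F : Form 2 n) (hw : DV w)
    (hF : BF a l c w ⊆ F) (s : Asg n) (hs : Sol s F) (i : ℕ) (hi : i < a + l + c + 5)
    (h : Tru s (ex a l c w i)) : Tru s (ex a l c w (i + 1)) := by
  have hC : cl a l c w hw i hi ∈ F := by
    apply hF
    unfold BF
    rw [Finset.mem_filter]
    exact ⟨Finset.mem_univ _, i, hi, rfl⟩
  obtain ⟨u, hu, hut⟩ := hs _ hC
  have hu' : u = neg (ex a l c w i) ∨ u = ex a l c w (i + 1) := by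
    have : u ∈ bc a l c w i := hu
    unfold bc at this
    simpa using this
  rcases hu' with rfl | rfl
  · exact absurd h ((tru_neg s _).mp hut)
  · exact hut

theorem chain (a l c : ℕ) (w : Fin (a + l + c + 4) → Lit n) (F : Form 2 n) (hw : DV w)
    (hF : BF a l c w ⊆ F) (s : Asg n) (hs : Sol s F) (i k : ℕ) (hi : i + k ≤ a + l + c + 5)
    (h : Tru s (ex a l c w i)) : Tru s (ex a l c w (i + k)) := by
  induction k with
  | zero => exact h
  | succ k ih => exact step a l c w F hw hF s hs (i + k) (by omega) (ih (by omega))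

end UNSaux

open UNSaux in
theorem t_UNS : S_UNS := by
  intro n a l c w F hw hF hsat
  obtain ⟨s, hs⟩ := hsat
  have hx0 : ex a l c w 0 = neg (w ⟨a + 1, by omega⟩) := by simp [ex]
  have hx : ex a l c w (a + 2) = w ⟨a + 1, by omega⟩ := by
    unfold ex
    rw [if_neg (by omega), dif_pos (by omega)]
    rfl
  have hy : ex a l c w (a + l + 3) = w ⟨a + l + 2, by omega⟩ := by
    unfold ex
    rw [if_neg (by omega), dif_pos (by omega)]
    rfl
  have hy0 : ex a l c w (a + l + c + 5) = neg (w ⟨a + l + 2, by omega⟩) := by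
    unfold ex
    rw [if_neg (by omega), dif_neg (by omega)]
  have hX : Tru s (w ⟨a + 1, by omega⟩) := by
    by_contra h
    have h1 : Tru s (ex a l c w 0) := by rw [hx0]; exact (tru_neg s _).mpr h
    have h2 := chain a l c w F hw hF s hs 0 (a + 2) (by omega) h1
    rw [Nat.zero_add, hx] at h2
    exact h h2
  have hY : Tru s (w ⟨a + l + 2, by omega⟩) := by
    rw [← hx] at hX
    have h2 := chain a l c w F hw hF s hs (a + 2) (l + 1) (by omega) hX
    rw [show a + 2 + (l + 1) = a + l + 3 by omega, hy] at h2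
    exact h2
  have h3 : Tru s (ex a l c w (a + l + 3)) := by rw [hy]; exact hY
  have h4 := chain a l c w F hw hF s hs (a + l + 3) (c + 2) (by omega) h3
  rw [show a + l + 3 + (c + 2) = a + l + c + 5 by omega, hy0] at h4
  exact (tru_neg s _).mp h4 hY

end

end Pool.Agent.H921K
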