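import Pool.Agent.H921K.Defs
import Pool.Agent.H921S.SUBS

/-! Task VB1 of helper921 (by helper135): union bound for cycles with a chord. -/

set_option autoImplicit false

namespace Pool.Agent.H921K

open Finset Pool.Agent.H921S
open scoped Classical

noncomputable section

namespace VB1aux

variable {n : ℕ}

/-- the next position on the cycle -/
def nx {w : ℕ} (i : Fin w) : Fin w :=
  if h : (i : ℕ) + 1 < w then ⟨i + 1, h⟩ else ⟨0, lt_of_le_of_lt (Nat.zero_le _) i.2⟩

def A {w : ℕ} (f : Fin w → Lit n) (i : Fin w) : Finset (Lit n) := {neg (f i), f (nx i)}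

def B {w : ℕ} (f : Fin w → Lit n) (s : Fin w) : Finset (Lit n) :=
  {f ⟨0, lt_of_le_of_lt (Nat.zero_le _) s.2⟩, f s}

def CL {w : ℕ} (f : Fin w → Lit n) (s : Fin w) : Form 2 n :=
  univ.filter (fun C : Clause 2 n => (∃ i, C.lits = A f i) ∨ C.lits = B f s)

lemma neg_ne (l : Lit n) : neg l ≠ l := by
  intro h
  have := congrArg Prod.snd h
  simp [neg] at this

lemma neg_fst (l : Lit n) : (neg l).1 = l.1 := rfl

lemma neg_inj {l l' : Lit n} (h : neg l = neg l') : l.1 = l'.1 := by
  have := congrArg Prod.fst h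
  exact this

lemma sub_card (F : Form 2 n) (w s : ℕ) (z : ℕ → Lit n) (h : TyI F w s z) (hs : s < w) :
    CL (fun i : Fin w => z i) ⟨s, hs⟩ ⊆ F ∧
      w + 1 ≤ (CL (fun i : Fin w => z i) ⟨s, hs⟩).card := by
  obtain ⟨h1, h2, hinj, harc, hlast, hch⟩ := h
  set f : Fin w → Lit n := fun i => z i with hf
  have hA : ∀ i : Fin w, Has F (neg (f i)) (f (nx i)) := by
    intro i
    unfold nx
    split_ifs with h
    · exact harc i h
    · have hi : (i : ℕ) = w - 1 := by have := i.2; omega
      show Has F (neg (z i)) (z 0)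
      rw [hi]
      exact hlast
  have hB : Has F (f ⟨0, lt_of_le_of_lt (Nat.zero_le _) hs⟩) (f ⟨s, hs⟩) := hch
  choose c hcF hcl using hA
  obtain ⟨c0, hc0F, hc0l⟩ := hB
  constructor
  · intro C hC
    rw [CL, mem_filter] at hC
    rcases hC.2 with ⟨i, hi⟩ | hi
    · have : C = c i := Clause.ext (hi.trans (hcl i).symm)
      rw [this]
      exact hcF i
    · have : C = c0 := Clause.ext (hi.trans hc0l.symm)
      rw [this]
      exact hc0F
  · have hv : ∀ i j : Fin w, (f i).1 = (f j).1 → i = j :=
      fun i j h => Fin.ext (hinj i i.2 j j.2 h)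
    have hnot : ∀ i j : Fin w, neg (f i) ≠ f j := by
      intro i j h
      have h' := hv i j (by rw [← h]; rfl)
      subst h'
      exact neg_ne _ h
    let Φ : Option (Fin w) → Clause 2 n := fun o => o.elim c0 c
    have hΦ : Function.Injective Φ := by
      intro o o' ho
      have hol : (Φ o).lits = (Φ o').lits := by rw [ho]
      match o, o' with
      | none, none => rfl
      | some i, none =>
        exfalso
        have e : A f i = B f ⟨s, hs⟩ := (hcl i).symm.trans (hol.trans hc0l)
        have hm : neg (f i) ∈ B f ⟨s, hs⟩ := by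
          rw [← e]; unfold A; simp
        unfold B at hm
        rw [mem_insert, mem_singleton] at hm
        rcases hm with hm | hm
        · exact hnot _ _ hm
        · exact hnot _ _ hm
      | none, some i =>
        exfalso
        have e : A f i = B f ⟨s, hs⟩ := (hcl i).symm.trans (hol.symm.trans hc0l)
        have hm : neg (f i) ∈ B f ⟨s, hs⟩ := by
          rw [← e]; unfold A; simp
        unfold B at hm
        rw [mem_insert, mem_singleton] at hm
        rcases hm with hm | hm
        · exact hnot _ _ hm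
        · exact hnot _ _ hm
      | some i, some j =>
        have e : A f i = A f j := (hcl i).symm.trans (hol.trans (hcl j))
        have hm : neg (f i) ∈ A f j := by
          rw [← e]; unfold A; simp
        unfold A at hm
        rw [mem_insert, mem_singleton] at hm
        rcases hm with hm | hm
        · rw [hv i j (neg_inj hm)]
        · exact absurd hm (hnot _ _)
    have hmem : ∀ o, Φ o ∈ CL f ⟨s, hs⟩ := by
      intro o
      rw [CL, mem_filter]
      refine ⟨mem_univ _, ?_⟩
      match o with
      | none => exact Or.inr hc0l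
      | some i => exact Or.inl ⟨i, hcl i⟩
    calc w + 1 = Fintype.card (Option (Fin w)) := by simp
      _ = (univ.image Φ).card := by rw [card_image_of_injective _ hΦ, card_univ]
      _ ≤ _ := by
        apply card_le_card
        intro C hC
        rw [mem_image] at hC
        obtain ⟨o, -, rfl⟩ := hC
        exact hmem o

lemma ind_nonneg (P : Prop) : 0 ≤ ind P := by
  unfold ind
  split_ifs <;> norm_num

lemma ind_true {P : Prop} (h : P) : ind P = 1 := by
  unfold ind
  rw [if_pos h]

lemma ind_false {P : Prop} (h : ¬ P) : ind P = 0 := by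
  unfold ind
  rw [if_neg h]

/-- the summand -/
def tm {w : ℕ} (F : Form 2 n) (s : Fin w) (f : Fin w → Lit n) : ℝ :=
  if w + 1 ≤ (CL f s).card then ind (CL f s ⊆ F) else 0

lemma tm_nonneg {w : ℕ} (F : Form 2 n) (s : Fin w) (f : Fin w → Lit n) : 0 ≤ tm F s f := by
  unfold tm
  split_ifs
  · exact ind_nonneg _
  · exact le_refl _

lemma ind_le (F : Form 2 n) : ind (∃ (w s : ℕ) (z : ℕ → Lit n), TyI F w s z) ≤
    ∑ w ∈ range (n + 1), ∑ s : Fin w, ∑ f : Fin w → Lit n, tm F s f := by
  by_cases h : ∃ (w s : ℕ) (z : ℕ → Lit n), TyI F w s z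
  · rw [ind_true h]
    obtain ⟨w, s, z, hz⟩ := h
    have hs : s < w := hz.2.1
    obtain ⟨hsub, hcard⟩ := sub_card F w s z hz hs
    have hwn : w ≤ n := by
      have hi : Function.Injective (fun i : Fin w => (z i).1) :=
        fun i j hij => Fin.ext (hz.2.2.1 i i.2 j j.2 hij)
      simpa using Fintype.card_le_of_injective _ hi
    have e1 : (1 : ℝ) = tm F (⟨s, hs⟩ : Fin w) (fun i : Fin w => z i) := by
      unfold tm
      rw [if_pos hcard, ind_true hsub]
    rw [e1]
    calc tm F (⟨s, hs⟩ : Fin w) (fun i : Fin w => z i)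
        ≤ ∑ f : Fin w → Lit n, tm F (⟨s, hs⟩ : Fin w) f :=
          Finset.single_le_sum (f := fun f => tm F (⟨s, hs⟩ : Fin w) f)
            (fun f _ => tm_nonneg F _ f) (mem_univ _)
      _ ≤ ∑ s : Fin w, ∑ f : Fin w → Lit n, tm F s f :=
          Finset.single_le_sum (f := fun s : Fin w => ∑ f : Fin w → Lit n, tm F s f)
            (fun s _ => Finset.sum_nonneg fun f _ => tm_nonneg F _ f) (mem_univ _)
      _ ≤ _ :=
          Finset.single_le_sum
            (f := fun w : ℕ => ∑ s : Fin w, ∑ f : Fin w → Lit n, tm F s f)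
            (fun w _ => Finset.sum_nonneg fun s _ =>
              Finset.sum_nonneg fun f _ => tm_nonneg F _ f)
            (mem_range.2 (by omega))
  · rw [ind_false h]
    exact Finset.sum_nonneg fun w _ => Finset.sum_nonneg fun s _ =>
      Finset.sum_nonneg fun f _ => tm_nonneg F _ f

lemma avg_mono {Ω : Type} [Fintype Ω] {f g : Pool.Agent.H921S.Ord Ω → ℝ}
    (h : ∀ σ, f σ ≤ g σ) : avg f ≤ avg g := by
  unfold avg
  exact div_le_div_of_nonneg_right (Finset.sum_le_sum fun σ _ => h σ) (Nat.cast_nonneg _)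

lemma avg_sum {Ω : Type} [Fintype Ω] {ι : Type*} (S : Finset ι)
    (f : ι → Pool.Agent.H921S.Ord Ω → ℝ) :
    avg (fun σ => ∑ i ∈ S, f i σ) = ∑ i ∈ S, avg (f i) := by
  unfold avg
  rw [Finset.sum_comm, Finset.sum_div]

lemma avg_tm (m w : ℕ) (hm : m ≤ Fintype.card (Clause 2 n)) (s : Fin w)
    (f : Fin w → Lit n) :
    avg (fun σ : OC n => tm (st σ m) s f) ≤ pp n m ^ (w + 1) := by
  have hp0 : 0 ≤ pp n m := by unfold pp NN; positivity
  have hp1 : pp n m ≤ 1 := by
    unfold pp NN
    exact div_le_one_of_le₀ (by exact_mod_cast hm) (Nat.cast_nonneg _)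
  by_cases h : w + 1 ≤ (CL f s).card
  · have e : (fun σ : OC n => tm (st σ m) s f) = fun σ : OC n => ind (CL f s ⊆ st σ m) := by
      funext σ
      unfold tm
      rw [if_pos h]
    rw [e]
    refine (SUBS_thm (Clause 2 n) (CL f s) m hm).trans ?_
    exact pow_le_pow_of_le_one hp0 hp1 h
  · have e : (fun σ : OC n => tm (st σ m) s f) = fun _ : OC n => (0 : ℝ) := by
      funext σ
      unfold tm
      rw [if_neg h]
    rw [e]
    unfold avg
    simp only [Finset.sum_const_zero, zero_div]
    positivity

end VB1aux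

open VB1aux

theorem t_VB1 : S_VB1 := by
  intro n m hn hm
  calc avg (fun σ : OC n => ind (∃ (w s : ℕ) (z : ℕ → Lit n), TyI (st σ m) w s z))
      ≤ avg (fun σ : OC n => ∑ w ∈ range (n + 1), ∑ s : Fin w, ∑ f : Fin w → Lit n,
          tm (st σ m) s f) := avg_mono fun σ => ind_le (st σ m)
    _ = ∑ w ∈ range (n + 1), ∑ s : Fin w, ∑ f : Fin w → Lit n,
          avg (fun σ : OC n => tm (st σ m) s f) := by
        rw [avg_sum]
        refine Finset.sum_congr rfl fun w _ => ?_
        rw [avg_sum]
        refine Finset.sum_congr rfl fun s _ => ?_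
        rw [avg_sum]
    _ ≤ ∑ w ∈ range (n + 1), ∑ s : Fin w, ∑ f : Fin w → Lit n, pp n m ^ (w + 1) :=
        Finset.sum_le_sum fun w _ => Finset.sum_le_sum fun s _ =>
          Finset.sum_le_sum fun f _ => avg_tm m w hm s f
    _ = ∑ w ∈ range (n + 1), (w : ℝ) * (2 * (n : ℝ)) ^ w * pp n m ^ (w + 1) := by
        refine Finset.sum_congr rfl fun w _ => ?_
        rw [Finset.sum_const, Finset.sum_const, card_univ, card_univ, nsmul_eq_mul, nsmul_eq_mul,
          Fintype.card_fin, Fintype.card_fun, Fintype.card_fin, Fintype.card_prod,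
          Fintype.card_fin, Fintype.card_bool]
        push_cast
        ring

end

end Pool.Agent.H921K
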