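import Pool.Agent.H921K.Defs
import Pool.Agent.H921S.SUBS

/-!
# VB2: union bound for the structures of type II
-/

set_option autoImplicit false

namespace Pool.Agent.H921K

open Finset Pool.Agent.H921S
open scoped Classical

noncomputable section

namespace VB2aux

variable {n : ℕ}

theorem neg_ne (l : Lit n) : neg l ≠ l := by
  intro h
  have := congrArg Prod.snd h
  simp [neg] at this

theorem neg_inj {l l' : Lit n} (h : neg l = neg l') : l = l' := by
  have h1 := congrArg Prod.fst h
  have h2 := congrArg Prod.snd h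
  simp only [neg] at h1 h2
  exact Prod.ext h1 (by simpa using h2)

theorem neg_fst (l : Lit n) : (neg l).1 = l.1 := rfl

theorem arc_inj {N : ℕ} {z : ℕ → Lit n} (hz : ∀ i < N, ∀ j < N, (z i).1 = (z j).1 → i = j)
    {i j i' j' : ℕ} (hi : i < N) (hj : j < N) (hi' : i' < N) (hj' : j' < N)
    (h : ({neg (z i), z j} : Finset (Lit n)) = {neg (z i'), z j'}) : i = i' ∧ j = j' := by
  have h1 : neg (z i) ∈ ({neg (z i'), z j'} : Finset (Lit n)) := by rw [← h]; simp
  have h2 : z j ∈ ({neg (z i'), z j'} : Finset (Lit n)) := by rw [← h]; simp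
  rw [mem_insert, mem_singleton] at h1 h2
  constructor
  · rcases h1 with h1 | h1
    · exact hz i hi i' hi' (congrArg Prod.fst (neg_inj h1))
    · exfalso
      have h3 := hz i hi j' hj' (by rw [← h1, neg_fst])
      rw [h3] at h1
      exact neg_ne _ h1
  · rcases h2 with h2 | h2
    · exfalso
      have h3 := hz j hj i' hi' (by rw [h2, neg_fst])
      rw [h3] at h2
      exact neg_ne _ h2.symm
    · exact hz j hj j' hj' (by rw [h2])

theorem chord_ne {N : ℕ} {z : ℕ → Lit n} (hz : ∀ i < N, ∀ j < N, (z i).1 = (z j).1 → i = j)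
    {i j s : ℕ} (h0 : 0 < N) (hs : s < N) (hi : i < N)
    (h : ({z 0, z s} : Finset (Lit n)) = {neg (z i), z j}) : False := by
  have h1 : neg (z i) ∈ ({z 0, z s} : Finset (Lit n)) := by rw [h]; simp
  rw [mem_insert, mem_singleton] at h1
  rcases h1 with h1 | h1
  · have h3 := hz i hi 0 h0 (by rw [← h1, neg_fst])
    rw [h3] at h1
    exact neg_ne _ h1
  · have h3 := hz i hi s hs (by rw [← h1, neg_fst])
    rw [h3] at h1
    exact neg_ne _ h1

/-- the predecessor -/
def pred (w t b j : ℕ) : ℕ := if j = 0 then (if t = 0 then b else w + t - 1) else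
  if j = w then b else j - 1

/-- the clauses -/
def cl (w t s a b : ℕ) (z : ℕ → Lit n) : Option (Option (Fin (w + t))) → Finset (Lit n)
  | none => {z 0, z s}
  | some none => {neg (z (w - 1)), z a}
  | some (some j) => {neg (z (pred w t b j)), z j}

theorem pred_lt {w t s a b : ℕ} (h1 : 1 ≤ a) (h2 : a < s) (h3 : s < w) (h5 : b ≤ s)
    (j : ℕ) (hj : j < w + t) : pred w t b j < w + t := by
  unfold pred
  split_ifs <;> omega

theorem cl_mem {F : Form 2 n} {w t s a b : ℕ} {z : ℕ → Lit n} (h : TyII F w t s a b z)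
    (q : Option (Option (Fin (w + t)))) : ∃ C ∈ F, C.lits = cl w t s a b z q := by
  obtain ⟨h1, h2, h3, h4, h5, -, h7, h8, h9, h10, h11, h12⟩ := h
  rcases q with _ | _ | j
  · exact h12
  · exact h8
  · have hj := j.isLt
    show Arc F (z (pred w t b j)) (z j)
    unfold pred
    by_cases j0 : (j : ℕ) = 0
    · rw [if_pos j0, j0]
      by_cases t0 : t = 0
      · rw [if_pos t0]
        exact h10 t0
      · rw [if_neg t0]
        exact (h11 (Nat.pos_of_ne_zero t0)).2
    · rw [if_neg j0]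
      by_cases jw : (j : ℕ) = w
      · rw [if_pos jw, jw]
        exact (h11 (by omega)).1
      · rw [if_neg jw]
        rcases Nat.lt_or_ge (j : ℕ) w with hlt | hge
        · have := h7 ((j : ℕ) - 1) (by omega)
          rwa [show (j : ℕ) - 1 + 1 = j by omega] at this
        · have := h9 ((j : ℕ) - 1) (by omega) (by omega)
          rwa [show (j : ℕ) - 1 + 1 = j by omega] at this

theorem cl_inj {F : Form 2 n} {w t s a b : ℕ} {z : ℕ → Lit n} (h : TyII F w t s a b z) :
    Function.Injective (cl w t s a b z) := by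
  obtain ⟨h1, h2, h3, h4, h5, hz, -⟩ := h
  intro q q' hq
  rcases q with _ | _ | j <;> rcases q' with _ | _ | j'
  · rfl
  · exact (chord_ne hz (by omega) (by omega) (by omega) hq).elim
  · exact (chord_ne hz (by omega) (by omega) (pred_lt h1 h2 h3 h5 _ j'.isLt) hq).elim
  · exact (chord_ne hz (by omega) (by omega) (by omega) hq.symm).elim
  · rfl
  · exfalso
    obtain ⟨e1, e2⟩ := arc_inj hz (by omega) (by omega) (pred_lt h1 h2 h3 h5 _ j'.isLt) j'.isLt hq
    unfold pred at e1
    rw [if_neg (by omega), if_neg (by omega)] at e1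
    omega
  · exact (chord_ne hz (by omega) (by omega) (pred_lt h1 h2 h3 h5 _ j.isLt) hq.symm).elim
  · exfalso
    obtain ⟨e1, e2⟩ := arc_inj hz (pred_lt h1 h2 h3 h5 _ j.isLt) j.isLt (by omega) (by omega) hq
    unfold pred at e1
    rw [if_neg (by omega), if_neg (by omega)] at e1
    omega
  · obtain ⟨e1, e2⟩ := arc_inj hz (pred_lt h1 h2 h3 h5 _ j.isLt) j.isLt
      (pred_lt h1 h2 h3 h5 _ j'.isLt) j'.isLt hq
    rw [Fin.ext e2]

/-- the set of clauses -/
def SS (w t s a b : ℕ) (z : ℕ → Lit n) : Form 2 n :=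
  univ.filter fun C => ∃ q, C.lits = cl w t s a b z q

theorem SS_sub {F : Form 2 n} {w t s a b : ℕ} {z : ℕ → Lit n} (h : TyII F w t s a b z) :
    SS w t s a b z ⊆ F := by
  intro C hC
  obtain ⟨q, hq⟩ := (mem_filter.1 hC).2
  obtain ⟨C', hC', h'⟩ := cl_mem h q
  rw [Clause.ext (hq.trans h'.symm)]
  exact hC'

theorem SS_card {F : Form 2 n} {w t s a b : ℕ} {z : ℕ → Lit n} (h : TyII F w t s a b z) :
    (SS w t s a b z).card = w + t + 2 := by
  choose f hf hf' using cl_mem h
  have h1 : SS w t s a b z = univ.image f := by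
    ext C
    rw [SS, mem_filter, mem_image]
    constructor
    · rintro ⟨-, q, hq⟩
      exact ⟨q, mem_univ _, Clause.ext ((hf' q).trans hq.symm)⟩
    · rintro ⟨q, -, rfl⟩
      exact ⟨mem_univ _, q, hf' q⟩
  have h2 : Function.Injective f := by
    intro q q' hq
    apply cl_inj h
    rw [← hf', ← hf', hq]
  rw [h1, card_image_of_injective _ h2, card_univ, Fintype.card_option, Fintype.card_option,
    Fintype.card_fin]

theorem ind_nonneg (P : Prop) : 0 ≤ ind P := by unfold ind; split_ifs <;> norm_num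

theorem ind_mono {P Q : Prop} (h : P → Q) : ind P ≤ ind Q := by
  unfold ind
  split_ifs with h1 h2
  · exact le_rfl
  · exact absurd (h h1) h2
  · norm_num
  · exact le_rfl

theorem ind_le_sum {ι : Type} (s : Finset ι) (P : ι → Prop) (Q : Prop)
    (h : Q → ∃ i ∈ s, P i) : ind Q ≤ ∑ i ∈ s, ind (P i) := by
  by_cases hQ : Q
  · obtain ⟨i, hi, hP⟩ := h hQ
    have h1 : ind Q = 1 := if_pos hQ
    have h2 : ind (P i) = 1 := if_pos hP
    rw [h1, ← h2]
    exact single_le_sum (f := fun i => ind (P i)) (fun i _ => ind_nonneg _) hi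
  · have h1 : ind Q = 0 := if_neg hQ
    rw [h1]
    exact sum_nonneg fun i _ => ind_nonneg _

theorem avg_mono {Ω : Type} [Fintype Ω] [DecidableEq Ω] {f g : Pool.Agent.H921S.Ord Ω → ℝ}
    (h : ∀ σ, f σ ≤ g σ) : avg f ≤ avg g := by
  unfold avg
  exact div_le_div_of_nonneg_right (sum_le_sum fun σ _ => h σ) (Nat.cast_nonneg _)

theorem avg_sum {Ω : Type} [Fintype Ω] [DecidableEq Ω] {ι : Type} (s : Finset ι)
    (f : ι → Pool.Agent.H921S.Ord Ω → ℝ) :
    avg (fun σ => ∑ i ∈ s, f i σ) = ∑ i ∈ s, avg (f i) := by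
  unfold avg
  rw [sum_comm, sum_div]

theorem avg_zero {Ω : Type} [Fintype Ω] [DecidableEq Ω] :
    avg (fun _ : Pool.Agent.H921S.Ord Ω => (0 : ℝ)) = 0 := by
  unfold avg
  simp

theorem one_term (n m : ℕ) (hm : m ≤ Fintype.card (Clause 2 n)) (w t s a b : ℕ)
    (z : ℕ → Lit n) :
    avg (fun σ : OC n => ind (TyII (st σ m) w t s a b z)) ≤ pp n m ^ (w + t + 2) := by
  by_cases h : ∃ F : Form 2 n, TyII F w t s a b z
  · obtain ⟨F, hF⟩ := h
    rw [← SS_card hF]
    refine (avg_mono fun σ => ind_mono fun h => SS_sub h).trans ?_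
    exact SUBS_thm (Clause 2 n) (SS w t s a b z) m hm
  · have h1 : (fun σ : OC n => ind (TyII (st σ m) w t s a b z)) = fun _ => 0 := by
      funext σ
      exact if_neg fun h2 => h ⟨_, h2⟩
    rw [h1, avg_zero]
    have : 0 ≤ pp n m := by unfold pp; positivity
    positivity

/-- extension of a finite sequence -/
def extF (d : Lit n) {N : ℕ} (z : Fin N → Lit n) (i : ℕ) : Lit n :=
  if h : i < N then z ⟨i, h⟩ else d

theorem TyII_congr {F : Form 2 n} {w t s a b : ℕ} {z z' : ℕ → Lit n}
    (h : TyII F w t s a b z) (hz : ∀ i < w + t, z i = z' i) : TyII F w t s a b z' := by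
  obtain ⟨h1, h2, h3, h4, h5, h6, h7, h8, h9, h10, h11, h12⟩ := h
  refine ⟨h1, h2, h3, h4, h5, ?_, ?_, ?_, ?_, ?_, ?_, ?_⟩
  · intro i hi j hj
    rw [← hz i hi, ← hz j hj]
    exact h6 i hi j hj
  · intro i hi
    rw [← hz i (by omega), ← hz (i + 1) (by omega)]
    exact h7 i hi
  · rw [← hz _ (by omega), ← hz _ (by omega)]
    exact h8
  · intro i hi hi'
    rw [← hz i (by omega), ← hz (i + 1) (by omega)]
    exact h9 i hi hi'
  · intro ht
    rw [← hz _ (by omega), ← hz _ (by omega)]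
    exact h10 ht
  · intro ht
    rw [← hz _ (by omega), ← hz _ (by omega), ← hz _ (by omega), ← hz _ (by omega)]
    exact h11 ht
  · rw [← hz _ (by omega), ← hz _ (by omega)]
    exact h12

theorem TyII_le {F : Form 2 n} {w t s a b : ℕ} {z : ℕ → Lit n} (h : TyII F w t s a b z) :
    w + t ≤ n := by
  have h6 := h.2.2.2.2.2.1
  have h1 : Function.Injective (fun i : Fin (w + t) => (z i).1) := by
    intro i j hij
    exact Fin.ext (h6 i i.isLt j j.isLt hij)
  have := Fintype.card_le_of_injective _ h1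
  simpa using this

end VB2aux

open VB2aux

theorem t_VB2 : S_VB2 := by
  intro n m hn hm
  let d : Lit n := (⟨0, by omega⟩, true)
  have h1 : ∀ F : Form 2 n, ind (∃ (w t s a b : ℕ) (z : ℕ → Lit n), TyII F w t s a b z) ≤
      ∑ q ∈ range (n + 1) ×ˢ range (n + 1),
        ∑ r : (Fin q.1 × Fin q.1 × Fin q.1) × (Fin (q.1 + q.2) → Lit n),
          ind (TyII F q.1 q.2 r.1.1 r.1.2.1 r.1.2.2 (extF d r.2)) := by
    intro F
    refine (ind_le_sum (range (n + 1) ×ˢ range (n + 1))
      (fun q => ∃ (s a b : ℕ) (z : ℕ → Lit n), TyII F q.1 q.2 s a b z) _ ?_).trans ?_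
    · rintro ⟨w, t, s, a, b, z, h⟩
      have := TyII_le h
      exact ⟨(w, t), mem_product.2 ⟨mem_range.2 (by omega), mem_range.2 (by omega)⟩,
        s, a, b, z, h⟩
    · refine sum_le_sum fun q _ => ?_
      refine ind_le_sum _ _ _ ?_
      rintro ⟨s, a, b, z, h⟩
      have h0 := h
      obtain ⟨h1, h2, h3, h4, h5, -⟩ := h0
      refine ⟨((⟨s, by omega⟩, ⟨a, by omega⟩, ⟨b, by omega⟩), fun i => z i), mem_univ _, ?_⟩
      refine TyII_congr h fun i hi => ?_
      unfold extF
      rw [dif_pos hi]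
  refine (avg_mono fun σ => h1 _).trans ?_
  rw [avg_sum, sum_product]
  refine sum_le_sum fun w _ => sum_le_sum fun t _ => ?_
  rw [avg_sum]
  refine (sum_le_sum fun r _ => one_term n m hm _ _ _ _ _ _).trans (le_of_eq ?_)
  simp only [sum_const, card_univ, nsmul_eq_mul, Fintype.card_prod, Fintype.card_fin,
    Fintype.card_fun, Fintype.card_bool]
  push_cast
  ring

end

end Pool.Agent.H921K
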