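import Pool.Agent.H921K.Defs
import Pool.Agent.H921S.CARD

/-!
# VNUM: numerical sums
-/

set_option autoImplicit false

namespace Pool.Agent.H921K

open Finset Pool.Agent.H921S
open scoped Classical

noncomputable section

namespace VNUMaux

theorem w3_le (w : ℕ) : (w : ℝ) ^ 3 ≤ 6 * ((w + 3).choose 3 : ℝ) := by
  have h1 : (w + 1) ^ 3 ≤ (w + 1).ascFactorial 3 := Nat.pow_succ_le_ascFactorial (w + 1) 3
  rw [Nat.ascFactorial_eq_factorial_mul_choose] at h1
  have h2 : w ^ 3 ≤ (w + 1) ^ 3 := Nat.pow_le_pow_left (Nat.le_succ w) 3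
  have h3 : w ^ 3 ≤ 6 * (w + 3).choose 3 := h2.trans (h1.trans (le_of_eq (by norm_num [Nat.factorial])))
  exact_mod_cast h3

theorem sumk (k : ℕ) (r : ℝ) (h0 : 0 ≤ r) (h1 : r < 1) (N : ℕ) :
    ∑ w ∈ range N, ((w + k).choose k : ℝ) * r ^ w ≤ 1 / (1 - r) ^ (k + 1) := by
  have h := hasSum_choose_mul_geometric_of_norm_lt_one k (r := r)
    (by rw [Real.norm_eq_abs, abs_of_nonneg h0]; exact h1)
  exact sum_le_hasSum (range N) (fun i _ => by positivity) h

end VNUMaux

open VNUMaux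

theorem t_VNUM : S_VNUM := by
  refine ⟨2, two_pos, fun n S m hadm => ?_⟩
  obtain ⟨hS4, hSn, -, hm, -⟩ := hadm
  have hS0 : (0 : ℝ) < S := by exact_mod_cast (by omega : 0 < S)
  have hn64 : 64 ≤ n := le_trans (by
    calc 64 = 4 ^ 3 := by norm_num
      _ ≤ S ^ 3 := Nat.pow_le_pow_left hS4 3) hSn
  have hn0 : (0 : ℝ) < n := by exact_mod_cast (by omega : 0 < n)
  have hn1 : (0 : ℝ) < (n : ℝ) - 1 := by
    have : (64 : ℝ) ≤ n := by exact_mod_cast hn64
    linarith
  have hNN : (NN 2 n : ℝ) = 2 * n * (n - 1) := by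
    have h1 : (NN 2 n : ℝ) = (Fintype.card (Clause 2 n) : ℝ) := rfl
    rw [h1, CARD_thm 2 n]
    have h2 : n.choose 2 * 2 = n * (n - 1) := by
      rw [Nat.choose_two_right]
      exact Nat.div_mul_cancel (Nat.even_mul_pred_self n).two_dvd
    have h3 : ((n.choose 2 : ℕ) : ℝ) * 2 = n * (n - 1) := by
      have := congrArg (Nat.cast : ℕ → ℝ) h2
      push_cast at this
      rw [Nat.cast_sub (by omega)] at this
      push_cast at this
      exact this
    push_cast
    linarith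
  set p := pp n m with hp
  have hpe : p = (m : ℝ) / (2 * n * (n - 1)) := by rw [hp, pp, hNN]
  have hp0 : 0 ≤ p := by rw [hpe]; positivity
  set x := 2 * (n : ℝ) * p with hx
  have hx0 : 0 ≤ x := by positivity
  have hxe : x = (m : ℝ) / (n - 1) := by
    rw [hx, hpe]; field_simp
  set ρ : ℝ := 1 - 1 / S with hρ
  have hρ1 : 1 - ρ = 1 / S := by rw [hρ]; ring
  have hSinv : (1 : ℝ) / S ≤ 1 := by
    rw [div_le_one hS0]; exact_mod_cast (by omega : 1 ≤ S)
  have hρ0 : 0 ≤ ρ := by rw [hρ]; linarith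
  have hρlt : ρ < 1 := by
    have : 0 < 1 / (S : ℝ) := by positivity
    rw [hρ]; linarith
  have hxρ : x ≤ ρ := by
    rw [hxe, hρ, div_le_iff₀ hn1]
    have h1 : (m : ℝ) * S ≤ (n - 1) * (S - 1) := by
      have h2 : ((m * S : ℕ) : ℝ) ≤ (((n - 1) * (S - 1) : ℕ) : ℝ) := by exact_mod_cast hm
      push_cast at h2
      rw [Nat.cast_sub (by omega), Nat.cast_sub (by omega)] at h2
      push_cast at h2
      exact h2
    have h3 : (1 - 1 / (S : ℝ)) * (n - 1) = ((n - 1) * (S - 1)) / S := by field_simp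
    rw [h3, le_div_iff₀ hS0]
    exact h1
  have hpS : p ≤ 1 / (2 * (S : ℝ) ^ 3) := by
    have h1 : x ≤ 1 := hxρ.trans hρlt.le
    have h2 : p ≤ 1 / (2 * n) := by
      rw [le_div_iff₀ (by positivity)]
      rw [hx] at h1
      linarith
    refine h2.trans ?_
    have h3 : (S : ℝ) ^ 3 ≤ n := by exact_mod_cast hSn
    exact one_div_le_one_div_of_le (by positivity) (by linarith)
  constructor
  · have hterm : ∀ w ∈ range (n + 1), (w : ℝ) * (2 * (n : ℝ)) ^ w * p ^ (w + 1)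
        ≤ p * (((w + 1).choose 1 : ℝ) * ρ ^ w) := by
      intro w _
      have e1 : (w : ℝ) * (2 * (n : ℝ)) ^ w * p ^ (w + 1) = p * ((w : ℝ) * x ^ w) := by
        rw [hx, mul_pow]; ring
      rw [e1]
      refine mul_le_mul_of_nonneg_left ?_ hp0
      refine mul_le_mul ?_ (pow_le_pow_left₀ hx0 hxρ w) (by positivity) (by positivity)
      rw [Nat.choose_one_right]
      push_cast
      linarith
    calc ∑ w ∈ range (n + 1), (w : ℝ) * (2 * (n : ℝ)) ^ w * p ^ (w + 1)
        ≤ ∑ w ∈ range (n + 1), p * (((w + 1).choose 1 : ℝ) * ρ ^ w) := sum_le_sum hterm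
      _ = p * ∑ w ∈ range (n + 1), ((w + 1).choose 1 : ℝ) * ρ ^ w := by rw [mul_sum]
      _ ≤ p * (1 / (1 - ρ) ^ (1 + 1)) := mul_le_mul_of_nonneg_left (sumk 1 ρ hρ0 hρlt _) hp0
      _ ≤ 1 / (2 * (S : ℝ) ^ 3) * (1 / (1 - ρ) ^ (1 + 1)) := by
          refine mul_le_mul_of_nonneg_right hpS ?_
          rw [hρ1]; positivity
      _ = (1 / 2) / S := by
          rw [hρ1]; simp only [one_div_pow, one_div_one_div]; field_simp
      _ ≤ 2 / S := by
          refine div_le_div_of_nonneg_right (by norm_num) hS0.le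
  · have hterm : ∀ w ∈ range (n + 1), ∀ t ∈ range (n + 1),
        (w : ℝ) ^ 3 * (2 * (n : ℝ)) ^ (w + t) * p ^ (w + t + 2)
        ≤ (6 * p ^ 2) * ((((w + 3).choose 3 : ℝ) * ρ ^ w) * (((t + 0).choose 0 : ℝ) * ρ ^ t)) := by
      intro w _ t _
      have e1 : (w : ℝ) ^ 3 * (2 * (n : ℝ)) ^ (w + t) * p ^ (w + t + 2)
          = p ^ 2 * ((w : ℝ) ^ 3 * (x ^ w * x ^ t)) := by
        rw [hx, mul_pow, mul_pow]; ring
      rw [e1]
      have e2 : (6 * p ^ 2) * ((((w + 3).choose 3 : ℝ) * ρ ^ w) * (((t + 0).choose 0 : ℝ) * ρ ^ t))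
          = p ^ 2 * ((6 * ((w + 3).choose 3 : ℝ)) * (ρ ^ w * ρ ^ t)) := by
        rw [Nat.choose_zero_right]; push_cast; ring
      rw [e2]
      refine mul_le_mul_of_nonneg_left ?_ (by positivity)
      refine mul_le_mul (w3_le w) ?_ (by positivity) (by positivity)
      exact mul_le_mul (pow_le_pow_left₀ hx0 hxρ w) (pow_le_pow_left₀ hx0 hxρ t) (by positivity)
        (by positivity)
    calc ∑ w ∈ range (n + 1), ∑ t ∈ range (n + 1),
          (w : ℝ) ^ 3 * (2 * (n : ℝ)) ^ (w + t) * p ^ (w + t + 2)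
        ≤ ∑ w ∈ range (n + 1), ∑ t ∈ range (n + 1),
          (6 * p ^ 2) * ((((w + 3).choose 3 : ℝ) * ρ ^ w) * (((t + 0).choose 0 : ℝ) * ρ ^ t)) :=
          sum_le_sum fun w hw => sum_le_sum fun t ht => hterm w hw t ht
      _ = (6 * p ^ 2) * ((∑ w ∈ range (n + 1), ((w + 3).choose 3 : ℝ) * ρ ^ w)
          * ∑ t ∈ range (n + 1), ((t + 0).choose 0 : ℝ) * ρ ^ t) := by
          rw [sum_mul_sum, mul_sum]
          refine sum_congr rfl fun w _ => ?_
          rw [mul_sum]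
      _ ≤ (6 * (1 / (2 * (S : ℝ) ^ 3)) ^ 2) * ((1 / (1 - ρ) ^ (3 + 1)) * (1 / (1 - ρ) ^ (0 + 1))) := by
          have g1 : 0 < 1 - ρ := by linarith
          refine mul_le_mul ?_ ?_ ?_ (by positivity)
          · exact mul_le_mul_of_nonneg_left (pow_le_pow_left₀ hp0 hpS 2) (by norm_num)
          · refine mul_le_mul (sumk 3 ρ hρ0 hρlt _) (sumk 0 ρ hρ0 hρlt _) ?_ (by positivity)
            exact sum_nonneg fun i _ => by positivity
          · exact mul_nonneg (sum_nonneg fun i _ => by positivity) (sum_nonneg fun i _ => by positivity)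
      _ = (3 / 2) / S := by
          rw [hρ1]; simp only [one_div_pow, one_div_one_div]; field_simp; ring
      _ ≤ 2 / S := by
          refine div_le_div_of_nonneg_right (by norm_num) hS0.le

end

end Pool.Agent.H921K
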