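import Pool.Agent.H921K.Defs
import Pool.Agent.H921S.CARD

/-!
VUB: few uniquely satisfiable subformulas.
-/

set_option autoImplicit false

namespace Pool.Agent.H921K

open Finset Pool.Agent.H921S
open scoped Classical

namespace VUBaux

theorem ind_le {P A B : Prop} (h : P → A ∨ B) : ind P ≤ ind A + ind B := by
  unfold ind
  by_cases hP : P
  · rw [if_pos hP]
    rcases h hP with hA | hB
    · rw [if_pos hA]
      have : (0 : ℝ) ≤ if B then 1 else 0 := by split_ifs <;> norm_num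
      linarith
    · rw [if_pos hB]
      have : (0 : ℝ) ≤ if A then 1 else 0 := by split_ifs <;> norm_num
      linarith
  · rw [if_neg hP]
    have h1 : (0 : ℝ) ≤ if A then 1 else 0 := by split_ifs <;> norm_num
    have h2 : (0 : ℝ) ≤ if B then 1 else 0 := by split_ifs <;> norm_num
    linarith

theorem avg_le {Ω : Type} [Fintype Ω] [DecidableEq Ω] {f g h : Pool.Agent.H921S.Ord Ω → ℝ}
    (hf : ∀ σ, f σ ≤ g σ + h σ) : avg f ≤ avg g + avg h := by
  unfold avg
  rw [← add_div, ← Finset.sum_add_distrib]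
  exact div_le_div_of_nonneg_right (Finset.sum_le_sum fun σ _ => hf σ) (Nat.cast_nonneg _)

end VUBaux

theorem t_VUB (h1 : S_STRC) (h2 : S_EXTR) (h3 : S_VB1) (h4 : S_VB2) (h5 : S_VNUM) : S_VUB := by
  obtain ⟨C, hC, h⟩ := h5
  refine ⟨2 * C, by positivity, fun n S m hA => ?_⟩
  obtain ⟨a1, a2, a3, a4, a5⟩ := id hA
  have hn : 2 ≤ n := by
    have : 4 ^ 3 ≤ S ^ 3 := Nat.pow_le_pow_left a1 3
    omega
  have hm1 : m ≤ n - 1 := by
    have : m * S ≤ (n - 1) * S := a4.trans (Nat.mul_le_mul_left _ (Nat.sub_le S 1))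
    exact Nat.le_of_mul_le_mul_right this (by omega)
  have hm : m ≤ Fintype.card (Clause 2 n) := by
    rw [CARD_thm 2 n]
    have h6 : 1 ≤ n.choose 2 := Nat.choose_pos hn
    have h7 : n - 1 ≤ n.choose 2 := by
      rw [Nat.choose_two_right, Nat.le_div_iff_mul_le (by norm_num), mul_comm]
      exact Nat.mul_le_mul_right _ hn
    exact (hm1.trans h7).trans (Nat.le_mul_of_pos_left _ (by norm_num))
  have hv1 := h3 n m hn hm
  have hv2 := h4 n m hn hm
  obtain ⟨h6, h7⟩ := h n S m hA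
  have key : avg (fun σ : OC n => ind (HasUSS (st σ m))) ≤
      avg (fun σ : OC n => ind (∃ (w s : ℕ) (z : ℕ → Lit n), TyI (st σ m) w s z)) +
      avg (fun σ : OC n =>
        ind (∃ (w t s a b : ℕ) (z : ℕ → Lit n), TyII (st σ m) w t s a b z)) := by
    apply VUBaux.avg_le
    intro σ
    apply VUBaux.ind_le
    intro hU
    obtain ⟨x, y, T, b1, b2, b3, b4, b5, b6, b7⟩ := h1 n (st σ m) hU
    exact h2 n (st σ m) x y T b1 b2 b3 b4 b5 b6 b7
  have e : 2 * C / (S : ℝ) = C / S + C / S := by ring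
  rw [e]
  linarith

end Pool.Agent.H921K
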