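import Pool.Agent.H921K.SUBL
import Pool.Agent.H921K.PZ
import Pool.Agent.H921K.CNTW
import Pool.Agent.H921K.UNS
import Pool.Agent.H921K.DIST
import Pool.Agent.H921K.DEG
import Pool.Agent.H921K.PRD
import Pool.Agent.H921K.DEC
import Pool.Agent.H921K.GA
import Pool.Agent.H921K.GR
import Pool.Agent.H921K.G1
import Pool.Agent.H921K.G2
import Pool.Agent.H921K.G3
import Pool.Agent.H921K.G4
import Pool.Agent.H921K.G5
import Pool.Agent.H921K.PNB
import Pool.Agent.H921K.MUB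
import Pool.Agent.H921K.SUM2
import Pool.Agent.H921K.E1
import Pool.Agent.H921K.E2
import Pool.Agent.H921K.ULB
import Pool.Agent.H921K.STRC
import Pool.Agent.H921K.EXTR
import Pool.Agent.H921K.VB1
import Pool.Agent.H921K.VB2
import Pool.Agent.H921K.VNUM
import Pool.Agent.H921K.VUB
import Pool.Agent.H921K.FIN2

/-!
# Assembly (k = 2)
-/

set_option autoImplicit false

namespace Pool.Agent.H921K

theorem g3 : S_G3 := t_G3 t_G1 t_GA
theorem g4 : S_G4 := t_G4 t_G1 t_G2 g3 t_GA t_GR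
theorem g5 : S_G5 := t_G5 t_G1 g3 t_GA t_GR
theorem sum2 : S_SUM2 := t_SUM2 (t_PRD t_DIST) t_DEC t_DEG (t_PNB g4 g5 t_DEG) (t_MUB g4 t_DEG)
theorem ulb : S_ULB := t_ULB t_PZ (t_E1 t_SUBL t_CNTW t_DIST) (t_E2 sum2 t_CNTW t_DIST) t_UNS
theorem vub : S_VUB := t_VUB t_STRC t_EXTR t_VB1 t_VB2 t_VNUM
theorem fin2 : S_FIN2 := t_FIN2 ulb vub

end Pool.Agent.H921K
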