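import Pool.Agent.H921S.Stm

/-!
# k = 2: no uniquely satisfiable subformula by the time a random 2-SAT formula becomes unsatisfiable

Definitions and statements of the tasks.
-/

set_option autoImplicit false

namespace Pool.Agent.H921K

open Finset Pool.Agent.H921S
open scoped Classical

noncomputable section

variable {n : ℕ}

/-- the negation of a literal -/
def neg (l : Lit n) : Lit n := (l.1, !l.2)

/-- the clause with the literals `u`, `v` is in `F` -/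
def Has (F : Form 2 n) (u v : Lit n) : Prop := ∃ C ∈ F, C.lits = {u, v}

/-- `u` implies `v` by a clause of `F` -/
def Arc (F : Form 2 n) (u v : Lit n) : Prop := Has F (neg u) v

/-- orderings of all 2-clauses -/
abbrev OC (n : ℕ) : Type := Pool.Agent.H921S.Ord (Clause 2 n)

/-- literals on distinct variables -/
def DV {s : ℕ} (w : Fin s → Lit n) : Prop := Function.Injective (fun i => (w i).1)

/-! ### bicycles: `¬x → w 0 → ... → x → ... → y → ... → ¬y`, with `x = w (a + 1)`,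
`y = w (a + l + 2)` -/

/-- the positions `0, ..., a + l + c + 5` of the bicycle -/
def ex (a l c : ℕ) (w : Fin (a + l + c + 4) → Lit n) (i : ℕ) : Lit n :=
  if i = 0 then neg (w ⟨a + 1, by omega⟩)
  else if h : i ≤ a + l + c + 4 then w ⟨i - 1, by omega⟩
  else neg (w ⟨a + l + 2, by omega⟩)

/-- the clause number `i < a + l + c + 5` of the bicycle -/
def bc (a l c : ℕ) (w : Fin (a + l + c + 4) → Lit n) (i : ℕ) : Finset (Lit n) :=
  {neg (ex a l c w i), ex a l c w (i + 1)}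

/-- the formula of the bicycle -/
def BF (a l c : ℕ) (w : Fin (a + l + c + 4) → Lit n) : Form 2 n :=
  univ.filter (fun C : Clause 2 n => ∃ i < a + l + c + 5, C.lits = bc a l c w i)

/-- bicycles with `a, l, c < S` -/
abbrev BI (S n : ℕ) : Type := Σ t : Fin S × Fin S × Fin S,
  {w : Fin ((t.1 : ℕ) + (t.2.1 : ℕ) + (t.2.2 : ℕ) + 4) → Lit n // DV w}

/-- its formula -/
def BB {S n : ℕ} (b : BI S n) : Form 2 n := BF (b.1.1 : ℕ) (b.1.2.1 : ℕ) (b.1.2.2 : ℕ) b.2.1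

/-! ### weighted paths in a finite digraph -/

section paths

variable {V : Type} [Fintype V]

/-- weight of a pair -/
def wt (g : V → V → Prop) (p : ℝ) (u v : V) : ℝ := if g u v then 1 else p

/-- weighted number of the injective paths with `t` steps from `u` to `v` -/
def PS (g : V → V → Prop) (p : ℝ) (t : ℕ) (u v : V) : ℝ :=
  ∑ f ∈ univ.filter (fun f : Fin (t + 1) → V =>
      Function.Injective f ∧ f 0 = u ∧ f (Fin.last t) = v),
    ∏ i : Fin t, wt g p (f i.castSucc) (f i.succ)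

/-- the same for the paths whose first or last step is not a `g`-step -/
def PF (g : V → V → Prop) (p : ℝ) (t : ℕ) (u v : V) : ℝ :=
  ∑ f ∈ univ.filter (fun f : Fin (t + 1) → V =>
      Function.Injective f ∧ f 0 = u ∧ f (Fin.last t) = v ∧
        ∀ i j : Fin t, (i : ℕ) = 0 → (j : ℕ) + 1 = t →
          ¬ (g (f i.castSucc) (f i.succ) ∧ g (f j.castSucc) (f j.succ))),
    ∏ i : Fin t, wt g p (f i.castSucc) (f i.succ)

/-- number of `g`-paths with `t` steps starting at `u` -/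
def NG (g : V → V → Prop) (t : ℕ) (u : V) : ℕ :=
  (univ.filter (fun f : Fin (t + 1) → V => Function.Injective f ∧ f 0 = u ∧
    ∀ i : Fin t, g (f i.castSucc) (f i.succ))).card

/-- number of `g`-paths with `t` steps from `u` to `v` -/
def NK (g : V → V → Prop) (t : ℕ) (u v : V) : ℕ :=
  (univ.filter (fun f : Fin (t + 1) → V => Function.Injective f ∧ f 0 = u ∧ f (Fin.last t) = v ∧
    ∀ i : Fin t, g (f i.castSucc) (f i.succ))).card

/-- out- and in-degrees at most `1` outside `Sp`, at most `2` everywhere, all steps inside `Q` -/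
def Thin (g : V → V → Prop) (Sp Q : Finset V) : Prop :=
  (∀ u, (univ.filter (fun v => g u v)).card ≤ 2) ∧
  (∀ v, (univ.filter (fun u => g u v)).card ≤ 2) ∧
  (∀ u, u ∉ Sp → (univ.filter (fun v => g u v)).card ≤ 1) ∧
  (∀ v, v ∉ Sp → (univ.filter (fun u => g u v)).card ≤ 1) ∧
  (∀ u v, g u v → u ∈ Q ∧ v ∈ Q)

/-- bound for the number of `g`-paths -/
def kap (Sp Q : Finset V) (L : ℕ) (u : V) : ℝ :=
  if u ∈ Q then 2 ^ Sp.card * ((L : ℝ) + 1) else 1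

/-- the exponential factor -/
def EE (Sp Q : Finset V) (L : ℕ) : ℝ :=
  Real.exp (2 ^ Sp.card * (Q.card : ℝ) * (L : ℝ) ^ 2 / (Fintype.card V : ℝ))

end paths

/-- weighted number of the injective paths with `t` steps from `u` to `¬u`, with second literal
different from the negation of the last but one -/
def PN (g : Lit n → Lit n → Prop) (p : ℝ) (t : ℕ) (u : Lit n) : ℝ :=
  ∑ f ∈ univ.filter (fun f : Fin (t + 1) → Lit n =>
      Function.Injective f ∧ f 0 = u ∧ f (Fin.last t) = neg u ∧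
        ∀ i j : Fin t, (i : ℕ) = 0 → (j : ℕ) + 1 = t → f i.succ ≠ neg (f j.castSucc)),
    ∏ i : Fin t, wt g p (f i.castSucc) (f i.succ)

/-- the steps of the bicycle -/
def gB (a l c : ℕ) (w : Fin (a + l + c + 4) → Lit n) (u v : Lit n) : Prop :=
  ∃ i < a + l + c + 5, ({neg u, v} : Finset (Lit n)) = bc a l c w i

/-- the special literals of the bicycle -/
def SpB (a l c : ℕ) (w : Fin (a + l + c + 4) → Lit n) : Finset (Lit n) :=
  {w ⟨a + 1, by omega⟩, neg (w ⟨a + 1, by omega⟩), w ⟨a + l + 2, by omega⟩,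
    neg (w ⟨a + l + 2, by omega⟩)}

/-- the literals of the bicycle -/
def QB (a l c : ℕ) (w : Fin (a + l + c + 4) → Lit n) : Finset (Lit n) :=
  univ.filter (fun u => ∃ i, (w i).1 = u.1)

/-- size of the weights of the loops at `u` -/
def hB (S : ℕ) (Sp Q : Finset (Lit n)) (u : Lit n) : ℝ :=
  if u ∈ Sp then 1 else if u ∈ Q then 1 / (S : ℝ) else 1 / (S : ℝ) ^ 2

/-- size of the number of the paths at `u` -/
def kB (S : ℕ) (Q : Finset (Lit n)) (u : Lit n) : ℝ := if u ∈ Q then (S : ℝ) else 1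

/-- admissible parameters: `n` between `S^3` and `8 S^3`, `m` about `n (1 - 1 / S)` -/
def Adm (n S m : ℕ) : Prop :=
  4 ≤ S ∧ S ^ 3 ≤ n ∧ n ≤ 8 * S ^ 3 ∧ m * S ≤ (n - 1) * (S - 1) ∧ (n - 1) * (S - 2) ≤ m * S

/-- the density -/
def pp (n m : ℕ) : ℝ := (m : ℝ) / NN 2 n

/-! ### statements: general -/

/-- SUBL: lower bound for the probability that all elements of a set have appeared -/
def S_SUBL : Prop := ∀ (Ω : Type) [Fintype Ω] [DecidableEq Ω] (A : Finset Ω) (m : ℕ),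
  A.card ≤ m → m ≤ Fintype.card Ω →
  (((m : ℝ) - A.card) / Fintype.card Ω) ^ A.card ≤ avg (fun σ : Pool.Agent.H921S.Ord Ω => ind (A ⊆ st σ m))

/-- PZ: second moment inequality -/
def S_PZ : Prop := ∀ (Ω ι : Type) [Fintype Ω] [DecidableEq Ω] [Fintype ι] (B : ι → Finset Ω)
  (m : ℕ),
  (∑ i, avg (fun σ : Pool.Agent.H921S.Ord Ω => ind (B i ⊆ st σ m))) ^ 2 ≤
    avg (fun σ : Pool.Agent.H921S.Ord Ω => ind (∃ i, B i ⊆ st σ m)) *
      ∑ i, ∑ j, avg (fun σ : Pool.Agent.H921S.Ord Ω => ind (B i ∪ B j ⊆ st σ m))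

/-- CNTW: number of literal sequences with distinct variables -/
def S_CNTW : Prop := ∀ n s : ℕ, s ≤ n →
  (2 * ((n : ℝ) - s)) ^ s ≤ (Fintype.card {w : Fin s → Lit n // DV w} : ℝ) ∧
  (Fintype.card {w : Fin s → Lit n // DV w} : ℝ) ≤ (2 * (n : ℝ)) ^ s

/-! ### statements: bicycles -/

/-- UNS: bicycles are unsatisfiable -/
def S_UNS : Prop := ∀ (n a l c : ℕ) (w : Fin (a + l + c + 4) → Lit n) (F : Form 2 n),
  DV w → BF a l c w ⊆ F → ¬ Sat F

/-- DIST: the clauses of a bicycle are distinct -/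
def S_DIST : Prop := ∀ (n a l c : ℕ) (w : Fin (a + l + c + 4) → Lit n), DV w →
  Set.InjOn (bc a l c w) (Set.Iio (a + l + c + 5)) ∧ (BF a l c w).card = a + l + c + 5

/-- DEG: degrees of a bicycle -/
def S_DEG : Prop := ∀ (n a l c : ℕ) (w : Fin (a + l + c + 4) → Lit n), DV w →
  Thin (gB a l c w) (SpB a l c w) (QB a l c w) ∧ (SpB a l c w).card ≤ 4 ∧
    (QB a l c w).card ≤ 2 * (a + l + c + 4) ∧
    (∀ u, u ∈ SpB a l c w ↔ neg u ∈ SpB a l c w) ∧ (∀ u, u ∈ QB a l c w ↔ neg u ∈ QB a l c w)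

/-- PRD: the clauses outside a bicycle -/
def S_PRD : Prop := ∀ (n a l c a' l' c' : ℕ) (w : Fin (a + l + c + 4) → Lit n)
  (w' : Fin (a' + l' + c' + 4) → Lit n) (p : ℝ), DV w → DV w' → 0 ≤ p →
  p ^ (BF a' l' c' w' \ BF a l c w).card =
    ∏ i ∈ range (a' + l' + c' + 5), wt (gB a l c w) p (ex a' l' c' w' i) (ex a' l' c' w' (i + 1))

/-- DEC: decomposition of the bicycles in three paths -/
def S_DEC : Prop := ∀ (n a l c : ℕ) (g : Lit n → Lit n → Prop) (p : ℝ), 0 ≤ p →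
  ∑ w : {w : Fin (a + l + c + 4) → Lit n // DV w},
      ∏ i ∈ range (a + l + c + 5), wt g p (ex a l c w.1 i) (ex a l c w.1 (i + 1)) ≤
    ∑ x : Lit n, ∑ y : Lit n, PN g p (a + 2) (neg x) * PS g p (l + 1) x y * PN g p (c + 2) y

/-! ### statements: paths -/

/-- G1 -/
def S_G1 : Prop := ∀ (V : Type) [Fintype V] (g : V → V → Prop) (Sp : Finset V),
  (∀ u, (univ.filter (fun v => g u v)).card ≤ 2) →
  (∀ u, u ∉ Sp → (univ.filter (fun v => g u v)).card ≤ 1) →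
  ∀ (t : ℕ) (u : V), NG g t u ≤ 2 ^ Sp.card

/-- G2 -/
def S_G2 : Prop := ∀ (V : Type) [Fintype V] (g : V → V → Prop) (Sp : Finset V),
  (∀ u, (univ.filter (fun v => g u v)).card ≤ 2) →
  (∀ u, u ∉ Sp → (univ.filter (fun v => g u v)).card ≤ 1) →
  ∀ (L : ℕ) (u v : V), ∑ t ∈ range L, NK g t u v ≤ 2 ^ Sp.card

/-- G3 -/
def S_G3 : Prop := ∀ (V : Type) [Fintype V] (g : V → V → Prop) (Sp Q : Finset V) (p : ℝ) (L : ℕ),
  Thin g Sp Q → 0 ≤ p → p * Fintype.card V ≤ 1 → ∀ t ≤ L,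
  ∑ u : V, ∑ v : V, PS g p t u v ≤ Fintype.card V * EE Sp Q L

/-- G4 -/
def S_G4 : Prop := ∀ (V : Type) [Fintype V] (g : V → V → Prop) (Sp Q : Finset V) (p : ℝ) (L : ℕ),
  Thin g Sp Q → 0 ≤ p → p * Fintype.card V ≤ 1 → ∀ u v : V,
  ∑ t ∈ Ico 1 (L + 1), PS g p t u v ≤ (if u ∈ Q ∧ v ∈ Q then 2 ^ Sp.card else 0) +
    2 * ((L : ℝ) + 1) * EE Sp Q L * p * kap Sp Q L u * kap Sp Q L v

/-- G5 -/
def S_G5 : Prop := ∀ (V : Type) [Fintype V] (g : V → V → Prop) (Sp Q : Finset V) (p : ℝ) (L : ℕ),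
  Thin g Sp Q → 0 ≤ p → p * Fintype.card V ≤ 1 → ∀ u v : V,
  ∑ t ∈ Ico 1 (L + 1), PF g p t u v ≤
    2 * ((L : ℝ) + 1) * EE Sp Q L * p * (kap Sp Q L u + kap Sp Q L v)

/-- GA: first step which is not a `g`-step -/
def S_GA : Prop := ∀ (V : Type) [Fintype V] (g : V → V → Prop) (p : ℝ), 0 ≤ p →
  (∀ (t : ℕ) (u v : V), PS g p t u v ≤ (NK g t u v : ℝ) +
    ∑ i ∈ range t, (NG g i u : ℝ) * p * ∑ v' : V, PS g p (t - 1 - i) v' v) ∧
  (∀ (t : ℕ) (u v : V), ∑ f ∈ univ.filter (fun f : Fin (t + 1 + 1) → V =>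
      Function.Injective f ∧ f 0 = u ∧ f (Fin.last (t + 1)) = v ∧ ¬ g (f 0) (f 1)),
    ∏ i : Fin (t + 1), wt g p (f i.castSucc) (f i.succ) ≤ p * ∑ v' : V, PS g p t v' v)

/-- GR: reversal of paths -/
def S_GR : Prop := ∀ (V : Type) [Fintype V] (g : V → V → Prop) (p : ℝ) (t : ℕ) (u v : V),
  PS g p t u v = PS (fun a b => g b a) p t v u ∧ PF g p t u v = PF (fun a b => g b a) p t v u ∧
  NK g t u v = NK (fun a b => g b a) t v u

/-- PNB: loops -/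
def S_PNB : Prop := ∃ C : ℝ, 0 < C ∧ ∀ n S m : ℕ, Adm n S m → ∀ (a l c : ℕ)
  (w : Fin (a + l + c + 4) → Lit n), a < S → l < S → c < S → DV w → ∀ u : Lit n,
  ∑ t ∈ range S, PN (gB a l c w) (pp n m) (t + 2) u ≤ C * hB S (SpB a l c w) (QB a l c w) u

/-- MUB: paths -/
def S_MUB : Prop := ∃ C : ℝ, 0 < C ∧ ∀ n S m : ℕ, Adm n S m → ∀ (a l c : ℕ)
  (w : Fin (a + l + c + 4) → Lit n), a < S → l < S → c < S → DV w → ∀ x y : Lit n,
  ∑ t ∈ range S, PS (gB a l c w) (pp n m) (t + 1) x y ≤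
    C * kB S (QB a l c w) x * kB S (QB a l c w) y / (S : ℝ) ^ 2

/-- SUM2: second moment, one bicycle fixed -/
def S_SUM2 : Prop := ∃ C : ℝ, ∀ n S m : ℕ, Adm n S m → ∀ b : BI S n,
  ∑ b' : BI S n, pp n m ^ (BB b' \ BB b).card ≤ C

/-- E1: first moment -/
def S_E1 : Prop := ∃ c : ℝ, 0 < c ∧ ∃ S0 : ℕ, ∀ n S m : ℕ, Adm n S m → S0 ≤ S →
  c ≤ ∑ b : BI S n, avg (fun σ : OC n => ind (BB b ⊆ st σ m))

/-- E2: second moment -/
def S_E2 : Prop := ∃ C : ℝ, 0 < C ∧ ∀ n S m : ℕ, Adm n S m →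
  ∑ b : BI S n, ∑ b' : BI S n,
    avg (fun σ : OC n => ind (BB b ∪ BB b' ⊆ st σ m)) ≤ C

/-- ULB: unsatisfiable with probability bounded below -/
def S_ULB : Prop := ∃ c : ℝ, 0 < c ∧ ∃ S0 : ℕ, ∀ n S m : ℕ, Adm n S m → S0 ≤ S →
  c ≤ avg (fun σ : OC n => ind (¬ Sat (st σ m)))

/-! ### statements: uniquely satisfiable subformulas -/

/-- STRC -/
def S_STRC : Prop := ∀ (n : ℕ) (F : Form 2 n), HasUSS F → ∃ (x y : Lit n) (T : Set (Lit n)),
  (∀ u ∈ T, neg u ∉ T) ∧ x ∈ T ∧ y ∈ T ∧ x ≠ y ∧ Has F x y ∧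
  Relation.ReflTransGen (fun u v => Arc F u v ∧ u ∈ T ∧ v ∈ T) x y ∧
  Relation.ReflTransGen (fun u v => Arc F u v ∧ u ∈ T ∧ v ∈ T) y x

/-- a cycle with a chord -/
def TyI (F : Form 2 n) (w s : ℕ) (z : ℕ → Lit n) : Prop :=
  1 ≤ s ∧ s < w ∧ (∀ i < w, ∀ j < w, (z i).1 = (z j).1 → i = j) ∧
  (∀ i, i + 1 < w → Arc F (z i) (z (i + 1))) ∧ Arc F (z (w - 1)) (z 0) ∧ Has F (z 0) (z s)

/-- a path with a chord and two ears -/
def TyII (F : Form 2 n) (w t s a b : ℕ) (z : ℕ → Lit n) : Prop :=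
  1 ≤ a ∧ a < s ∧ s < w ∧ 1 ≤ b ∧ b ≤ s ∧
  (∀ i < w + t, ∀ j < w + t, (z i).1 = (z j).1 → i = j) ∧
  (∀ i, i + 1 < w → Arc F (z i) (z (i + 1))) ∧ Arc F (z (w - 1)) (z a) ∧
  (∀ i, w ≤ i → i + 1 < w + t → Arc F (z i) (z (i + 1))) ∧
  (t = 0 → Arc F (z b) (z 0)) ∧ (0 < t → Arc F (z b) (z w) ∧ Arc F (z (w + t - 1)) (z 0)) ∧
  Has F (z 0) (z s)

/-- EXTR -/
def S_EXTR : Prop := ∀ (n : ℕ) (F : Form 2 n) (x y : Lit n) (T : Set (Lit n)),
  (∀ u ∈ T, neg u ∉ T) → x ∈ T → y ∈ T → x ≠ y → Has F x y →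
  Relation.ReflTransGen (fun u v => Arc F u v ∧ u ∈ T ∧ v ∈ T) x y →
  Relation.ReflTransGen (fun u v => Arc F u v ∧ u ∈ T ∧ v ∈ T) y x →
  (∃ (w s : ℕ) (z : ℕ → Lit n), TyI F w s z) ∨
    (∃ (w t s a b : ℕ) (z : ℕ → Lit n), TyII F w t s a b z)

/-- VB1 -/
def S_VB1 : Prop := ∀ n m : ℕ, 2 ≤ n → m ≤ Fintype.card (Clause 2 n) →
  avg (fun σ : OC n => ind (∃ (w s : ℕ) (z : ℕ → Lit n), TyI (st σ m) w s z)) ≤
    ∑ w ∈ range (n + 1), (w : ℝ) * (2 * (n : ℝ)) ^ w * pp n m ^ (w + 1)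

/-- VB2 -/
def S_VB2 : Prop := ∀ n m : ℕ, 2 ≤ n → m ≤ Fintype.card (Clause 2 n) →
  avg (fun σ : OC n =>
    ind (∃ (w t s a b : ℕ) (z : ℕ → Lit n), TyII (st σ m) w t s a b z)) ≤
    ∑ w ∈ range (n + 1), ∑ t ∈ range (n + 1),
      (w : ℝ) ^ 3 * (2 * (n : ℝ)) ^ (w + t) * pp n m ^ (w + t + 2)

/-- VNUM -/
def S_VNUM : Prop := ∃ C : ℝ, 0 < C ∧ ∀ n S m : ℕ, Adm n S m →
  ∑ w ∈ range (n + 1), (w : ℝ) * (2 * (n : ℝ)) ^ w * pp n m ^ (w + 1) ≤ C / S ∧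
  ∑ w ∈ range (n + 1), ∑ t ∈ range (n + 1),
      (w : ℝ) ^ 3 * (2 * (n : ℝ)) ^ (w + t) * pp n m ^ (w + t + 2) ≤ C / S

/-- VUB: few uniquely satisfiable subformulas -/
def S_VUB : Prop := ∃ C : ℝ, 0 < C ∧ ∀ n S m : ℕ, Adm n S m →
  avg (fun σ : OC n => ind (HasUSS (st σ m))) ≤ C / S

/-- FIN2: the theorem -/
def S_FIN2 : Prop := ∃ δ : ℝ, 0 < δ ∧ ∃ n0 : ℕ, ∀ n ≥ n0,
  δ ≤ avg (fun σ : OC n =>
    ind (∀ m, (∀ j < m, Sat (st σ j)) → ¬ HasUSS (st σ m)))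

end

end Pool.Agent.H921K
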