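import Pool.Agent.H921K.Defs
import Pool.Agent.H921S.CARD

/-!
Paths from `x` to `y`.
-/

set_option autoImplicit false

namespace Pool.Agent.H921K

open Finset Pool.Agent.H921S
open scoped Classical

noncomputable section

namespace MUBaux

theorem kap_le {n S : ℕ} (hS : 1 ≤ S) (Sp Q : Finset (Lit n)) (hSp : Sp.card ≤ 4) (u : Lit n) :
    0 ≤ kap Sp Q S u ∧ kap Sp Q S u ≤ 32 * kB S Q u := by
  have hS' : (1 : ℝ) ≤ S := by exact_mod_cast hS
  unfold kap kB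
  split_ifs with h
  · have h1 : (2 : ℝ) ^ Sp.card ≤ 2 ^ 4 := pow_le_pow_right₀ (by norm_num) hSp
    have h0 : (0 : ℝ) < 2 ^ Sp.card := by positivity
    constructor
    · positivity
    · calc (2 : ℝ) ^ Sp.card * ((S : ℝ) + 1) ≤ 2 ^ 4 * ((S : ℝ) + S) := by gcongr
        _ = 32 * S := by ring
  · constructor <;> norm_num

theorem EE_le {n S : ℕ} (hS : 1 ≤ S) (hn : S ^ 3 ≤ n) (Sp Q : Finset (Lit n)) (hSp : Sp.card ≤ 4)
    (hQ : Q.card ≤ 8 * S) : EE Sp Q S ≤ Real.exp 64 := by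
  unfold EE
  apply Real.exp_le_exp.2
  have hS' : (1 : ℝ) ≤ S := by exact_mod_cast hS
  have hn' : (S : ℝ) ^ 3 ≤ n := by exact_mod_cast hn
  have hn0 : (0 : ℝ) < n := by
    have : (0 : ℝ) < (S : ℝ) ^ 3 := by positivity
    linarith
  have hcard : (Fintype.card (Lit n) : ℝ) = 2 * n := by
    rw [Fintype.card_prod, Fintype.card_fin, Fintype.card_bool]
    push_cast
    ring
  have hQ' : (Q.card : ℝ) ≤ 8 * S := by exact_mod_cast hQ
  have h1 : (2 : ℝ) ^ Sp.card ≤ 2 ^ 4 := pow_le_pow_right₀ (by norm_num) hSp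
  rw [hcard, div_le_iff₀ (by positivity)]
  calc (2 : ℝ) ^ Sp.card * (Q.card : ℝ) * (S : ℝ) ^ 2 ≤ 2 ^ 4 * (8 * S) * (S : ℝ) ^ 2 := by gcongr
    _ = 128 * (S : ℝ) ^ 3 := by ring
    _ ≤ 128 * n := by linarith
    _ = 64 * (2 * n) := by ring

end MUBaux

open MUBaux in
theorem t_MUB (hG : S_G4) (hD : S_DEG) : S_MUB := by
  refine ⟨16 + 2048 * Real.exp 64, by positivity, ?_⟩
  intro n S m hadm a l c w ha hl hc hw x y
  obtain ⟨hS4, hn1, hn2, hm1, hm2⟩ := hadm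
  obtain ⟨hthin, hSp, hQ, -, -⟩ := hD n a l c w hw
  set Sp := SpB a l c w
  set Q := QB a l c w
  set g := gB a l c w
  set p := pp n m with hp
  have hS' : (4 : ℝ) ≤ S := by exact_mod_cast hS4
  have hn' : (S : ℝ) ^ 3 ≤ n := by exact_mod_cast hn1
  have hS3 : (64 : ℝ) ≤ (S : ℝ) ^ 3 := by
    calc (64 : ℝ) = 4 ^ 3 := by norm_num
      _ ≤ (S : ℝ) ^ 3 := by gcongr
  have hn0 : (64 : ℝ) ≤ n := hS3.trans hn'
  have hnn : 64 ≤ n := by exact_mod_cast hn0
  -- the density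
  have hNN : NN 2 n = 2 * n * (n - 1) := by
    unfold NN
    rw [CARD_thm 2 n]
    push_cast
    rw [Nat.cast_choose_two]
    ring
  have hp0 : 0 ≤ p := by
    rw [hp]
    unfold pp
    positivity
  have hpn : p * (2 * n) ≤ 1 := by
    have h1 : (m : ℝ) * S ≤ ((n : ℝ) - 1) * (S - 1) := by
      have : ((m * S : ℕ) : ℝ) ≤ (((n - 1) * (S - 1) : ℕ) : ℝ) := by exact_mod_cast hm1
      push_cast [Nat.cast_sub (show 1 ≤ n by omega), Nat.cast_sub (show 1 ≤ S by omega)] at this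
      exact this
    have h2 : (m : ℝ) ≤ n - 1 := by
      have h3 : (m : ℝ) * S ≤ ((n : ℝ) - 1) * S := by nlinarith
      exact le_of_mul_le_mul_right h3 (by linarith)
    have h4 : (0 : ℝ) < 2 * n * (n - 1) := by nlinarith
    rw [hp]
    unfold pp
    rw [hNN, div_mul_eq_mul_div, div_le_one h4]
    nlinarith
  have hpS : p ≤ 1 / (2 * (S : ℝ) ^ 3) := by
    rw [le_div_iff₀ (by positivity)]
    calc p * (2 * (S : ℝ) ^ 3) ≤ p * (2 * n) := by gcongr
      _ ≤ 1 := hpn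
  have hcard : (Fintype.card (Lit n) : ℝ) = 2 * n := by
    rw [Fintype.card_prod, Fintype.card_fin, Fintype.card_bool]
    push_cast
    ring
  have h1 := hG (Lit n) g Sp Q p S hthin hp0 (by rw [hcard]; exact hpn) x y
  have h2 : ∑ t ∈ range S, PS g p (t + 1) x y = ∑ t ∈ Ico 1 (S + 1), PS g p t x y := by
    rw [Finset.sum_Ico_eq_sum_range]
    simp only [Nat.add_sub_cancel]
    exact Finset.sum_congr rfl fun t _ => by rw [Nat.add_comm 1 t]
  rw [h2]
  refine h1.trans ?_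
  obtain ⟨kx0, kx⟩ := kap_le (show 1 ≤ S by omega) Sp Q hSp x
  obtain ⟨ky0, ky⟩ := kap_le (show 1 ≤ S by omega) Sp Q hSp y
  have hE := EE_le (show 1 ≤ S by omega) hn1 Sp Q hSp (hQ.trans (by omega))
  have hE0 : 0 ≤ EE Sp Q S := (Real.exp_pos _).le
  have kB0 : ∀ u, 0 ≤ kB S Q u := fun u => by unfold kB; split_ifs <;> positivity
  have hS2 : (0 : ℝ) < (S : ℝ) ^ 2 := by positivity
  have e1 : ∀ D : Decidable (x ∈ Q ∧ y ∈ Q), @ite ℝ (x ∈ Q ∧ y ∈ Q) D ((2 : ℝ) ^ Sp.card) 0 ≤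
      16 * (kB S Q x * kB S Q y / (S : ℝ) ^ 2) := by
    intro D
    split_ifs with h
    · have h3 : kB S Q x * kB S Q y / (S : ℝ) ^ 2 = 1 := by
        unfold kB
        rw [if_pos h.1, if_pos h.2, div_eq_one_iff_eq hS2.ne']
        ring
      rw [h3]
      calc (2 : ℝ) ^ Sp.card ≤ 2 ^ 4 := pow_le_pow_right₀ (by norm_num) hSp
        _ = 16 * 1 := by norm_num
    · have := kB0 x
      have := kB0 y
      positivity
  have e2 : 2 * ((S : ℝ) + 1) * EE Sp Q S * p * kap Sp Q S x * kap Sp Q S y ≤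
      2048 * Real.exp 64 * (kB S Q x * kB S Q y / (S : ℝ) ^ 2) := by
    have := kB0 x
    have := kB0 y
    calc 2 * ((S : ℝ) + 1) * EE Sp Q S * p * kap Sp Q S x * kap Sp Q S y ≤
        2 * ((S : ℝ) + S) * Real.exp 64 * (1 / (2 * (S : ℝ) ^ 3)) * (32 * kB S Q x) *
          (32 * kB S Q y) := by
          gcongr
          linarith
      _ = 2048 * Real.exp 64 * (kB S Q x * kB S Q y / (S : ℝ) ^ 2) := by
          field_simp
          ring
  refine (add_le_add (e1 _) e2).trans (le_of_eq ?_)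
  ring

end

end Pool.Agent.H921K
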